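import Pool.Agent.Helper84.G2.Ext

/-!
G2/Fld. Superfield extensions (see `Ext.lean`): `exists_superfield2` (either parity), `TS.Gov` (the letters which are components of a
superfield), `exists_fieldsE` (finitely many superfields at once).
-/

set_option autoImplicit false

namespace AnWL
open Anick2
variable {P : Par}

section

attribute [local irreducible] instRingLam

private theorem g2f_iR {T T' : TS P} (h : T.Hom T') (a : Lam P.dq) :
    h.Φ (iR T.deg P.dq a) = iR T'.deg P.dq a := by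
  have : (h.Φ).comp (iR T.deg P.dq) = iR T'.deg P.dq := by
    refine Lam.algHom_ext _ fun t => ?_
    have e1 : iR T.deg P.dq (gen P.dq t) = gen T.dt (Sum.inr t) := mapL_gen (fun _ => rfl) t
    have e2 : iR T'.deg P.dq (gen P.dq t) = gen T'.dt (Sum.inr t) := mapL_gen (fun _ => rfl) t
    rw [AlgHom.comp_apply, e1, e2, Φ_inr]
  exact congrArg (fun g : Lam P.dq →ₐ[ℚ] Lam T'.dt => g a) this

private theorem g2f_iL {T T' : TS P} (h : T.Hom T') (j : Lam T.deg →ₐ[ℚ] Lam T'.deg)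
    (hj : ∀ i, j (gen T.deg i) = gen T'.deg (h.f i)) (a : Lam T.deg) :
    h.Φ (iL T.deg P.dq a) = iL T'.deg P.dq (j a) := by
  have : (h.Φ).comp (iL T.deg P.dq) = (iL T'.deg P.dq).comp j := by
    refine Lam.algHom_ext _ fun i => ?_
    have e1 : iL T.deg P.dq (gen T.deg i) = T.gW i := mapL_gen (fun _ => rfl) i
    have e3 : iL T'.deg P.dq (gen T'.deg (h.f i)) = T'.gW (h.f i) :=
      mapL_gen (fun _ => rfl) (h.f i)
    rw [AlgHom.comp_apply, AlgHom.comp_apply, e1, hj, e3, Φ_gW]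
  exact congrArg (fun g : Lam T.deg →ₐ[ℚ] Lam T'.dt => g a) this

private theorem g2f_calc {T T' : TS P} (h : T.Hom T') (j : Lam T.deg →ₐ[ℚ] Lam T'.deg)
    (hj : ∀ x, h.Φ (iL T.deg P.dq x) = iL T'.deg P.dq (j x)) {L : Finset P.M} {Q : ℕ}
    (B : Bas P L Q) (ζ : B.B → T'.ι) (c : B.B → B.B → Lam T.deg) (G : B.B → Lam T.deg)
    (hc : ∀ b, T.D (iR T.deg P.dq (B.ω b)) =
      ∑ b', iL T.deg P.dq (c b b') * iR T.deg P.dq (B.ω b'))
    (hz : ∀ b, T'.S.d (gen T'.deg (ζ b)) =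
      j (G b) - ∑ a, sgn T'.deg (gen T'.deg (ζ a)) * j (c a b)) :
    T'.D (T'.fld B ζ) = h.Φ (∑ b, iL T.deg P.dq (G b) * iR T.deg P.dq (B.ω b)) := by
  have hg : ∀ b, iL T'.deg P.dq (gen T'.deg (ζ b)) = T'.gW (ζ b) := fun b =>
    mapL_gen (fun _ => rfl) (ζ b)
  have hs : ∀ b, iL T'.deg P.dq (sgn T'.deg (gen T'.deg (ζ b))) = sgn T'.dt (T'.gW (ζ b)) := by
    intro b
    rw [← hg b]
    exact mapL_sgn (fun _ => rfl) _
  have h1 : ∀ b, T'.D (T'.gW (ζ b)) = iL T'.deg P.dq (j (G b)) -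
      ∑ a, sgn T'.dt (T'.gW (ζ a)) * iL T'.deg P.dq (j (c a b)) := by
    intro b
    rw [← hg b, T'.ext, hz b, map_sub, map_sum]
    congr 1
    refine Finset.sum_congr rfl fun a _ => ?_
    rw [map_mul, hs]
  have h2 : ∀ b, T'.D (iR T'.deg P.dq (B.ω b)) =
      ∑ b', iL T'.deg P.dq (j (c b b')) * iR T'.deg P.dq (B.ω b') := by
    intro b
    rw [← g2f_iR h, Φ_D, hc b, map_sum]
    refine Finset.sum_congr rfl fun b' _ => ?_
    rw [map_mul, hj, g2f_iR]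
  have h3 : h.Φ (∑ b, iL T.deg P.dq (G b) * iR T.deg P.dq (B.ω b)) =
      ∑ b, iL T'.deg P.dq (j (G b)) * iR T'.deg P.dq (B.ω b) := by
    rw [map_sum]
    refine Finset.sum_congr rfl fun b _ => ?_
    rw [map_mul, hj, g2f_iR]
  have h4 : T'.D (T'.fld B ζ) = ∑ b, (T'.D (T'.gW (ζ b)) * iR T'.deg P.dq (B.ω b) +
      sgn T'.dt (T'.gW (ζ b)) * T'.D (iR T'.deg P.dq (B.ω b))) := by
    unfold TS.fld
    rw [map_sum]
    exact Finset.sum_congr rfl fun b _ => T'.leib _ _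
  rw [h3, h4, Finset.sum_add_distrib]
  have h5 : ∑ b, T'.D (T'.gW (ζ b)) * iR T'.deg P.dq (B.ω b) =
      ∑ b, iL T'.deg P.dq (j (G b)) * iR T'.deg P.dq (B.ω b) -
        ∑ b, ∑ a, sgn T'.dt (T'.gW (ζ a)) * iL T'.deg P.dq (j (c a b)) *
          iR T'.deg P.dq (B.ω b) := by
    rw [← Finset.sum_sub_distrib]
    refine Finset.sum_congr rfl fun b _ => ?_
    rw [h1 b, sub_mul, Finset.sum_mul]
  have h6 : ∑ b, sgn T'.dt (T'.gW (ζ b)) * T'.D (iR T'.deg P.dq (B.ω b)) =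
      ∑ b, ∑ b', sgn T'.dt (T'.gW (ζ b)) * iL T'.deg P.dq (j (c b b')) *
          iR T'.deg P.dq (B.ω b') := by
    refine Finset.sum_congr rfl fun b _ => ?_
    rw [h2 b, Finset.mul_sum]
    exact Finset.sum_congr rfl fun b' _ => (mul_assoc _ _ _).symm
  rw [h5, h6, Finset.sum_comm, sub_add_cancel]

end


theorem exists_superfield2 (T : TS P) (L : Finset P.M) (n₀ : ℕ) (hn₀ : 2 ≤ n₀) (g : ℕ)
    (hg : n₀ + 1 ≤ g) (w : Lam T.dt) (hw : w ∈ hom T.dt g)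
    (hκ : w ∈ T.sp 2 (n₀ + 1)) (hD : T.D w = 0)
    (hL : ∀ j, j ∉ L → T.p j w = 0) :
    ∃ (T' : TS P) (h : T.Hom T') (Q : ℕ) (B : Bas P L Q) (ζ : B.B → T'.ι),
      (∀ i, i ∈ Set.range h.f ∨ ∃ b, i = ζ b) ∧ (∀ b, n₀ ≤ T'.deg (ζ b)) ∧
      (∀ b, T'.deg (ζ b) + B.e b + 1 = g) ∧ T'.D (T'.fld B ζ) = h.Φ w := by
  obtain ⟨B⟩ := exists_Bas P L (g - 1 - n₀)
  obtain ⟨c, hc⟩ := exists_c T B
  obtain ⟨G, hG1, hG2, hG3⟩ := Bas_expand2 T B (n := g) (k := 2) (m := n₀ + 1) (by omega) hw hκ hL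
  have hGc := closed_coeff T B hc G (by rw [← hG3]; exact hD)
  have hle : ∀ b, B.e b + 1 + n₀ ≤ g := fun b => by have := B.le b; omega
  have := T.fin
  obtain ⟨S', hS1, hS2⟩ := exists_matExt T.S B.e g (fun b => by have := hle b; omega) c hc.deg
    hc.mem hc.flat G hG2 hG1 hGc
  have : Finite B.B := Finite.of_fintype _
  refine ⟨T.extend (fun b => g - 1 - B.e b) S' hS1,
    T.extendHom (fun b => g - 1 - B.e b) S' hS1, g - 1 - n₀, B, Sum.inr, ?_, ?_, ?_, ?_⟩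
  · rintro (i | b)
    · exact Or.inl ⟨i, rfl⟩
    · exact Or.inr ⟨b, rfl⟩
  · intro b
    show n₀ ≤ g - 1 - B.e b
    have := hle b
    omega
  · intro b
    show g - 1 - B.e b + B.e b + 1 = g
    have := hle b
    omega
  · have key := g2f_calc (T.extendHom (fun b => g - 1 - B.e b) S' hS1)
      (iL T.deg (fun b => g - 1 - B.e b))
      (g2f_iL (T.extendHom (fun b => g - 1 - B.e b) S' hS1)
        (iL T.deg (fun b => g - 1 - B.e b)) (fun i => mapL_gen (fun _ => rfl) i))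
      B Sum.inr c G hc.eq hS2
    rw [key, ← hG3]

/-- The letter `i` is a component of the superfield `z` of degree `e`. -/
def TS.Gov (T : TS P) (e : ℤ) (z : Lam T.dt) (i : T.ι) : Prop :=
  ∃ (L : Finset P.M) (Q : ℕ) (B : Bas P L Q) (ζ : B.B → T.ι), T.fld B ζ = z ∧
    (∀ b, (T.deg (ζ b) : ℤ) + B.e b = e) ∧ ∃ b, i = ζ b

theorem Φ_fld {T T' : TS P} (h : T.Hom T') {L : Finset P.M} {Q : ℕ} (B : Bas P L Q)
    (ζ : B.B → T.ι) : h.Φ (T.fld B ζ) = T'.fld B (fun b => h.f (ζ b)) := by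
  unfold TS.fld
  rw [map_sum]
  refine Finset.sum_congr rfl fun b _ => ?_
  rw [map_mul, Φ_gW, g2f_iR]

theorem Gov_Φ {T T' : TS P} (h : T.Hom T') {e : ℤ} {z : Lam T.dt} {i : T.ι}
    (hz : T.Gov e z i) : T'.Gov e (h.Φ z) (h.f i) := by
  obtain ⟨L, Q, B, ζ, h1, h2, b, h3⟩ := hz
  refine ⟨L, Q, B, fun b => h.f (ζ b), ?_, fun b => ?_, b, ?_⟩
  · rw [← h1, Φ_fld]
  · rw [h.deg]
    exact h2 b
  · rw [h3]

private theorem g2f_wW (T : TS P) (l : List (T.ι ⊕ (P.U ⊕ P.M))) :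
    wW T.deg l ≤ degSum T.dt l := by
  induction l with
  | nil => exact le_refl _
  | cons x l ih =>
    have h1 : wW T.deg (x :: l) = Sum.elim T.deg (fun _ => 0) x + wW T.deg l :=
      degSum_cons _ _ _
    rw [h1, degSum_cons]
    rcases x with i | t
    · exact Nat.add_le_add (le_refl _) ih
    · exact Nat.add_le_add (Nat.zero_le _) ih

private theorem g2f_ge (T : TS P) {k m g : ℕ} {w : Lam T.dt} (hw0 : w ≠ 0)
    (hw : w ∈ hom T.dt g) (hκ : w ∈ T.sp k m) : m ≤ g := by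
  by_contra hlt
  apply hw0
  have h1 := SP_pr hκ hw
  have h2 : w ∈ SP T.dt (fun _ => False) := by
    refine SP_imp ?_ h1
    rintro l ⟨⟨-, h3⟩, h4⟩
    have := g2f_wW T l
    omega
  have h3 : SP T.dt (fun _ => False) = ⊥ := by
    unfold SP
    rw [Submodule.span_eq_bot]
    rintro x ⟨l, hl, -⟩
    exact hl.elim
  rw [h3] at h2
  exact (Submodule.mem_bot ℚ).1 h2

theorem fld_hz (T : TS P) {L : Finset P.M} {Q : ℕ} (B : Bas P L Q) (ζ : B.B → T.ι) (e : ℤ)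
    (hi : ∀ b, (T.deg (ζ b) : ℤ) + B.e b = e) : T.fld B ζ ∈ T.hz e := by
  unfold TS.fld
  refine Submodule.sum_mem _ fun b _ => ?_
  have h1 : T.gW (ζ b) ∈ T.hz (T.deg (ζ b)) := hz_of_hom T (gen_mem_hom T.dt (Sum.inl (ζ b)))
  have h2 : iR T.deg P.dq (B.ω b) ∈ T.hz (B.e b) :=
    hz_of_hom T (mapL_hom (fun _ => rfl) (homS_le P.dq _ _ (B.mem b)))
  have h3 := hz_mul T h1 h2
  rwa [hi b] at h3

theorem fld_sp (T : TS P) {L : Finset P.M} {Q : ℕ} (B : Bas P L Q) (ζ : B.B → T.ι) (n : ℕ)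
    (hi : ∀ b, n ≤ T.deg (ζ b)) : T.fld B ζ ∈ T.sp 1 n := by
  unfold TS.fld
  refine Submodule.sum_mem _ fun b _ => ?_
  refine sp_mul_right T _ ?_
  have h1 : wW T.deg ([Sum.inl (ζ b)] : List (T.ι ⊕ (P.U ⊕ P.M))) = T.deg (ζ b) + 0 :=
    degSum_cons _ _ _
  refine SP_gen ⟨le_refl _, ?_⟩
  rw [h1]
  exact hi b

/-- One superfield. -/
theorem exists_field (T : TS P) (n₀ : ℕ) (hn₀ : 2 ≤ n₀) (g : ℤ) (w : Lam T.dt)
    (hw : w ∈ T.hz g) (hκ : w ∈ T.sp 2 (n₀ + 1)) (hD : T.D w = 0) :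
    ∃ (T' : TS P) (h : T.Hom T') (z : Lam T'.dt), z ∈ T'.hz (g - 1) ∧ z ∈ T'.sp 1 n₀ ∧
      T'.D z = h.Φ w ∧
      ∀ i, i ∈ Set.range h.f ∨ (n₀ ≤ T'.deg i ∧ T'.Gov (g - 1) z i) := by
  by_cases hz : w = 0
  · refine ⟨T, TS.Hom.id T, 0, zero_mem _, zero_mem _, ?_, fun i => Or.inl ⟨i, rfl⟩⟩
    rw [hz, map_zero, map_zero]
  obtain ⟨n, rfl, hwn⟩ := ((hz_iff T).1 hw).resolve_left hz
  have := P.finM
  have := Fintype.ofFinite P.M
  obtain ⟨T', h, Q, B, ζ, h1, h2, h3, h4⟩ := exists_superfield2 T Finset.univ n₀ hn₀ n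
    (g2f_ge T hz hwn hκ) w hwn hκ hD (fun j hj => absurd (Finset.mem_univ j) hj)
  have h5 : ∀ b, (T'.deg (ζ b) : ℤ) + B.e b = (n : ℤ) - 1 := by
    intro b
    have := h3 b
    omega
  refine ⟨T', h, T'.fld B ζ, fld_hz T' B ζ _ h5, fld_sp T' B ζ n₀ h2, h4, ?_⟩
  intro i
  rcases h1 i with h6 | ⟨b, hb⟩
  · exact Or.inl h6
  · refine Or.inr ⟨?_, Finset.univ, Q, B, ζ, rfl, h5, b, hb⟩
    rw [hb]
    exact h2 b

/-- Finitely many superfields. -/
theorem exists_fieldsE (T : TS P) (n₀ : ℕ) (hn₀ : 2 ≤ n₀) {σ : Type} [Finite σ] (g : σ → ℤ)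
    (w : σ → Lam T.dt) (hw : ∀ s, w s ∈ T.hz (g s)) (hκ : ∀ s, w s ∈ T.sp 2 (n₀ + 1))
    (hD : ∀ s, T.D (w s) = 0) :
    ∃ (T' : TS P) (h : T.Hom T') (z : σ → Lam T'.dt), (∀ s, z s ∈ T'.hz (g s - 1)) ∧
      (∀ s, z s ∈ T'.sp 1 n₀) ∧ (∀ s, T'.D (z s) = h.Φ (w s)) ∧
      ∀ i, i ∈ Set.range h.f ∨ (n₀ ≤ T'.deg i ∧ ∃ s, T'.Gov (g s - 1) (z s) i) := by
  classical
  have := Fintype.ofFinite σ
  have key : ∀ J : Finset σ, ∃ (T' : TS P) (h : T.Hom T') (z : σ → Lam T'.dt),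
      (∀ s ∈ J, z s ∈ T'.hz (g s - 1)) ∧ (∀ s ∈ J, z s ∈ T'.sp 1 n₀) ∧
      (∀ s ∈ J, T'.D (z s) = h.Φ (w s)) ∧
      ∀ i, i ∈ Set.range h.f ∨ (n₀ ≤ T'.deg i ∧ ∃ s ∈ J, T'.Gov (g s - 1) (z s) i) := by
    intro J
    induction J using Finset.induction_on with
    | empty =>
      refine ⟨T, TS.Hom.id T, fun _ => 0, ?_, ?_, ?_, fun i => Or.inl ⟨i, rfl⟩⟩
      · intro s hs
        exact absurd hs (Finset.notMem_empty s)
      · intro s hs
        exact absurd hs (Finset.notMem_empty s)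
      · intro s hs
        exact absurd hs (Finset.notMem_empty s)
    | insert a J haJ ih =>
      obtain ⟨T₁, h₁, z₁, k1, k2, k3, k4⟩ := ih
      obtain ⟨T₂, h₂, z₂, m1, m2, m3, m4⟩ := exists_field T₁ n₀ hn₀ (g a) (h₁.Φ (w a))
        (hz_Φ h₁ (hw a)) (sp_Φ h₁ (hκ a)) (by rw [Φ_D, hD a, map_zero])
      have hne : ∀ s ∈ J, s ≠ a := by
        rintro s hs rfl
        exact haJ hs
      refine ⟨T₂, h₁.comp h₂, fun s => if s = a then z₂ else h₂.Φ (z₁ s), ?_, ?_, ?_, ?_⟩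
      · intro s hs
        by_cases hsa : s = a
        · simp only [if_pos hsa]
          rw [hsa]
          exact m1
        · simp only [if_neg hsa]
          exact hz_Φ h₂ (k1 s ((Finset.mem_insert.1 hs).resolve_left hsa))
      · intro s hs
        by_cases hsa : s = a
        · simp only [if_pos hsa]
          exact m2
        · simp only [if_neg hsa]
          exact sp_Φ h₂ (k2 s ((Finset.mem_insert.1 hs).resolve_left hsa))
      · intro s hs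
        by_cases hsa : s = a
        · simp only [if_pos hsa]
          rw [hsa, m3, comp_Φ]
        · simp only [if_neg hsa]
          rw [Φ_D, k3 s ((Finset.mem_insert.1 hs).resolve_left hsa), comp_Φ]
      · intro i
        rcases m4 i with ⟨i₁, rfl⟩ | ⟨m5, m6⟩
        · rcases k4 i₁ with ⟨i₀, rfl⟩ | ⟨k5, s, hs, k6⟩
          · exact Or.inl ⟨i₀, rfl⟩
          · refine Or.inr ⟨?_, s, Finset.mem_insert_of_mem hs, ?_⟩
            · rw [h₂.deg]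
              exact k5
            · simp only [if_neg (hne s hs)]
              exact Gov_Φ h₂ k6
        · refine Or.inr ⟨m5, a, Finset.mem_insert_self a J, ?_⟩
          simp only [if_true]
          exact m6
  obtain ⟨T', h, z, h1, h2, h3, h4⟩ := key Finset.univ
  refine ⟨T', h, z, fun s => h1 s (Finset.mem_univ s), fun s => h2 s (Finset.mem_univ s),
    fun s => h3 s (Finset.mem_univ s), fun i => ?_⟩
  rcases h4 i with h5 | ⟨h5, s, -, h6⟩
  · exact Or.inl h5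
  · exact Or.inr ⟨h5, s, h6⟩

end AnWL
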