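import Pool.Agent.Helper84.G2.Gr

/-!
G2/One. Statement of the one-column theorem (theorem 7a): one even coordinate `x` with `D x = q`, `q` closed, odd, linear in the odd
coordinates, with frames `∂_i - ϑ_i ∂_x`, `ϑ_i` zero or a letter `X_j`, `D ϑ_i = ∂_i q`. A closed even function `∑ x^j G_j` of the
coordinates is a closed family `D G_j = - (j + 1) q G_{j + 1}`; the conclusion: in an extension by new killed generators of degree at least `n₀`
the values `G_0` (at `x = 0`) are killed.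
-/

set_option autoImplicit false

namespace AnWL
open Anick2

/-- The one-column theorem for the parameters `P`. -/
def OneCol (P : Par) : Prop :=
  ∀ (T : TS P) (n₀ : ℕ), 2 ≤ n₀ → ∀ (dx : ℕ) (q : Lam T.dt) (ϑ : P.M → Lam T.dt),
    Even dx → 2 ≤ dx → q ∈ T.hz (dx + 1) → q ∈ SP T.dt (fun l => 1 ≤ cW l) → T.D q = 0 →
    (∀ i, ϑ i = 0 ∨ ∃ j, ϑ i = T.gX j) → (∀ i, T.D (ϑ i) = T.p i q) →
    ∀ {α : Type} (E : Finset α) (G : α → ℕ → Lam T.dt) (g : α → ℤ), (∀ a ∈ E, Even (g a)) →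
      (∀ a ∈ E, ∀ j : ℕ, G a j ∈ T.hz (g a - j * dx)) →
      (∀ a ∈ E, ∀ j, G a j ∈ SP T.dt (fun l => 1 ≤ cW l)) →
      (∀ a ∈ E, ∀ j, T.D (G a j) = -(((j + 1 : ℕ) : ℚ) • (q * G a (j + 1)))) →
      ∃ (T' : TS P) (h : T.Hom T'),
        (∀ i, i ∉ Set.range h.f → n₀ ≤ T'.deg i ∧ T'.gW i ∈ T'.nl) ∧
        ∀ a ∈ E, h.Φ (G a 0) ∈ T'.nl

end AnWL
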