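import Pool.Agent.Helper84.G2.St
import Pool.Agent.Helper98.RD.Perm
import Pool.Agent.Helper48.WL.C11

/-!
G2/Mn. The theorem for `LocallyPureMod`, from the one-column theorem `H7`.
-/

set_option autoImplicit false

namespace AnWL
open Anick2

private theorem mn_idealSpan_map {ι ι' : Type} {deg : ι → ℕ} {deg' : ι' → ℕ}
    (φ : Lam deg →ₐ[ℚ] Lam deg') {s : Set (Lam deg)} {s' : Set (Lam deg')}
    (h : ∀ v ∈ s, φ v ∈ idealSpan s') {a : Lam deg} (ha : a ∈ idealSpan s) :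
    φ a ∈ idealSpan s' := by
  unfold idealSpan at ha
  induction ha using Submodule.span_induction with
  | mem a ha =>
    obtain ⟨p, v, q, hv, rfl⟩ := ha
    rw [map_mul, map_mul]
    exact idealSpan_right (idealSpan_left (h v hv) _) _
  | zero => rw [map_zero]; exact zero_mem _
  | add a b _ _ iha ihb => rw [map_add]; exact add_mem iha ihb
  | smul r a _ iha => rw [map_smul]; exact Submodule.smul_mem _ _ iha

private theorem mn_mapL_id {ι : Type} {deg : ι → ℕ} (h : ∀ i, deg (id i) = deg i)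
    (a : Lam deg) : mapL (deg' := deg) (deg := deg) id h a = a := by
  have : mapL (deg' := deg) (deg := deg) id h = AlgHom.id ℚ (Lam deg) := by
    refine Lam.algHom_ext _ fun i => ?_
    rw [mapL_gen]
    rfl
  exact congrArg (fun g : Lam deg →ₐ[ℚ] Lam deg => g a) this

private theorem mn_mapL_comp {ι ι₁ ι₂ : Type} {deg : ι → ℕ} {deg₁ : ι₁ → ℕ} {deg₂ : ι₂ → ℕ}
    (f : ι → ι₁) (g : ι₁ → ι₂) (hf : ∀ i, deg₁ (f i) = deg i) (hg : ∀ i, deg₂ (g i) = deg₁ i)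
    (h : ∀ i, deg₂ ((g ∘ f) i) = deg i) (a : Lam deg) :
    mapL (g ∘ f) h a = mapL g hg (mapL f hf a) := by
  have : mapL (deg' := deg) (deg := deg₂) (g ∘ f) h = (mapL g hg).comp (mapL f hf) := by
    refine Lam.algHom_ext _ fun i => ?_
    rw [AlgHom.comp_apply, mapL_gen, mapL_gen, mapL_gen]
    rfl
  exact congrArg (fun k : Lam deg →ₐ[ℚ] Lam deg₂ => k a) this

private theorem mn_pureMod_map {ι ι₁ : Type} {deg : ι → ℕ} {deg₁ : ι₁ → ℕ}
    (S : MinimalSullivan deg) (S₁ : MinimalSullivan deg₁) (f₁ : ι → ι₁)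
    (hdeg₁ : ∀ i, deg₁ (f₁ i) = deg i)
    (hd₁ : ∀ a, S₁.d (mapL f₁ hdeg₁ a) = mapL f₁ hdeg₁ (S.d a)) {A O : Set ι}
    (hS : S.PureMod A O) : S₁.PureMod (f₁ '' A) (f₁ '' O) where
  sub := Set.image_mono hS.sub
  odd := by
    rintro _ ⟨o, ho, rfl⟩
    rw [hdeg₁]
    exact hS.odd o ho
  d_O := by
    rintro _ ⟨o, ho, rfl⟩
    rw [← mapL_gen hdeg₁, hd₁]
    refine SP_mapL (p := fun l => ∀ i ∈ l, i ∈ O) (q := fun l => ∀ i ∈ l, i ∈ f₁ '' O) f₁ hdeg₁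
      ?_ (hS.d_O o ho)
    intro l hl x hx
    obtain ⟨y, hy, rfl⟩ := List.mem_map.1 hx
    exact ⟨y, hl y hy, rfl⟩
  d_A := by
    rintro _ ⟨a, ha, rfl⟩
    rw [← mapL_gen hdeg₁, hd₁]
    have h1 : S.d (gen deg a) ∈ SP deg (fun l => (∀ i ∈ l, i ∈ A) ∧
        ((∃ i ∈ l, i ∈ O) ∨ (Odd (deg a) ∧ ∀ i ∈ l, Even (deg i)))) := by
      refine Submodule.span_mono ?_ (hS.d_A a ha)
      rintro _ ⟨l, h1, h2, rfl⟩
      exact ⟨l, ⟨h1, h2⟩, rfl⟩
    have h2 : mapL f₁ hdeg₁ (S.d (gen deg a)) ∈ SP deg₁ (fun l => (∀ i ∈ l, i ∈ f₁ '' A) ∧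
        ((∃ i ∈ l, i ∈ f₁ '' O) ∨ (Odd (deg₁ (f₁ a)) ∧ ∀ i ∈ l, Even (deg₁ i)))) := by
      refine SP_mapL f₁ hdeg₁ ?_ h1
      rintro l ⟨h3, h4⟩
      refine ⟨fun x hx => ?_, ?_⟩
      · obtain ⟨y, hy, rfl⟩ := List.mem_map.1 hx
        exact ⟨y, h3 y hy, rfl⟩
      · rcases h4 with ⟨i, hi, hO⟩ | ⟨h5, h6⟩
        · exact Or.inl ⟨f₁ i, List.mem_map.2 ⟨i, hi, rfl⟩, i, hO, rfl⟩
        · refine Or.inr ⟨by rw [hdeg₁]; exact h5, fun x hx => ?_⟩
          obtain ⟨y, hy, rfl⟩ := List.mem_map.1 hx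
          rw [hdeg₁]
          exact h6 y hy
    refine Submodule.span_mono ?_ h2
    rintro _ ⟨l, ⟨h3, h4⟩, rfl⟩
    exact ⟨l, h3, h4, rfl⟩

theorem stepsM (H7 : ∀ P : Par, OneCol P) {ι : Type} [Finite ι] {deg : ι → ℕ}
    (S : MinimalSullivan deg) (n₀ : ℕ) (hn₀ : 2 ≤ n₀) (hS : S.LocallyPureMod) (E : Finset ι) :
    ∃ (ι' : Type) (_ : Finite ι') (deg' : ι' → ℕ) (S' : MinimalSullivan deg') (f : ι → ι')
      (hdeg : ∀ i, deg' (f i) = deg i), Function.Injective f ∧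
      (∀ a, S'.d (mapL f hdeg a) = mapL f hdeg (S.d a)) ∧
      (∀ i, i ∉ Set.range f → n₀ ≤ deg' i ∧ Killed S' i) ∧
      ∀ t ∈ E, Even (deg t) → Killed S' (f t) := by
  classical
  induction E using Finset.induction_on with
  | empty =>
    refine ⟨ι, inferInstance, deg, S, id, fun _ => rfl, Function.injective_id, fun a => ?_,
      fun i hi => absurd ⟨i, rfl⟩ hi, fun t ht => absurd ht (Finset.notMem_empty t)⟩
    rw [mn_mapL_id, mn_mapL_id]
  | insert t E htE ih =>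
    obtain ⟨ι₁, hfin₁, deg₁, S₁, f₁, hdeg₁, hinj₁, hd₁, hnew₁, hkill₁⟩ := ih
    by_cases hte : Even (deg t)
    · obtain ⟨A, O, hA, ht⟩ := hS t hte
      obtain ⟨ι₂, hfin₂, deg₂, S₂, f₂, hdeg₂, hinj₂, hd₂, hnew₂, hkill₂⟩ :=
        stepM H7 S₁ n₀ hn₀ (f₁ '' A) (f₁ '' O) (mn_pureMod_map S S₁ f₁ hdeg₁ hd₁ hA)
      refine ⟨ι₂, hfin₂, deg₂, S₂, f₂ ∘ f₁, fun i => (hdeg₂ _).trans (hdeg₁ i),
        hinj₂.comp hinj₁, fun a => ?_, fun i hi => ?_, fun s hs hse => ?_⟩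
      · rw [mn_mapL_comp f₁ f₂ hdeg₁ hdeg₂, mn_mapL_comp f₁ f₂ hdeg₁ hdeg₂, hd₂, hd₁]
      · by_cases hr : i ∈ Set.range f₂
        · obtain ⟨j, rfl⟩ := hr
          have hj : j ∉ Set.range f₁ := by
            rintro ⟨k, rfl⟩
            exact hi ⟨k, rfl⟩
          obtain ⟨h1, h2⟩ := hnew₁ j hj
          exact ⟨by rw [hdeg₂]; exact h1, killed_map S₁ S₂ f₂ hdeg₂ hd₂ h2⟩
        · exact hnew₂ i hr
      · rw [Finset.mem_insert] at hs
        rcases hs with rfl | hs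
        · refine hkill₂ (f₁ s) (by rw [hdeg₁]; exact hse) ?_
          rcases ht with ht | ht
          · exact Or.inl ⟨s, ht, rfl⟩
          · refine Or.inr ?_
            rw [← mapL_gen hdeg₁, hd₁]
            refine mn_idealSpan_map _ ?_ ht
            rintro _ ⟨a, ha, rfl⟩
            rw [mapL_gen]
            exact mem_idealSpan_self ⟨f₁ a, ⟨a, ha, rfl⟩, rfl⟩
        · exact killed_map S₁ S₂ f₂ hdeg₂ hd₂ (hkill₁ s hs hse)
    · refine ⟨ι₁, hfin₁, deg₁, S₁, f₁, hdeg₁, hinj₁, hd₁, hnew₁, fun s hs hse => ?_⟩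
      rw [Finset.mem_insert] at hs
      rcases hs with rfl | hs
      · exact absurd hse hte
      · exact hkill₁ s hs hse

theorem main_localM (H7 : ∀ P : Par, OneCol P) {ι : Type} [Finite ι] {deg : ι → ℕ}
    (S : MinimalSullivan deg) (hS : S.LocallyPureMod) (n : ℕ) : S.GoodAt n := by
  classical
  have := Fintype.ofFinite ι
  obtain ⟨ι', hfin, deg', S', f, hdeg, hinj, hd, hnew, hkill⟩ :=
    stepsM H7 S (max n 2) (le_max_right _ _) hS Finset.univ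
  refine good_mono (le_max_left n 2) ?_
  refine good_of_inj S S' f hinj hdeg hd (max n 2) (fun i hi => (hnew i hi).1)
    (cohFin_of_killed S' fun i hi => ?_)
  by_cases hr : i ∈ Set.range f
  · obtain ⟨j, rfl⟩ := hr
    exact hkill j (Finset.mem_univ j) (by rw [← hdeg]; exact hi)
  · exact (hnew i hr).2

/-- The hypothesis of `Anick2.consecutive` (`Helper98/G2/R5.lean`), from the one-column theorem. -/
theorem main_permM (H7 : ∀ P : Par, OneCol P) (ι κ : Type) [Finite ι] [Finite κ]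
    (deg : ι → ℕ) (deg' : κ → ℕ) (S : MinimalSullivan deg) (T : MinimalSullivan deg')
    (J : Lam deg' →ₐ[ℚ] Lam deg) (hJ : EvenOnto S T J) (hT : T.LocallyPureMod) (n : ℕ) :
    S.GoodAt n :=
  perm S T hJ n (main_localM H7 T hT n)

end AnWL
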