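import Pool.Agent.Helper84.G2.Emb

/-!
G2/Add. New closed even coordinates (`addU`) and new odd coordinates (`addX`) for a total system, with the same `ΛW`.

Constructions as in `C05a.lean` (`extD`, `extend`) and `C08d.lean` (`redo`): `D = der` with the values on the letters. `exists_addX`: `Y` from the hypotheses by taking the homogeneous component `pr` of the
primitives (`D` commutes with `pr`, elements without `X` = `SP` of the words without `X`, `SP_of_pdv_zero`, preserved by `pr`).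
-/

set_option autoImplicit false

namespace AnWL
open Anick2

/-- New even coordinates. -/
def Par.addU (P : Par) (C : Type) (hC : Finite C) (dl : C → ℕ) (he : ∀ c, Even (dl c))
    (h2 : ∀ c, 2 ≤ dl c) : Par where
  U := P.U ⊕ C
  M := P.M
  finU := by have := P.finU; infer_instance
  finM := P.finM
  du := Sum.elim P.du dl
  dm := P.dm
  N := P.N
  du_even := by rintro (u | c); exacts [P.du_even u, he c]
  du_pos := by rintro (u | c); exacts [P.du_pos u, h2 c]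
  dm_odd := P.dm_odd
  N_pos := P.N_pos

/-- New odd coordinates, new exponent. -/
def Par.addX (P : Par) (M₂ : Type) (hM : Finite M₂) (dm₂ : M₂ → ℕ) (ho : ∀ i, Odd (dm₂ i)) (N' : ℕ)
    (hN : 1 ≤ N') : Par where
  U := P.U
  M := P.M ⊕ M₂
  finU := P.finU
  finM := by have := P.finM; infer_instance
  du := P.du
  dm := Sum.elim P.dm dm₂
  N := N'
  du_even := P.du_even
  du_pos := P.du_pos
  dm_odd := by rintro (j | i); exacts [P.dm_odd j, ho i]
  N_pos := hN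

variable {P : Par}

/-! ### letters -/

/-- The map of the letters. -/
private abbrev g2aL {ι : Type} {P P' : Par} (fu : P.U → P'.U) (fm : P.M → P'.M) :
    ι ⊕ (P.U ⊕ P.M) → ι ⊕ (P'.U ⊕ P'.M) := Sum.map _root_.id (Sum.map fu fm)

private theorem g2a_cW {ι κ κ' : Type} (f : κ → κ') (l : List (ι ⊕ κ)) :
    cW (l.map (Sum.map (_root_.id : ι → ι) f)) = cW l := by
  induction l with
  | nil => rfl
  | cons x l ih =>
    rw [List.map_cons]
    rcases x with i | t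
    · change cW (l.map (Sum.map (_root_.id : ι → ι) f)) + 1 = cW l + 1
      rw [ih]
    · exact ih

private theorem g2a_not {ι : Type} {P P' : Par} (fu : P.U → P'.U) (fm : P.M → P'.M)
    {l : List (ι ⊕ (P.U ⊕ P.M))} (h : ∀ j : P.M, Sum.inr (Sum.inr j) ∉ l) (j : P'.M) :
    Sum.inr (Sum.inr j) ∉ l.map (g2aL fu fm) := by
  intro hc
  obtain ⟨x, hx, hy⟩ := List.mem_map.1 hc
  rcases x with i | u | j'
  · exact Sum.inl_ne_inr hy
  · exact Sum.inl_ne_inr (Sum.inr_injective hy)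
  · exact h j' hx

private theorem g2a_mapSP {ι κ : Type} {δ : ι → ℕ} {δ' : κ → ℕ} {f : ι → κ}
    (hf : ∀ i, δ' (f i) = δ i) {p : List ι → Prop} {q : List κ → Prop}
    (h : ∀ l, p l → q (l.map f)) {a : Lam δ} (ha : a ∈ SP δ p) : mapL f hf a ∈ SP δ' q := by
  unfold SP at ha
  induction ha using Submodule.span_induction with
  | mem x hx =>
    obtain ⟨l, hl, rfl⟩ := hx
    exact Submodule.subset_span ⟨_, h l hl, mapL_mon _ _⟩
  | zero => rw [map_zero]; exact zero_mem _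
  | add x z _ _ hx hz => rw [map_add]; exact add_mem hx hz
  | smul r x _ hx => rw [map_smul]; exact Submodule.smul_mem _ _ hx

private theorem g2a_iL {ι κ κ' : Type} {δ : ι → ℕ} {δ₁ : κ → ℕ} {δ₂ : κ' → ℕ} {f : κ → κ'}
    (hf : ∀ x, Sum.elim δ δ₂ (Sum.map (_root_.id : ι → ι) f x) = Sum.elim δ δ₁ x) (a : Lam δ) :
    mapL (deg := Sum.elim δ δ₂) (deg' := Sum.elim δ δ₁) (Sum.map (_root_.id : ι → ι) f) hf
      (iL δ δ₁ a) = iL δ δ₂ a := by
  have h : (mapL (deg := Sum.elim δ δ₂) (deg' := Sum.elim δ δ₁)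
      (Sum.map (_root_.id : ι → ι) f) hf).comp (iL δ δ₁) = iL δ δ₂ := by
    refine Lam.algHom_ext _ fun i => ?_
    have h1 : iL δ δ₁ (gen δ i) = gen (Sum.elim δ δ₁) (Sum.inl i) := mapL_gen _ _
    have h2 : iL δ δ₂ (gen δ i) = gen (Sum.elim δ δ₂) (Sum.inl i) := mapL_gen _ _
    rw [AlgHom.comp_apply, h1, h2]
    exact mapL_gen _ _
  exact DFunLike.congr_fun h a

section Ext
variable {P P' : Par} (T : TS P) (fu : P.U → P'.U) (fm : P.M → P'.M)
  (hu : ∀ u, P'.du (fu u) = P.du u) (hm : ∀ j, P'.dm (fm j) = P.dm j)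

include hu hm in
private theorem g2a_hf (x : T.ι ⊕ (P.U ⊕ P.M)) :
    Sum.elim T.deg P'.dq (g2aL fu fm x) = T.dt x := by
  rcases x with i | u | j
  exacts [rfl, hu u, hm j]

/-- The map of the total algebras. -/
private noncomputable def g2aM : Lam T.dt →ₐ[ℚ] Lam (Sum.elim T.deg P'.dq) :=
  mapL (g2aL fu fm) (g2a_hf T fu fm hu hm)

variable (v : T.ι ⊕ (P'.U ⊕ P'.M) → Lam T.dt)
  (hvh : ∀ x, v x ∈ hom T.dt (Sum.elim T.deg P'.dq x + 1))

private theorem g2aM_gen (x : T.ι ⊕ (P.U ⊕ P.M)) :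
    g2aM T fu fm hu hm (gen T.dt x) = gen (Sum.elim T.deg P'.dq) (g2aL fu fm x) :=
  mapL_gen _ _

private theorem g2aM_sgn (a : Lam T.dt) :
    sgn _ (g2aM T fu fm hu hm a) = g2aM T fu fm hu hm (sgn T.dt a) := (mapL_sgn _ _).symm

private theorem g2aM_hom {n : ℕ} {a : Lam T.dt} (ha : a ∈ hom T.dt n) :
    g2aM T fu fm hu hm a ∈ hom (Sum.elim T.deg P'.dq) n := mapL_hom _ ha

include hvh in
private theorem g2aV_mem (x : T.ι ⊕ (P'.U ⊕ P'.M)) :
    g2aM T fu fm hu hm (v x) ∈ hom (Sum.elim T.deg P'.dq) (Sum.elim T.deg P'.dq x + 1) :=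
  g2aM_hom T fu fm hu hm (hvh x)

/-- The new differential. -/
private noncomputable def g2aD :
    Lam (Sum.elim T.deg P'.dq) →ₗ[ℚ] Lam (Sum.elim T.deg P'.dq) :=
  der (Sum.elim T.deg P'.dq) (fun x => g2aM T fu fm hu hm (v x)) (g2aV_mem T fu fm hu hm v hvh)

private theorem g2aD_gen (x : T.ι ⊕ (P'.U ⊕ P'.M)) :
    g2aD T fu fm hu hm v hvh (gen _ x) = g2aM T fu fm hu hm (v x) := der_gen _ _ _ x

private theorem g2aD_mul (a b : Lam (Sum.elim T.deg P'.dq)) :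
    g2aD T fu fm hu hm v hvh (a * b) =
      g2aD T fu fm hu hm v hvh a * b + sgn _ a * g2aD T fu fm hu hm v hvh b :=
  der_mul _ _ _ a b

private theorem g2aD_M (hv : ∀ x, v (g2aL fu fm x) = T.D (gen T.dt x)) (a : Lam T.dt) :
    g2aD T fu fm hu hm v hvh (g2aM T fu fm hu hm a) = g2aM T fu fm hu hm (T.D a) := by
  let F : Lam T.dt →ₗ[ℚ] Lam (Sum.elim T.deg P'.dq) :=
    { toFun := fun x => g2aD T fu fm hu hm v hvh (g2aM T fu fm hu hm x) -
        g2aM T fu fm hu hm (T.D x)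
      map_add' := fun a b => by
        rw [map_add, map_add, map_add, map_add]
        abel
      map_smul' := fun r a => by
        rw [map_smul, map_smul, map_smul, map_smul, RingHom.id_apply, smul_sub] }
  have hF : ∀ x, F x = g2aD T fu fm hu hm v hvh (g2aM T fu fm hu hm x) -
      g2aM T fu fm hu hm (T.D x) := fun _ => rfl
  have h0 : F a = 0 := by
    refine lam_zero (g2aM T fu fm hu hm) ((g2aM T fu fm hu hm).comp (sgn _)) F ?_ ?_ a
    · intro a b
      rw [hF, hF, hF, AlgHom.comp_apply, map_mul, g2aD_mul, T.leib, map_add,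
        map_mul, map_mul, g2aM_sgn]
      noncomm_ring
    · intro x
      rw [hF, g2aM_gen, g2aD_gen, hv]
      exact sub_self _
  rw [hF] at h0
  exact sub_eq_zero.1 h0

/-- The new total system. -/
private noncomputable def g2aT (hv : ∀ x, v (g2aL fu fm x) = T.D (gen T.dt x))
    (hv0 : ∀ x, T.D (v x) = 0)
    (hvI : ∀ t, v (Sum.inr t) ∈
      SP T.dt (fun l => 1 ≤ cW l ∧ ∀ j' : P.M, Sum.inr (Sum.inr j') ∉ l))
    (Y : P'.M → Lam T.dt) (hY : ∀ j, Y j ∈ hom T.dt (P'.N * (P'.dm j + 1) - 1))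
    (hYf : ∀ j, Y j ∈ SP T.dt (fun l => ∀ j' : P.M, Sum.inr (Sum.inr j') ∉ l))
    (hDY : ∀ j, T.D (Y j) = v (Sum.inr (Sum.inr j)) ^ P'.N) : TS P' where
  ι := T.ι
  fin := T.fin
  deg := T.deg
  S := T.S
  D := g2aD T fu fm hu hm v hvh
  diff := by
    refine ⟨fun n a ha => der_mem _ _ _ ha, fun n a ha b => der_leibniz _ _ _ ha b, fun a => ?_⟩
    refine der_sq _ _ _ (fun x => ?_) a
    change g2aD T fu fm hu hm v hvh (g2aM T fu fm hu hm (v x)) = 0
    rw [g2aD_M T fu fm hu hm v hvh hv, hv0, map_zero]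
  ext := by
    intro a
    have h1 : ∀ b, iL T.deg P'.dq b = g2aM T fu fm hu hm (iL T.deg P.dq b) :=
      fun b => (g2a_iL _ b).symm
    rw [h1, h1, g2aD_M T fu fm hu hm v hvh hv, T.ext]
  Dt := by
    intro t
    rw [g2aD_gen]
    refine g2a_mapSP _ (fun l hl => ⟨?_, fun j => ?_⟩) (hvI t)
    · rw [g2a_cW]
      exact hl.1
    · exact g2a_not fu fm hl.2 j
  Y := fun j => g2aM T fu fm hu hm (Y j)
  Y_hom := fun j => g2aM_hom T fu fm hu hm (hY j)
  Y_free := fun j => g2a_mapSP _ (fun l hl j' => g2a_not fu fm hl j') (hYf j)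
  D_Y := by
    intro j
    rw [g2aD_M T fu fm hu hm v hvh hv, hDY, map_pow, g2aD_gen]

/-- The embedding. -/
private noncomputable def g2aE (hfm : Function.Injective fm)
    (hv : ∀ x, v (g2aL fu fm x) = T.D (gen T.dt x))
    (hv0 : ∀ x, T.D (v x) = 0)
    (hvI : ∀ t, v (Sum.inr t) ∈
      SP T.dt (fun l => 1 ≤ cW l ∧ ∀ j' : P.M, Sum.inr (Sum.inr j') ∉ l))
    (Y : P'.M → Lam T.dt) (hY : ∀ j, Y j ∈ hom T.dt (P'.N * (P'.dm j + 1) - 1))
    (hYf : ∀ j, Y j ∈ SP T.dt (fun l => ∀ j' : P.M, Sum.inr (Sum.inr j') ∉ l))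
    (hDY : ∀ j, T.D (Y j) = v (Sum.inr (Sum.inr j)) ^ P'.N) :
    Emb T (g2aT T fu fm hu hm v hvh hv hv0 hvI Y hY hYf hDY) where
  f := _root_.id
  fu := fu
  fm := fm
  inj := Function.injective_id
  injm := hfm
  deg := fun _ => rfl
  du := hu
  dm := hm
  D := fun a => g2aD_M T fu fm hu hm v hvh hv a

end Ext

private theorem g2a_Dgen (T : TS P) (x : T.ι ⊕ (P.U ⊕ P.M)) :
    T.D (gen T.dt x) ∈ hom T.dt (T.dt x + 1) := T.diff.map_hom _ _ (gen_mem_hom T.dt x)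

theorem exists_addU (T : TS P) (C : Type) (hC : Finite C) (dl : C → ℕ) (he : ∀ c, Even (dl c))
    (h2 : ∀ c, 2 ≤ dl c) :
    ∃ (T' : TS (P.addU C hC dl he h2)) (e : Emb T T'), e.fu = Sum.inl ∧ e.fm = id ∧
      Function.Bijective e.f ∧ ∀ c, T'.D (T'.gU (Sum.inr c)) = 0 := by
  obtain ⟨v, hv1, hv2⟩ : ∃ v : T.ι ⊕ ((P.U ⊕ C) ⊕ P.M) → Lam T.dt,
      (∀ x : T.ι ⊕ (P.U ⊕ P.M),
        v (Sum.map _root_.id (Sum.map Sum.inl _root_.id) x) = T.D (gen T.dt x)) ∧
      ∀ c, v (Sum.inr (Sum.inl (Sum.inr c))) = 0 :=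
    ⟨Sum.elim (fun i => T.D (T.gW i)) (Sum.elim (Sum.elim (fun u => T.D (T.gU u)) (fun _ => 0))
      (fun j => T.D (T.gX j))), by rintro (i | u | j) <;> rfl, fun _ => rfl⟩
  have hcase : ∀ (q : T.ι ⊕ ((P.U ⊕ C) ⊕ P.M) → Prop),
      (∀ x : T.ι ⊕ (P.U ⊕ P.M), q (Sum.map _root_.id (Sum.map Sum.inl _root_.id) x)) →
      (∀ c, q (Sum.inr (Sum.inl (Sum.inr c)))) → ∀ x, q x := by
    intro q h1 h2'
    rintro (i | (u | c) | j)
    · exact h1 (Sum.inl i)
    · exact h1 (Sum.inr (Sum.inl u))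
    · exact h2' c
    · exact h1 (Sum.inr (Sum.inr j))
  have hvh : ∀ x : T.ι ⊕ ((P.addU C hC dl he h2).U ⊕ (P.addU C hC dl he h2).M),
      v x ∈ hom T.dt (Sum.elim T.deg (P.addU C hC dl he h2).dq x + 1) := by
    refine hcase _ (fun x => ?_) (fun c => ?_)
    · rw [hv1]
      have h3 := g2a_Dgen T x
      rcases x with i | u | j
      exacts [h3, h3, h3]
    · rw [hv2]
      exact zero_mem _
  have hv0 : ∀ x, T.D (v x) = 0 := by
    refine hcase _ (fun x => ?_) (fun c => ?_)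
    · rw [hv1]
      exact T.diff.d_d _
    · rw [hv2, map_zero]
  have hvI : ∀ t, v (Sum.inr t) ∈
      SP T.dt (fun l => 1 ≤ cW l ∧ ∀ j' : P.M, Sum.inr (Sum.inr j') ∉ l) := by
    rintro ((u | c) | j)
    · have h3 := hv1 (Sum.inr (Sum.inl u))
      have h4 := T.Dt (Sum.inl u)
      rw [← h3] at h4
      exact h4
    · rw [hv2]
      exact zero_mem _
    · have h3 := hv1 (Sum.inr (Sum.inr j))
      have h4 := T.Dt (Sum.inr j)
      rw [← h3] at h4
      exact h4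
  have hDY : ∀ j, T.D (T.Y j) = v (Sum.inr (Sum.inr j)) ^ P.N := by
    intro j
    have h3 := hv1 (Sum.inr (Sum.inr j))
    exact (T.D_Y j).trans (congrArg (fun x => x ^ P.N) h3.symm)
  refine ⟨g2aT (P' := P.addU C hC dl he h2) T Sum.inl _root_.id (fun _ => rfl) (fun _ => rfl) v
    hvh hv1 hv0 hvI T.Y T.Y_hom T.Y_free hDY,
    g2aE (P' := P.addU C hC dl he h2) T Sum.inl _root_.id (fun _ => rfl) (fun _ => rfl) v
    hvh Function.injective_id hv1 hv0 hvI T.Y T.Y_hom T.Y_free hDY, rfl, rfl,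
    Function.bijective_id, fun c => ?_⟩
  refine (g2aD_gen (P' := P.addU C hC dl he h2) T Sum.inl _root_.id (fun _ => rfl)
    (fun _ => rfl) v hvh (Sum.inr (Sum.inl (Sum.inr c)))).trans ?_
  exact (congrArg (g2aM (P' := P.addU C hC dl he h2) T Sum.inl _root_.id (fun _ => rfl)
    (fun _ => rfl)) (hv2 c)).trans (map_zero _)

/-- `a` is the boundary of an element without letters `X`. -/
def TS.bd0 (T : TS P) (a : Lam T.dt) : Prop := ∃ y, T.D y = a ∧ ∀ j, T.p j y = 0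

private theorem g2a_pr {ι : Type} {δ : ι → ℕ} {p : List ι → Prop} {a : Lam δ} (ha : a ∈ SP δ p)
    (n : ℕ) : pr δ n a ∈ SP δ p := by
  unfold SP at ha
  induction ha using Submodule.span_induction with
  | mem x hx =>
    obtain ⟨l, hl, rfl⟩ := hx
    rw [pr_hom δ (mon_mem_hom δ l)]
    split
    · exact Submodule.subset_span ⟨l, hl, rfl⟩
    · exact zero_mem _
  | zero => rw [map_zero]; exact zero_mem _
  | add x y _ _ hx hy => rw [map_add]; exact add_mem hx hy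
  | smul r x _ hx => rw [map_smul]; exact Submodule.smul_mem _ _ hx

private theorem g2a_free (T : TS P) {p : List (T.ι ⊕ (P.U ⊕ P.M)) → Prop} {a : Lam T.dt}
    (ha : a ∈ SP T.dt p) (h : ∀ j, T.p j a = 0) :
    a ∈ SP T.dt (fun l => p l ∧ ∀ j : P.M, Sum.inr (Sum.inr j) ∉ l) := by
  classical
  have := P.finM
  have := Fintype.ofFinite P.M
  have key : ∀ s : Finset P.M,
      a ∈ SP T.dt (fun l => p l ∧ ∀ j ∈ s, Sum.inr (Sum.inr j) ∉ l) := by
    intro s
    induction s using Finset.induction_on with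
    | empty =>
      refine Submodule.span_mono ?_ ha
      rintro x ⟨l, hl, rfl⟩
      exact ⟨l, ⟨hl, fun j hj => absurd hj (Finset.notMem_empty j)⟩, rfl⟩
    | insert j s hj ih =>
      have h2 := SP_of_pdv_zero (T.odd j) ih (h j)
      refine Submodule.span_mono ?_ h2
      rintro x ⟨l, ⟨⟨hl, hl'⟩, hl''⟩, rfl⟩
      refine ⟨l, ⟨hl, fun j' hj' => ?_⟩, rfl⟩
      rcases Finset.mem_insert.1 hj' with h3 | h3
      · rw [h3]
        exact hl''
      · exact hl' j' h3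
  refine Submodule.span_mono ?_ (key Finset.univ)
  rintro x ⟨l, ⟨hl, hl'⟩, rfl⟩
  exact ⟨l, ⟨hl, fun j => hl' j (Finset.mem_univ j)⟩, rfl⟩

private theorem g2a_D_pr (T : TS P) (n : ℕ) (a : Lam T.dt) :
    T.D (pr T.dt n a) = pr T.dt (n + 1) (T.D a) := by
  induction a using Lam.induction with
  | hm l =>
    rw [pr_hom T.dt (mon_mem_hom T.dt l), pr_hom T.dt (T.diff.map_hom _ _ (mon_mem_hom T.dt l))]
    by_cases h : degSum T.dt l = n
    · rw [if_pos h, if_pos (by rw [h])]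
    · rw [if_neg h, if_neg (fun h' => h (Nat.succ_injective h')), map_zero]
  | h0 => rw [map_zero, map_zero, map_zero]
  | hadd a b ha hb => rw [map_add, map_add, ha, hb, map_add, map_add]
  | hsmul r a ha => rw [map_smul, map_smul, ha, map_smul, map_smul]

private theorem g2a_pow {ι : Type} {δ : ι → ℕ} {n : ℕ} {a : Lam δ} (ha : a ∈ hom δ n) (k : ℕ) :
    a ^ k ∈ hom δ (k * n) := by
  induction k with
  | zero =>
    rw [pow_zero, Nat.zero_mul]
    have h := mon_mem_hom δ []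
    rw [mon_nil] at h
    exact h
  | succ k ih =>
    rw [pow_succ, Nat.succ_mul]
    exact mul_mem_hom δ ih ha

private theorem g2a_true {ι : Type} (δ : ι → ℕ) (a : Lam δ) : a ∈ SP δ (fun _ => True) := by
  induction a using Lam.induction with
  | hm l => exact Submodule.subset_span ⟨l, trivial, rfl⟩
  | h0 => exact zero_mem _
  | hadd a b ha hb => exact add_mem ha hb
  | hsmul r a ha => exact Submodule.smul_mem _ _ ha

private theorem g2a_bd (T : TS P) {a : Lam T.dt} {m N' : ℕ} (hN : 1 ≤ N')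
    (ha : a ∈ hom T.dt (m + 1)) (h : T.bd0 (a ^ N')) :
    ∃ y ∈ hom T.dt (N' * (m + 1) - 1),
      y ∈ SP T.dt (fun l => ∀ j' : P.M, Sum.inr (Sum.inr j') ∉ l) ∧ T.D y = a ^ N' := by
  obtain ⟨y, hy, hy0⟩ := h
  refine ⟨pr T.dt (N' * (m + 1) - 1) y, pr_mem T.dt _ y, g2a_pr ?_ _, ?_⟩
  · have h1 : y ∈ SP T.dt (fun _ => True) := g2a_true _ _
    refine Submodule.span_mono ?_ (g2a_free T h1 hy0)
    rintro x ⟨l, ⟨-, hl⟩, rfl⟩
    exact ⟨l, hl, rfl⟩
  · have h1 : N' * (m + 1) - 1 + 1 = N' * (m + 1) := by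
      have : 1 ≤ N' * (m + 1) := Nat.mul_pos hN (Nat.succ_pos m)
      omega
    rw [g2a_D_pr, hy, h1, pr_hom T.dt (g2a_pow ha N'), if_pos rfl]

theorem exists_addX (T : TS P) (M₂ : Type) (hM : Finite M₂) (dm₂ : M₂ → ℕ)
    (ho : ∀ i, Odd (dm₂ i)) (at' : M₂ → Lam T.dt) (ha : ∀ i, at' i ∈ hom T.dt (dm₂ i + 1))
    (hI : ∀ i, at' i ∈ SP T.dt (fun l => 1 ≤ cW l)) (hD : ∀ i, T.D (at' i) = 0)
    (hp : ∀ i j, T.p j (at' i) = 0) (N' : ℕ) (hN : 1 ≤ N')
    (h1 : ∀ j, T.bd0 (T.D (T.gX j) ^ N')) (h2 : ∀ i, T.bd0 (at' i ^ N')) :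
    ∃ (T' : TS (P.addX M₂ hM dm₂ ho N' hN)) (e : Emb T T'), e.fu = id ∧ e.fm = Sum.inl ∧
      Function.Bijective e.f ∧ ∀ i, T'.D (T'.gX (Sum.inr i)) = e.Φ (at' i) := by
  obtain ⟨v, hv1, hv2⟩ : ∃ v : T.ι ⊕ (P.U ⊕ (P.M ⊕ M₂)) → Lam T.dt,
      (∀ x : T.ι ⊕ (P.U ⊕ P.M),
        v (Sum.map _root_.id (Sum.map _root_.id Sum.inl) x) = T.D (gen T.dt x)) ∧
      ∀ i, v (Sum.inr (Sum.inr (Sum.inr i))) = at' i :=
    ⟨Sum.elim (fun i => T.D (T.gW i)) (Sum.elim (fun u => T.D (T.gU u))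
      (Sum.elim (fun j => T.D (T.gX j)) at')), by rintro (i | u | j) <;> rfl, fun _ => rfl⟩
  have hcase : ∀ (q : T.ι ⊕ (P.U ⊕ (P.M ⊕ M₂)) → Prop),
      (∀ x : T.ι ⊕ (P.U ⊕ P.M), q (Sum.map _root_.id (Sum.map _root_.id Sum.inl) x)) →
      (∀ i, q (Sum.inr (Sum.inr (Sum.inr i)))) → ∀ x, q x := by
    intro q h1' h2'
    rintro (i | u | (j | i))
    · exact h1' (Sum.inl i)
    · exact h1' (Sum.inr (Sum.inl u))
    · exact h1' (Sum.inr (Sum.inr j))
    · exact h2' i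
  have hvh : ∀ x : T.ι ⊕ ((P.addX M₂ hM dm₂ ho N' hN).U ⊕ (P.addX M₂ hM dm₂ ho N' hN).M),
      v x ∈ hom T.dt (Sum.elim T.deg (P.addX M₂ hM dm₂ ho N' hN).dq x + 1) := by
    refine hcase _ (fun x => ?_) (fun i => ?_)
    · rw [hv1]
      have h3 := g2a_Dgen T x
      rcases x with i | u | j
      exacts [h3, h3, h3]
    · rw [hv2]
      exact ha i
  have hv0 : ∀ x, T.D (v x) = 0 := by
    refine hcase _ (fun x => ?_) (fun i => ?_)
    · rw [hv1]
      exact T.diff.d_d _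
    · rw [hv2, hD]
  have hvI : ∀ t, v (Sum.inr t) ∈
      SP T.dt (fun l => 1 ≤ cW l ∧ ∀ j' : P.M, Sum.inr (Sum.inr j') ∉ l) := by
    rintro (u | (j | i))
    · have h3 := hv1 (Sum.inr (Sum.inl u))
      have h4 := T.Dt (Sum.inl u)
      rw [← h3] at h4
      exact h4
    · have h3 := hv1 (Sum.inr (Sum.inr j))
      have h4 := T.Dt (Sum.inr j)
      rw [← h3] at h4
      exact h4
    · rw [hv2]
      exact g2a_free T (hI i) (hp i)
  have hYs : ∀ j : P.M ⊕ M₂, ∃ y ∈ hom T.dt (N' * (Sum.elim P.dm dm₂ j + 1) - 1),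
      y ∈ SP T.dt (fun l => ∀ j' : P.M, Sum.inr (Sum.inr j') ∉ l) ∧
      T.D y = v (Sum.inr (Sum.inr j)) ^ N' := by
    rintro (j | i)
    · have h3 : v (Sum.inr (Sum.inr (Sum.inl j))) = T.D (T.gX j) := hv1 (Sum.inr (Sum.inr j))
      rw [h3]
      exact g2a_bd T hN (g2a_Dgen T (Sum.inr (Sum.inr j))) (h1 j)
    · rw [hv2]
      exact g2a_bd T hN (ha i) (h2 i)
  choose Y hY hYf hDY using hYs
  refine ⟨g2aT (P' := P.addX M₂ hM dm₂ ho N' hN) T _root_.id Sum.inl (fun _ => rfl)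
    (fun _ => rfl) v hvh hv1 hv0 hvI Y hY hYf hDY,
    g2aE (P' := P.addX M₂ hM dm₂ ho N' hN) T _root_.id Sum.inl (fun _ => rfl)
    (fun _ => rfl) v hvh Sum.inl_injective hv1 hv0 hvI Y hY hYf hDY, rfl, rfl,
    Function.bijective_id, fun i => ?_⟩
  refine (g2aD_gen (P' := P.addX M₂ hM dm₂ ho N' hN) T _root_.id Sum.inl (fun _ => rfl)
    (fun _ => rfl) v hvh (Sum.inr (Sum.inr (Sum.inr i)))).trans ?_
  exact congrArg (g2aM (P' := P.addX M₂ hM dm₂ ho N' hN) T _root_.id Sum.inl (fun _ => rfl)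
    (fun _ => rfl)) (hv2 i)

end AnWL
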