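import Pool.Agent.Helper84.G2.Cl

/-!
G2/Ba. The base total system for `PureMod A O`. As `exists_base` in `C08e.lean`, with `exists_closedM` (`Cl.lean`) instead of `exists_closed`.

`exists_T1 S (AO deg A O) N hN` (hypothesis `hb` from `S.d_O`: an odd element of `AO deg A O` is in `O`; `SP_adjoin`), whose last condition gives `hU` of
`exists_closedM` (an odd letter of `AO deg A O` is a letter of `O`).
-/

set_option autoImplicit false

namespace AnWL
open Anick2

private theorem ba_cW_map {ι ι' κ : Type} (f : ι → ι') (l : List (ι ⊕ κ)) :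
    cW (l.map (Sum.map f (id : κ → κ))) = cW l := by
  unfold cW
  induction l with
  | nil => rfl
  | cons x l ih =>
    rcases x with x | x
    · simpa using ih
    · simpa using ih

private theorem ba_not_inr {ι ι' κ : Type} (f : ι → ι') {l : List (ι ⊕ κ)} {t : κ}
    (h : Sum.inr t ∉ l) : Sum.inr t ∉ l.map (Sum.map f (id : κ → κ)) := by
  intro hc
  obtain ⟨x, hx, hx'⟩ := List.mem_map.1 hc
  rcases x with i | s
  · exact absurd hx' (by simp)
  · have : s = t := by simpa using hx'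
    rw [this] at hx
    exact h hx

theorem exists_baseM {ι : Type} [Finite ι] {deg : ι → ℕ} (S : MinimalSullivan deg)
    (A O : Set ι) (hS : S.PureMod A O) (n₀ : ℕ) (hn₀ : 2 ≤ n₀) (N : ℕ) (hN : 1 ≤ N)
    (hN' : n₀ + 2 ≤ N) :
    ∃ (T : TS (PA S (AO deg A O) N hN)) (f : ι → T.ι), IsBaseM S A O n₀ N hN T f := by
  have hb : ∀ a ∈ AO deg A O, Odd (deg a) →
      S.d (gen deg a) ∈ Algebra.adjoin ℚ (gen deg '' {x | x ∈ AO deg A O ∧ Odd (deg x)}) := by
    intro a ha hodd
    have hO : a ∈ O := by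
      rcases ha with h | h
      · exact h
      · exact absurd h.2 (Nat.not_even_iff_odd.2 hodd)
    refine SP_adjoin.2 (SP_imp ?_ (dO_SP hS hO))
    rintro l ⟨h1, -⟩ x hx
    exact ⟨Or.inl (h1 x hx), hS.odd x (h1 x hx)⟩
  obtain ⟨D, hD, hext, hX, hU₀⟩ := exists_T1 S (AO deg A O) N hN hb
  have hU : ∀ u : (PA S (AO deg A O) N hN).U,
        D (gen (Sum.elim deg (PA S (AO deg A O) N hN).dq) (Sum.inr (Sum.inl u))) -
          gen (Sum.elim deg (PA S (AO deg A O) N hN).dq) (Sum.inl u.1) ∈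
        SP (Sum.elim deg (PA S (AO deg A O) N hN).dq) (fun l => 1 ≤ cW l ∧ 2 ≤ l.length ∧
          ∀ x ∈ l, (∃ o ∈ O, x = Sum.inl o) ∨ ∃ v, x = Sum.inr (Sum.inl v)) := by
    intro u
    refine SP_imp ?_ (hU₀ u)
    rintro l ⟨h1, h2, h3⟩
    refine ⟨h1, h2, fun x hx => ?_⟩
    rcases h3 x hx with ⟨a, ha, hodd, h⟩ | h
    · refine Or.inl ⟨a, ?_, h⟩
      rcases ha with h' | h'
      · exact h'
      · exact absurd h'.2 (Nat.not_even_iff_odd.2 hodd)
    · exact Or.inr h
  -- the total system T₁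
  let T₁ : TS (PA S (AO deg A O) N hN) :=
    { ι := ι
      fin := inferInstance
      deg := deg
      S := S
      D := D
      diff := hD
      ext := hext
      Dt := by
        rintro (u | j)
        · have h1 := hU u
          have h2 : D (gen (Sum.elim deg (PA S (AO deg A O) N hN).dq) (Sum.inr (Sum.inl u))) =
              (D (gen (Sum.elim deg (PA S (AO deg A O) N hN).dq) (Sum.inr (Sum.inl u))) -
                gen (Sum.elim deg (PA S (AO deg A O) N hN).dq) (Sum.inl u.1)) +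
              gen (Sum.elim deg (PA S (AO deg A O) N hN).dq) (Sum.inl u.1) :=
            (sub_add_cancel _ _).symm
          rw [h2]
          refine add_mem (SP_imp ?_ h1) (SP_gen ?_)
          · rintro l ⟨h3, -, h4⟩
            refine ⟨h3, fun j hj => ?_⟩
            rcases h4 _ hj with ⟨a, -, h5⟩ | ⟨v, h5⟩
            · exact absurd h5 (by simp)
            · exact absurd h5 (by simp)
          · refine ⟨le_of_eq rfl, fun j hj => ?_⟩
            rw [List.mem_singleton] at hj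
            exact absurd hj (by simp)
        · rw [hX j]
          exact zero_mem _
      Y := fun _ => 0
      Y_hom := fun _ => zero_mem _
      Y_free := fun _ => zero_mem _
      D_Y := fun j => by
        rw [hX j, map_zero, zero_pow]
        exact Nat.one_le_iff_ne_zero.1 hN }
  choose at' hat0 hath hatS using fun j => exists_closedM S A O hS N hN D hD hext hU j
  have hat2 : ∀ j, at' j ∈ SP T₁.dt (fun l => 1 ≤ cW l ∧ ∀ j' : (PA S (AO deg A O) N hN).M,
      Sum.inr (Sum.inr j') ∉ l) := by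
    intro j
    have h2 : at' j = (at' j - gen (Sum.elim deg (PA S (AO deg A O) N hN).dq) (Sum.inl j.1)) +
        gen (Sum.elim deg (PA S (AO deg A O) N hN).dq) (Sum.inl j.1) := (sub_add_cancel _ _).symm
    rw [h2]
    refine add_mem (SP_imp ?_ (hatS j)) (SP_gen ?_)
    · rintro l ⟨h3, -, h4, -⟩
      refine ⟨h3, fun j' hj' => ?_⟩
      rcases h4 _ hj' with ⟨a, -, h5⟩ | ⟨v, h5⟩
      · exact absurd h5 (by simp)
      · exact absurd h5 (by simp)
    · refine ⟨le_of_eq rfl, fun j' hj' => ?_⟩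
      rw [List.mem_singleton] at hj'
      exact absurd hj' (by simp)
  have hdm : ∀ j : (PA S (AO deg A O) N hN).M, (PA S (AO deg A O) N hN).dm j + 1 = deg j.1 := by
    intro j
    show deg j.1 - 1 + 1 = deg j.1
    have := S.two_le j.1
    omega
  obtain ⟨T', h, Y, hnew, hYh, hYf, hDY⟩ := exists_Y T₁ n₀ hn₀ hN' at' (fun j => deg j.1)
    (fun j => j.2.2) hath (fun j => SP_imp (fun l hl => hl.1) (hat2 j)) hat0
    (fun j => SP_imp (fun l hl => hl.2) (hat2 j))
  -- `h.Φ` on `SP`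
  have hΦ : ∀ {p : List (ι ⊕ ((PA S (AO deg A O) N hN).U ⊕ (PA S (AO deg A O) N hN).M)) → Prop}
      {r : List (T'.ι ⊕ ((PA S (AO deg A O) N hN).U ⊕ (PA S (AO deg A O) N hN).M)) → Prop},
      (∀ l, p l → r (l.map (Sum.map h.f id))) → ∀ {a : Lam T₁.dt}, a ∈ SP T₁.dt p →
        h.Φ a ∈ SP T'.dt r := by
    intro p r hpr a ha
    exact SP_mapL (Sum.map h.f id) (by rintro (i | t); exacts [h.deg i, rfl]) hpr ha
  have r1 : ∀ j, h.Φ (at' j) ∈ hom T'.dt ((PA S (AO deg A O) N hN).dm j + 1) := by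
    intro j
    rw [hdm j]
    exact Φ_hom h (hath j)
  have r2 : ∀ j, T'.D (h.Φ (at' j)) = 0 := by
    intro j
    rw [Φ_D h]
    have h3 : T₁.D (at' j) = 0 := hat0 j
    rw [h3, map_zero]
  have r3 : ∀ j, h.Φ (at' j) ∈ SP T'.dt (fun l => 1 ≤ cW l ∧
      ∀ j' : (PA S (AO deg A O) N hN).M, Sum.inr (Sum.inr j') ∉ l) := by
    intro j
    refine hΦ ?_ (hat2 j)
    rintro l ⟨h3, h4⟩
    exact ⟨h3.trans_eq (ba_cW_map h.f l).symm, fun j' => ba_not_inr h.f (h4 j')⟩
  have r4 : ∀ j, Y j ∈ hom T'.dt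
      ((PA S (AO deg A O) N hN).N * ((PA S (AO deg A O) N hN).dm j + 1) - 1) := by
    intro j
    rw [hdm j]
    exact hYh j
  have iLinj : ∀ {x y : Lam T'.deg}, iL T'.deg (PA S (AO deg A O) N hN).dq x =
      iL T'.deg (PA S (AO deg A O) N hN).dq y → x = y := by
    intro x y hxy
    exact mapL_injective _ Sum.inl_injective hxy
  have hsq : ∀ a : Lam deg, h.Φ (iL deg (PA S (AO deg A O) N hN).dq a) =
      iL T'.deg (PA S (AO deg A O) N hN).dq (mapL h.f h.deg a) := by
    intro a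
    have e : (h.Φ.comp (iL deg (PA S (AO deg A O) N hN).dq) : Lam deg →ₐ[ℚ] Lam T'.dt) =
        (iL T'.deg (PA S (AO deg A O) N hN).dq).comp (mapL h.f h.deg) := by
      refine Lam.algHom_ext _ fun i => ?_
      rw [AlgHom.comp_apply, AlgHom.comp_apply]
      have e1 : iL deg (PA S (AO deg A O) N hN).dq (gen deg i) = T₁.gW i := mapL_gen _ i
      have e2 : mapL h.f h.deg (gen deg i) = gen T'.deg (h.f i) := mapL_gen _ i
      have e3 : iL T'.deg (PA S (AO deg A O) N hN).dq (gen T'.deg (h.f i)) = T'.gW (h.f i) :=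
        mapL_gen _ _
      rw [e1, e2, e3]
      exact Φ_gW h i
    exact congrArg (fun g : Lam deg →ₐ[ℚ] Lam T'.dt => g a) e
  refine ⟨T'.redo (fun j => h.Φ (at' j)) r1 r2 r3 Y r4 hYf hDY, h.f, ?_⟩
  refine ⟨h.inj, h.deg, ?_, hnew, ?_, ?_⟩
  · intro a
    show T'.S.d (mapL h.f h.deg a) = mapL h.f h.deg (S.d a)
    apply iLinj
    rw [← T'.ext, ← hsq, ← hsq, Φ_D h]
    congr 1
    exact hext a
  · intro u
    have e1 : redoD T' (fun j => h.Φ (at' j)) r1 (T'.gU u) = T'.D (T'.gU u) := by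
      refine redoD_free T' _ r1 (SP_gen ?_)
      intro j hj
      rw [List.mem_singleton] at hj
      exact absurd hj (by simp)
    have e2 : T'.gU u = h.Φ (T₁.gU u) := (Φ_inr h (Sum.inl u)).symm
    have e3 : T'.gW (h.f u.1) = h.Φ (T₁.gW u.1) := (Φ_gW h u.1).symm
    show redoD T' (fun j => h.Φ (at' j)) r1 (T'.gU u) - T'.gW (h.f u.1) ∈ _
    rw [e1, e2, Φ_D h, e3, ← map_sub]
    refine hΦ ?_ (hU u)
    rintro l ⟨h3, h4, h5⟩
    refine ⟨h3.trans_eq (ba_cW_map h.f l).symm, h4.trans_eq (List.length_map _).symm, ?_⟩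
    intro x hx
    obtain ⟨y, hy, rfl⟩ := List.mem_map.1 hx
    rcases h5 y hy with ⟨o, ho, rfl⟩ | ⟨v, rfl⟩
    · exact Or.inl ⟨o, ho, rfl⟩
    · exact Or.inr ⟨v, rfl⟩
  · intro j
    have e1 : redoD T' (fun j => h.Φ (at' j)) r1 (T'.gX j) = h.Φ (at' j) :=
      redoD_gX T' _ r1 j
    have e3 : T'.gW (h.f j.1) = h.Φ (T₁.gW j.1) := (Φ_gW h j.1).symm
    show redoD T' (fun j => h.Φ (at' j)) r1 (T'.gX j) - T'.gW (h.f j.1) ∈ _
    rw [e1, e3, ← map_sub]
    refine hΦ ?_ (hatS j)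
    rintro l ⟨h3, h4, h5, v, h6⟩
    refine ⟨h3.trans_eq (ba_cW_map h.f l).symm, h4.trans_eq (List.length_map _).symm, ?_,
      v, List.mem_map.2 ⟨_, h6, rfl⟩⟩
    intro x hx
    obtain ⟨y, hy, rfl⟩ := List.mem_map.1 hx
    rcases h5 y hy with ⟨a, ha, rfl⟩ | ⟨v', rfl⟩
    · exact Or.inl ⟨a, ha, rfl⟩
    · exact Or.inr ⟨v', rfl⟩

end AnWL
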