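import Pool.Agent.Helper48.WL.C08k

/-!
G2/Kw. The Koszul contraction on an ideal generated by letters `α s` with coordinates `β s`, `D (β s) = α s + longer words`.

`w x ≤ 1` is the weight of a letter (`1` for the letters of `W`, `0` for the coordinates), `Ok` the admissible letters, `E` the marked letters
(`α s` and `β s`). Proof: as in `exists_closed` (`C08b.lean`), `exists_F` (`C09.lean`): `exists_h` for `α`, `β` and `koszul_gen` with
`c l := 2 ≤ (l.map w).sum ∧ (∀ y ∈ l, Ok y) ∧ ∃ y ∈ l, E y`, `ν l` = number of marked letters of `l`; `hDc` from `SP_D`, `hK` from `SP_K`;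
`h` (contraction) replaces a letter `α s` by `β s`, so it maps `SP p` to `SP q` if `p (l₁ ++ α s :: l₂) → q (l₁ ++ β s :: l₂)` (`SP_D`). On letters
`K (α s) = D (β s) + h (D (α s)) = α s + longer`, `K (β s) = h (D (β s)) = β s + h (D (β s) - α s)`, `K x = h (D x)` for the other admissible
letters; all additional terms are words of length `≥ 2` with admissible letters, with a marked letter (the letter `β s` produced by `h`) and weight `≥ w x`. For
the non-admissible letters nothing has to be proved (take `v x l' := Ok x → ..` in `SP_K`, `SP_D`). `k = h q`.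
-/

set_option autoImplicit false

namespace AnWL
open Anick2

attribute [local irreducible] instRingLam

private theorem kw_all {X : Type} {δ : X → ℕ} {p : List X → Prop} (hp : ∀ l, p l) (a : Lam δ) :
    a ∈ SP δ p := by
  induction a using Lam.induction with
  | hm l => exact SP_mon (hp l)
  | h0 => exact zero_mem _
  | hadd a b ha hb => exact add_mem ha hb
  | hsmul r a ha => exact Submodule.smul_mem _ _ ha

private theorem kw_len {X : Type} (w : X → ℕ) (hw : ∀ x, w x ≤ 1) (l : List X) :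
    (l.map w).sum ≤ l.length := by
  induction l with
  | nil => simp
  | cons x l ih =>
    have := hw x
    rw [List.map_cons, List.sum_cons, List.length_cons]
    omega

private theorem kw_sum {X : Type} (w : X → ℕ) (l₁ l' l₂ : List X) :
    ((l₁ ++ l' ++ l₂).map w).sum = (l₁.map w).sum + (l'.map w).sum + (l₂.map w).sum := by
  rw [List.map_append, List.map_append, List.sum_append, List.sum_append]

private theorem kw_sum_cons {X : Type} (w : X → ℕ) (l₁ : List X) (x : X) (l₂ : List X) :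
    ((l₁ ++ x :: l₂).map w).sum = (l₁.map w).sum + w x + (l₂.map w).sum := by
  rw [List.map_append, List.sum_append, List.map_cons, List.sum_cons]
  omega

theorem koszul_words {X : Type} [Finite X] {δ : X → ℕ} (hpos : ∀ x, 1 ≤ δ x)
    (D : Lam δ →ₗ[ℚ] Lam δ) (hD : IsDifferential (hom δ) D) {κ : Type} (α β : κ → X)
    (hα : Function.Injective α) (hαβ : ∀ s, δ (β s) + 1 = δ (α s)) (w : X → ℕ)
    (hw : ∀ x, w x ≤ 1) (wα : ∀ s, w (α s) = 1) (wβ : ∀ s, w (β s) = 0) (Ok E : X → Prop)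
    (hEO : ∀ x, E x → Ok x) (hEα : ∀ s, E (α s)) (hEβ : ∀ s, E (β s))
    (hE : ∀ x, E x → (∃ s, x = α s) ∨ ∃ s, x = β s) (hne : ∀ s t, α s ≠ β t)
    (hDl : ∀ x, Ok x → (∀ s, x ≠ β s) → D (gen δ x) ∈ SP δ (fun l => 2 ≤ l.length ∧
      w x + 1 ≤ (l.map w).sum ∧ (∀ y ∈ l, Ok y) ∧ (E x → ∃ y ∈ l, E y)))
    (hDβ : ∀ s, D (gen δ (β s)) - gen δ (α s) ∈ SP δ (fun l => 2 ≤ l.length ∧
      1 ≤ (l.map w).sum ∧ (∀ y ∈ l, Ok y) ∧ ∃ y ∈ l, E y))
    {n : ℕ} {p : Lam δ}
    (hp : p ∈ SP δ (fun l => 2 ≤ (l.map w).sum ∧ (∀ y ∈ l, Ok y) ∧ ∃ y ∈ l, E y))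
    (hpn : p ∈ hom δ (n + 1)) (hDp : D p = 0) :
    ∃ k ∈ hom δ n, D k = p ∧ k ∈ SP δ (fun l => 1 ≤ (l.map w).sum ∧ 2 ≤ l.length ∧
      (∀ y ∈ l, Ok y) ∧ ∃ s, β s ∈ l) := by
  classical
  obtain ⟨k, h1, h2, h3, h4, h5, h6⟩ := exists_h (δ := δ) α β hα hαβ
  have hDm : ∀ a b, D (a * b) = D a * b + sgn δ a * D b := fun a b => d_mul hD a b
  -- the contraction on words
  have hh : ∀ {p q : List X → Prop},
      (∀ l₁ l₂ (s : κ), p (l₁ ++ α s :: l₂) → q (l₁ ++ β s :: l₂)) →
      ∀ {a : Lam δ}, a ∈ SP δ p → k a ∈ SP δ q := by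
    intro p q hpq a ha
    refine SP_D k h4 (fun x l' => ∃ s : κ, x = α s ∧ l' = [β s]) ?_ ?_ ha
    · intro x
      by_cases hx : x ∈ Set.range α
      · obtain ⟨s, rfl⟩ := hx
        rw [h1 s]
        exact SP_gen ⟨s, rfl, rfl⟩
      · rw [h2 x hx]
        exact zero_mem _
    · rintro l₁ x l₂ l' hl ⟨s, rfl, rfl⟩
      have := hpq l₁ l₂ s hl
      simpa using this
  have hOkβ : ∀ (l₁ l₂ : List X) (s : κ), (∀ y ∈ l₁ ++ α s :: l₂, Ok y) →
      ∀ y ∈ l₁ ++ β s :: l₂, Ok y := by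
    intro l₁ l₂ s h y hy
    rcases List.mem_append.1 hy with hy | hy
    · exact h y (List.mem_append_left _ hy)
    · rcases List.mem_cons.1 hy with rfl | hy
      · exact hEO _ (hEβ s)
      · exact h y (List.mem_append_right _ (List.mem_cons_of_mem _ hy))
  have hlen : ∀ (l₁ l₂ : List X) (s : κ),
      (l₁ ++ β s :: l₂).length = (l₁ ++ α s :: l₂).length := by
    intro l₁ l₂ s
    simp
  have hsum : ∀ (l₁ l₂ : List X) (s : κ),
      ((l₁ ++ α s :: l₂).map w).sum = ((l₁ ++ β s :: l₂).map w).sum + 1 := by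
    intro l₁ l₂ s
    rw [kw_sum_cons, kw_sum_cons, wα, wβ]
    omega
  have hcc : ∀ (l₁ : List X) x l₂ l', (2 ≤ ((l₁ ++ x :: l₂).map w).sum ∧
      (∀ y ∈ l₁ ++ x :: l₂, Ok y) ∧ ∃ y ∈ l₁ ++ x :: l₂, E y) →
      w x ≤ (l'.map w).sum → (∀ y ∈ l', Ok y) → (E x → ∃ y ∈ l', E y) →
      (2 ≤ ((l₁ ++ l' ++ l₂).map w).sum ∧
      (∀ y ∈ l₁ ++ l' ++ l₂, Ok y) ∧ ∃ y ∈ l₁ ++ l' ++ l₂, E y) := by
    rintro l₁ x l₂ l' ⟨g1, g2, y, hy, hy'⟩ k1 k2 k3
    refine ⟨?_, ?_, ?_⟩
    · rw [kw_sum_cons] at g1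
      rw [kw_sum]
      omega
    · intro z hz
      rcases List.mem_append.1 hz with hz | hz
      · rcases List.mem_append.1 hz with hz | hz
        · exact g2 z (List.mem_append_left _ hz)
        · exact k2 z hz
      · exact g2 z (List.mem_append_right _ (List.mem_cons_of_mem _ hz))
    · rcases List.mem_append.1 hy with hy | hy
      · exact ⟨y, List.mem_append_left _ (List.mem_append_left _ hy), hy'⟩
      · rcases List.mem_cons.1 hy with rfl | hy
        · obtain ⟨z, hz, hz'⟩ := k3 hy'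
          exact ⟨z, List.mem_append_left _ (List.mem_append_right _ hz), hz'⟩
        · exact ⟨y, List.mem_append_right _ hy, hy'⟩
  have hmid : ∀ (l₁ : List X) x l₂, (∀ y ∈ l₁ ++ x :: l₂, Ok y) → Ok x := by
    intro l₁ x l₂ h
    exact h x (List.mem_append_right _ List.mem_cons_self)
  -- `D` preserves the words
  have hDc : ∀ a ∈ SP δ (fun l => 2 ≤ (l.map w).sum ∧ (∀ y ∈ l, Ok y) ∧ ∃ y ∈ l, E y),
      D a ∈ SP δ (fun l => 2 ≤ (l.map w).sum ∧ (∀ y ∈ l, Ok y) ∧ ∃ y ∈ l, E y) := by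
    intro a ha
    refine SP_D D hDm (fun x l' => Ok x → w x ≤ (l'.map w).sum ∧ (∀ y ∈ l', Ok y) ∧
      (E x → ∃ y ∈ l', E y)) ?_ ?_ ha
    · intro x
      by_cases hx : Ok x
      · by_cases hb : ∃ s, x = β s
        · obtain ⟨s, rfl⟩ := hb
          have e1 : D (gen δ (β s)) = gen δ (α s) + (D (gen δ (β s)) - gen δ (α s)) := by abel
          rw [e1]
          refine add_mem (SP_gen ?_) (SP_imp ?_ (hDβ s))
          · intro _
            refine ⟨by rw [wβ]; exact Nat.zero_le _, ?_, ?_⟩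
            · intro y hy
              rw [List.mem_singleton.1 hy]
              exact hEO _ (hEα s)
            · intro _
              exact ⟨α s, List.mem_singleton.2 rfl, hEα s⟩
          · rintro l ⟨g1, g2, g3, g4⟩ _
            exact ⟨by rw [wβ]; exact Nat.zero_le _, g3, fun _ => g4⟩
        · refine SP_imp ?_ (hDl x hx (fun s hs => hb ⟨s, hs⟩))
          rintro l ⟨g1, g2, g3, g4⟩ _
          exact ⟨by omega, g3, g4⟩
      · exact kw_all (fun l h => absurd h hx) _
    · rintro l₁ x l₂ l' hl hv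
      obtain ⟨v1, v2, v3⟩ := hv (hmid l₁ x l₂ hl.2.1)
      exact hcc l₁ x l₂ l' hl v1 v2 v3
  -- `K` on the words
  have hK : ∀ l : List X, (2 ≤ (l.map w).sum ∧ (∀ y ∈ l, Ok y) ∧ ∃ y ∈ l, E y) →
      D (k (mon δ l)) + k (D (mon δ l)) -
      ((l.countP (fun x => decide (E x)) : ℕ) : ℚ) • mon δ l ∈
      SP δ (fun l' => (2 ≤ (l'.map w).sum ∧ (∀ y ∈ l', Ok y) ∧ ∃ y ∈ l', E y) ∧
        l.length < l'.length) := by
    intro l hl
    refine SP_K D k hDm h4 (fun a => sgn_d hD a) h5 E (fun x l' => Ok x →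
      2 ≤ l'.length ∧ w x ≤ (l'.map w).sum ∧ (∀ y ∈ l', Ok y) ∧ ∃ y ∈ l', E y) ?_ l ?_
    · intro x
      by_cases hx : Ok x
      · by_cases hb : ∃ s, x = β s
        · obtain ⟨s, rfl⟩ := hb
          have hna : β s ∉ Set.range α := by
            rintro ⟨t, ht⟩
            exact hne t s ht
          rw [h2 _ hna, map_zero, zero_add, if_pos (hEβ s)]
          have e1 : k (D (gen δ (β s))) - gen δ (β s) =
              k (D (gen δ (β s)) - gen δ (α s)) := by
            rw [map_sub, h1]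
          rw [e1]
          refine hh ?_ (hDβ s)
          rintro l₁ l₂ v ⟨g1, g2, g3, g4⟩ _
          refine ⟨by rw [hlen]; exact g1, by rw [wβ]; exact Nat.zero_le _, hOkβ l₁ l₂ v g3,
            β v, by simp, hEβ v⟩
        · have hkd : k (D (gen δ x)) ∈ SP δ (fun l' => Ok x → 2 ≤ l'.length ∧
              w x ≤ (l'.map w).sum ∧ (∀ y ∈ l', Ok y) ∧ ∃ y ∈ l', E y) := by
            refine hh ?_ (hDl x hx (fun s hs => hb ⟨s, hs⟩))
            rintro l₁ l₂ v ⟨g1, g2, g3, g4⟩ _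
            rw [hsum] at g2
            refine ⟨by rw [hlen]; exact g1, by omega, hOkβ l₁ l₂ v g3, β v, by simp, hEβ v⟩
          by_cases hEx : E x
          · rcases hE x hEx with ⟨s, rfl⟩ | h
            · rw [if_pos hEx, h1]
              have e2 : D (gen δ (β s)) + k (D (gen δ (α s))) - gen δ (α s) =
                  (D (gen δ (β s)) - gen δ (α s)) + k (D (gen δ (α s))) := by abel
              rw [e2]
              refine add_mem (SP_imp ?_ (hDβ s)) hkd
              rintro l ⟨g1, g2, g3, g4⟩ _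
              exact ⟨g1, by rw [wα]; exact g2, g3, g4⟩
            · exact absurd h hb
          · have hna : x ∉ Set.range α := by
              rintro ⟨s, rfl⟩
              exact hEx (hEα s)
            rw [h2 _ hna, map_zero, zero_add, if_neg hEx, sub_zero]
            exact hkd
      · exact kw_all (fun l h => absurd h hx) _
    · rintro l₁ x l₂ l' rfl hv
      obtain ⟨v0, v1, v2, v3⟩ := hv (hmid l₁ x l₂ hl.2.1)
      refine ⟨hcc l₁ x l₂ l' hl v1 v2 (fun _ => v3), ?_⟩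
      simp only [List.length_append, List.length_cons]
      omega
  have hν : ∀ l : List X, (2 ≤ (l.map w).sum ∧ (∀ y ∈ l, Ok y) ∧ ∃ y ∈ l, E y) →
      1 ≤ l.countP (fun x => decide (E x)) := by
    rintro l ⟨g1, g2, x, hx, hx'⟩
    exact List.countP_pos_iff.2 ⟨x, hx, decide_eq_true hx'⟩
  obtain ⟨q, hq1, hq2, hq3⟩ := koszul_gen hpos D k hD.d_d hD.map_hom h6
    (fun l : List X => 2 ≤ (l.map w).sum ∧ (∀ y ∈ l, Ok y) ∧ ∃ y ∈ l, E y)
    (fun l : List X => l.countP (fun x => decide (E x))) hν hDc hK hp hpn hDp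
  refine ⟨k q, h6 _ _ hq2, hq3, hh ?_ hq1⟩
  rintro l₁ l₂ s ⟨g1, g2, g3⟩
  have g4 := kw_len w hw (l₁ ++ α s :: l₂)
  rw [hsum] at g1
  refine ⟨by omega, ?_, hOkβ l₁ l₂ s g2, s, by simp⟩
  rw [hlen]
  rw [hsum] at g4
  omega

end AnWL
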