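import Pool.Agent.Helper48.WL.C08e
import Pool.Agent.Helper98.G2.Stat
import Pool.Agent.Helper84.G2.Kw

/-!
G2/Bs. Definitions: the parameters and the base total system for a pair `(A, O)` with `PureMod A O`.

Coordinates: `u_o`, `o ∈ O`, and `X_a`, `a ∈ A` even. These are the parameters `PA S (AO deg A O) N hN` of `C08a.lean`.
-/

set_option autoImplicit false

namespace AnWL
open Anick2

/-- The generators with a coordinate in the base: `O` and the even ones of `A`. -/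
def AO {ι : Type} (deg : ι → ℕ) (A O : Set ι) : Set ι := {a | a ∈ O ∨ (a ∈ A ∧ Even (deg a))}

/-- The properties of the base. -/
structure IsBaseM {ι : Type} [hfin : Finite ι] {deg : ι → ℕ} (S : MinimalSullivan deg)
    (A O : Set ι) (n₀ N : ℕ) (hN : 1 ≤ N) (T : TS (PA S (AO deg A O) N hN)) (f : ι → T.ι) :
    Prop where
  inj : Function.Injective f
  deg : ∀ i, T.deg (f i) = deg i
  d : ∀ a, T.S.d (mapL f deg a) = mapL f deg (S.d a)
  new : ∀ i, i ∉ Set.range f → n₀ ≤ T.deg i ∧ Odd (T.deg i)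
  DU : ∀ u, T.D (T.gU u) - T.gW (f u.1) ∈ SP T.dt (fun l => 1 ≤ cW l ∧ 2 ≤ l.length ∧
    ∀ x ∈ l, (∃ o ∈ O, x = Sum.inl (f o)) ∨ ∃ v, x = Sum.inr (Sum.inl v))
  DX : ∀ j, T.D (T.gX j) - T.gW (f j.1) ∈ SP T.dt (fun l => 1 ≤ cW l ∧ 2 ≤ l.length ∧
    (∀ x ∈ l, (∃ a ∈ A, x = Sum.inl (f a)) ∨ ∃ v, x = Sum.inr (Sum.inl v)) ∧
    ∃ v, Sum.inr (Sum.inl v) ∈ l)

section
variable {ι : Type} [hfin : Finite ι] {deg : ι → ℕ} {S : MinimalSullivan deg} {A O : Set ι}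
  {N : ℕ} {hN : 1 ≤ N}

theorem U_mem (hS : S.PureMod A O) (u : (PA S (AO deg A O) N hN).U) : u.1 ∈ O := by
  rcases u.2.1 with h | h
  · exact h
  · exact absurd h.2 (Nat.not_even_iff_odd.2 u.2.2)

theorem M_mem (hS : S.PureMod A O) (j : (PA S (AO deg A O) N hN).M) :
    j.1 ∈ A ∧ Even (deg j.1) := by
  rcases j.2.1 with h | h
  · exact absurd j.2.2 (Nat.not_even_iff_odd.2 (hS.odd _ h))
  · exact h

theorem U_surj (hS : S.PureMod A O) {o : ι} (ho : o ∈ O) :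
    ∃ u : (PA S (AO deg A O) N hN).U, u.1 = o := ⟨⟨o, Or.inl ho, hS.odd o ho⟩, rfl⟩

theorem M_surj {a : ι} (ha : a ∈ A) (he : Even (deg a)) :
    ∃ j : (PA S (AO deg A O) N hN).M, j.1 = a := ⟨⟨a, Or.inr ⟨ha, he⟩, he⟩, rfl⟩

/-- The differential of a letter of `O`. -/
theorem dO_SP (hS : S.PureMod A O) {o : ι} (ho : o ∈ O) :
    S.d (gen deg o) ∈ SP deg (fun l => (∀ i ∈ l, i ∈ O) ∧ 2 ≤ l.length) := by
  refine SP_length ?_ (min_SP S o)
  exact hS.d_O o ho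

/-- The differential of a letter of `A`. -/
theorem dA_SP (hS : S.PureMod A O) {a : ι} (ha : a ∈ A) :
    S.d (gen deg a) ∈ SP deg (fun l => ((∀ i ∈ l, i ∈ A) ∧
      ((∃ i ∈ l, i ∈ O) ∨ (Odd (deg a) ∧ ∀ i ∈ l, Even (deg i)))) ∧ 2 ≤ l.length) := by
  refine SP_length ?_ (min_SP S a)
  refine Submodule.span_mono ?_ (hS.d_A a ha)
  rintro _ ⟨l, h1, h2, rfl⟩
  exact ⟨l, ⟨h1, h2⟩, rfl⟩

end

end AnWL
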