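import Pool.Agent.Helper84.G2.Bs

/-!
G2/Cl. The closed elements `ã_j`, `j ∈ A` even, in the algebra of `exists_T1` (`C08a.lean`).

As `exists_closed` in `C08b.lean`, but with `koszul_words` (`Kw.lean`): `κ = U`, `α u = inl u.1`, `β u = inr (inl u)`, `w = 1` on the letters
`inl`, `0` on `inr`; `Ok` = the letters `inl a` (`a ∈ A`) and `inr (inl v)`, `E` = the letters `inl o` (`o ∈ O`) and `inr (inl v)`
(`hE`: `U_surj`). `hDl` for `x = inl a`: `D (gen (inl a)) = iL (S.d (gen a))`, `dA_SP` (for `a ∈ O` use `dO_SP`: length `≥ 2`, letters in `O ⊆ A`). `hDβ` from `hU`.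
`p = -iL (S.d (gen j))`, `j` even: by `dA_SP` the words contain a letter of `O`. `at' = gen (inl j) + k`.
-/

set_option autoImplicit false

namespace AnWL
open Anick2

/-- The weight of a letter. -/
private def clw {α β : Type} (x : α ⊕ β) : ℕ := if x.isLeft then 1 else 0

private theorem cl_sum {α β : Type} (l : List (α ⊕ β)) : (l.map clw).sum = cW l := by
  induction l with
  | nil => rfl
  | cons x l ih =>
    rw [List.map_cons, List.sum_cons, ih]
    rcases x with x | x
    · unfold cW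
      rw [List.filter_cons]
      simp [clw, add_comm]
    · unfold cW
      rw [List.filter_cons]
      simp [clw]

private theorem cl_cW_map {α β : Type} (l : List α) :
    cW (l.map (Sum.inl : α → α ⊕ β)) = l.length := by
  induction l with
  | nil => rfl
  | cons x l ih =>
    rw [List.map_cons, ← cl_sum, List.map_cons, List.sum_cons, cl_sum, ih, List.length_cons]
    exact Nat.add_comm _ _

attribute [local irreducible] instRingLam

theorem exists_closedM {ι : Type} [Finite ι] {deg : ι → ℕ} (S : MinimalSullivan deg)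
    (A O : Set ι) (hS : S.PureMod A O) (N : ℕ) (hN : 1 ≤ N)
    (D : Lam (Sum.elim deg (PA S (AO deg A O) N hN).dq) →ₗ[ℚ]
      Lam (Sum.elim deg (PA S (AO deg A O) N hN).dq))
    (hD : IsDifferential (hom (Sum.elim deg (PA S (AO deg A O) N hN).dq)) D)
    (hext : ∀ a, D (iL deg (PA S (AO deg A O) N hN).dq a) =
      iL deg (PA S (AO deg A O) N hN).dq (S.d a))
    (hU : ∀ u : (PA S (AO deg A O) N hN).U,
        D (gen (Sum.elim deg (PA S (AO deg A O) N hN).dq) (Sum.inr (Sum.inl u))) -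
          gen (Sum.elim deg (PA S (AO deg A O) N hN).dq) (Sum.inl u.1) ∈
        SP (Sum.elim deg (PA S (AO deg A O) N hN).dq) (fun l => 1 ≤ cW l ∧ 2 ≤ l.length ∧
          ∀ x ∈ l, (∃ o ∈ O, x = Sum.inl o) ∨ ∃ v, x = Sum.inr (Sum.inl v)))
    (j : (PA S (AO deg A O) N hN).M) :
    ∃ at' : Lam (Sum.elim deg (PA S (AO deg A O) N hN).dq), D at' = 0 ∧
      at' ∈ hom (Sum.elim deg (PA S (AO deg A O) N hN).dq) (deg j.1) ∧
      at' - gen (Sum.elim deg (PA S (AO deg A O) N hN).dq) (Sum.inl j.1) ∈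
        SP (Sum.elim deg (PA S (AO deg A O) N hN).dq) (fun l => 1 ≤ cW l ∧ 2 ≤ l.length ∧
          (∀ x ∈ l, (∃ a ∈ A, x = Sum.inl a) ∨ ∃ v, x = Sum.inr (Sum.inl v)) ∧
          ∃ v, Sum.inr (Sum.inl v) ∈ l) := by
  classical
  have hfi : Finite ((PA S (AO deg A O) N hN).U ⊕ (PA S (AO deg A O) N hN).M) := by
    have := (PA S (AO deg A O) N hN).finU
    have := (PA S (AO deg A O) N hN).finM
    infer_instance
  have hfX : Finite (ι ⊕ ((PA S (AO deg A O) N hN).U ⊕ (PA S (AO deg A O) N hN).M)) :=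
    inferInstance
  have hdU : ∀ u : (PA S (AO deg A O) N hN).U, (PA S (AO deg A O) N hN).du u + 1 = deg u.1 := by
    intro u
    have h2 := S.two_le u.1
    have h3 : (PA S (AO deg A O) N hN).du u = deg u.1 - 1 := rfl
    rw [h3]
    omega
  have hdM : ∀ u : (PA S (AO deg A O) N hN).M, (PA S (AO deg A O) N hN).dm u + 1 = deg u.1 := by
    intro u
    have h2 := S.two_le u.1
    have h3 : (PA S (AO deg A O) N hN).dm u = deg u.1 - 1 := rfl
    rw [h3]
    omega
  have hpos : ∀ x, 1 ≤ (Sum.elim deg (PA S (AO deg A O) N hN).dq) x := by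
    rintro (i | u | m)
    · have := S.two_le i
      change 1 ≤ deg i
      omega
    · have h2 := S.two_le u.1
      have h3 := hdU u
      change 1 ≤ (PA S (AO deg A O) N hN).du u
      omega
    · have h2 := S.two_le m.1
      have h3 := hdM m
      change 1 ≤ (PA S (AO deg A O) N hN).dm m
      omega
  have hDg : ∀ i, D (gen (Sum.elim deg (PA S (AO deg A O) N hN).dq) (Sum.inl i)) =
      iL deg (PA S (AO deg A O) N hN).dq (S.d (gen deg i)) := by
    intro i
    rw [← hext]
    congr 1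
    exact (mapL_gen _ i).symm
  have hjM := M_mem (N := N) (hN := hN) hS j
  have hpn : -iL deg (PA S (AO deg A O) N hN).dq (S.d (gen deg j.1)) ∈
      hom (Sum.elim deg (PA S (AO deg A O) N hN).dq) (deg j.1 + 1) :=
    neg_mem (mapL_hom _ (S.isDifferential.map_hom _ _ (gen_mem_hom deg j.1)))
  have hDp : D (-iL deg (PA S (AO deg A O) N hN).dq (S.d (gen deg j.1))) = 0 := by
    rw [map_neg, hext, S.isDifferential.d_d, map_zero, neg_zero]
  obtain ⟨k, hk1, hk2, hk3⟩ := koszul_words (δ := Sum.elim deg (PA S (AO deg A O) N hN).dq) hpos D hD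
    (fun u : (PA S (AO deg A O) N hN).U =>
      (Sum.inl u.1 : ι ⊕ ((PA S (AO deg A O) N hN).U ⊕ (PA S (AO deg A O) N hN).M)))
    (fun u => Sum.inr (Sum.inl u)) (fun u v huv => Subtype.ext (Sum.inl_injective huv)) hdU clw
    (by
      rintro (x | x)
      · exact le_refl _
      · exact Nat.zero_le _)
    (fun _ => rfl) (fun _ => rfl)
    (fun x => (∃ a ∈ A, x = Sum.inl a) ∨ ∃ v, x = Sum.inr (Sum.inl v))
    (fun x => (∃ o ∈ O, x = Sum.inl o) ∨ ∃ v, x = Sum.inr (Sum.inl v))
    (by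
      rintro x (⟨o, ho, rfl⟩ | h)
      · exact Or.inl ⟨o, hS.sub ho, rfl⟩
      · exact Or.inr h)
    (fun u => Or.inl ⟨u.1, U_mem hS u, rfl⟩)
    (fun u => Or.inr ⟨u, rfl⟩)
    (by
      rintro x (⟨o, ho, rfl⟩ | h)
      · obtain ⟨u, hu⟩ := U_surj (N := N) (hN := hN) hS ho
        exact Or.inl ⟨u, by rw [hu]⟩
      · exact Or.inr h)
    (fun s t h => Sum.inl_ne_inr h)
    (by
      rintro x (⟨a, ha, rfl⟩ | ⟨v, rfl⟩) hxβ
      · rw [hDg]
        by_cases hO : a ∈ O
        · refine SP_mapL Sum.inl (fun _ => rfl) ?_ (dO_SP hS hO)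
          rintro l ⟨hl1, hl2⟩
          refine ⟨by rw [List.length_map]; exact hl2, ?_, ?_, ?_⟩
          · rw [cl_sum, cl_cW_map]
            exact hl2
          · intro x hx
            obtain ⟨i, hi, rfl⟩ := List.mem_map.1 hx
            exact Or.inl ⟨i, hS.sub (hl1 i hi), rfl⟩
          · intro _
            obtain ⟨i, hi⟩ := List.exists_mem_of_length_pos (l := l) (by omega)
            exact ⟨Sum.inl i, List.mem_map_of_mem hi, Or.inl ⟨i, hl1 i hi, rfl⟩⟩
        · refine SP_mapL Sum.inl (fun _ => rfl) ?_ (dA_SP hS ha)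
          rintro l ⟨⟨hl1, -⟩, hl2⟩
          refine ⟨by rw [List.length_map]; exact hl2, ?_, ?_, ?_⟩
          · rw [cl_sum, cl_cW_map]
            exact hl2
          · intro x hx
            obtain ⟨i, hi, rfl⟩ := List.mem_map.1 hx
            exact Or.inl ⟨i, hl1 i hi, rfl⟩
          · rintro (⟨o, ho, h⟩ | ⟨v, h⟩)
            · exact absurd (Sum.inl_injective h ▸ ho) hO
            · exact absurd h Sum.inl_ne_inr
      · exact absurd rfl (hxβ v))
    (by
      intro u
      refine SP_imp ?_ (hU u)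
      rintro l ⟨g1, g2, g3⟩
      refine ⟨g2, by rw [cl_sum]; exact g1, ?_, ?_⟩
      · intro y hy
        rcases g3 y hy with ⟨o, ho, h⟩ | h
        · exact Or.inl ⟨o, hS.sub ho, h⟩
        · exact Or.inr h
      · obtain ⟨y, hy⟩ := List.exists_mem_of_length_pos (l := l) (by omega)
        exact ⟨y, hy, g3 y hy⟩)
    (p := -iL deg (PA S (AO deg A O) N hN).dq (S.d (gen deg j.1)))
    (by
      refine neg_mem (SP_mapL Sum.inl (fun _ => rfl) ?_ (dA_SP hS hjM.1))
      rintro l ⟨⟨hl1, hl3⟩, hl2⟩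
      refine ⟨?_, ?_, ?_⟩
      · rw [cl_sum, cl_cW_map]
        exact hl2
      · intro x hx
        obtain ⟨i, hi, rfl⟩ := List.mem_map.1 hx
        exact Or.inl ⟨i, hl1 i hi, rfl⟩
      · rcases hl3 with ⟨i, hi, hiO⟩ | ⟨ho, -⟩
        · exact ⟨Sum.inl i, List.mem_map_of_mem hi, Or.inl ⟨i, hiO, rfl⟩⟩
        · exact absurd hjM.2 (Nat.not_even_iff_odd.2 ho))
    hpn hDp
  refine ⟨gen (Sum.elim deg (PA S (AO deg A O) N hN).dq) (Sum.inl j.1) + k, ?_, ?_, ?_⟩
  · rw [map_add, hk2, hDg, add_neg_cancel]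
  · exact add_mem (gen_mem_hom (Sum.elim deg (PA S (AO deg A O) N hN).dq) (Sum.inl j.1)) hk1
  · rw [add_sub_cancel_left]
    refine SP_imp ?_ hk3
    rintro l ⟨g1, g2, g3, g4⟩
    exact ⟨by rw [← cl_sum]; exact g1, g2, g3, g4⟩

end AnWL
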