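import Pool.Agent.Helper84.G2.Fam

/-!
G2/Cx. The coefficients of the elements of `Lam (Sum.elim δ dc)` with respect to the even letters `inr e`.
-/

set_option autoImplicit false

namespace AnWL
open Anick2

/-- The left letters of a word. -/
def lefts {X C : Type} (l : List (X ⊕ C)) : List X := l.filterMap Sum.getLeft?

/-- The number of the letters `inr e` of a word. -/
noncomputable def cnt {X C : Type} (l : List (X ⊕ C)) : C →₀ ℕ :=
  (l.map (Sum.elim (fun _ => 0) (fun e => Finsupp.single e 1))).sum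

attribute [local irreducible] instRingLam

section Cx
variable {X C : Type}

/-- The images of the generators. -/
private noncomputable def cxF (δ : X → ℕ) : X ⊕ C → AddMonoidAlgebra (Lam δ) (C →₀ ℕ) :=
  Sum.elim (fun x => AddMonoidAlgebra.single 0 (gen δ x))
    (fun e => AddMonoidAlgebra.single (Finsupp.single e 1) 1)

private theorem cx_rel (δ : X → ℕ) (dc : C → ℕ) (hdc : ∀ e, Even (dc e)) (i j : X ⊕ C) :
    cxF δ i * cxF δ j = (-1 : ℚ) ^ (Sum.elim δ dc i * Sum.elim δ dc j) •
      (cxF δ j * cxF δ i) := by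
  unfold cxF
  rcases i with x | e <;> rcases j with y | e'
  · simp only [Sum.elim_inl]
    rw [AddMonoidAlgebra.single_mul_single, AddMonoidAlgebra.single_mul_single,
      AddMonoidAlgebra.smul_single, ← gen_comm]
  · simp only [Sum.elim_inl, Sum.elim_inr]
    rw [AddMonoidAlgebra.single_mul_single, AddMonoidAlgebra.single_mul_single,
      ((hdc e').mul_left _).neg_one_pow, one_smul, mul_one, one_mul, add_comm]
  · simp only [Sum.elim_inl, Sum.elim_inr]
    rw [AddMonoidAlgebra.single_mul_single, AddMonoidAlgebra.single_mul_single,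
      ((hdc e).mul_right _).neg_one_pow, one_smul, mul_one, one_mul, add_comm]
  · simp only [Sum.elim_inr]
    rw [AddMonoidAlgebra.single_mul_single, AddMonoidAlgebra.single_mul_single,
      ((hdc e).mul_right _).neg_one_pow, one_smul, add_comm]

/-- The algebra map `Lam (δ, dc) → (Lam δ)[x_e]`. -/
private noncomputable def cxP (δ : X → ℕ) (dc : C → ℕ) (hdc : ∀ e, Even (dc e)) :
    Lam (Sum.elim δ dc) →ₐ[ℚ] AddMonoidAlgebra (Lam δ) (C →₀ ℕ) :=
  Lam.lift (Sum.elim δ dc) (cxF δ) (cx_rel δ dc hdc)

private theorem cxP_inl (δ : X → ℕ) (dc : C → ℕ) (hdc : ∀ e, Even (dc e)) (x : X) :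
    cxP δ dc hdc (gen (Sum.elim δ dc) (Sum.inl x)) = AddMonoidAlgebra.single 0 (gen δ x) :=
  Lam.lift_gen _ _ _ _

private theorem cxP_inr (δ : X → ℕ) (dc : C → ℕ) (hdc : ∀ e, Even (dc e)) (e : C) :
    cxP δ dc hdc (gen (Sum.elim δ dc) (Sum.inr e)) =
      AddMonoidAlgebra.single (Finsupp.single e 1) 1 :=
  Lam.lift_gen _ _ _ _

private theorem cxP_mon (δ : X → ℕ) (dc : C → ℕ) (hdc : ∀ e, Even (dc e)) (l : List (X ⊕ C)) :
    cxP δ dc hdc (mon (Sum.elim δ dc) l) = AddMonoidAlgebra.single (cnt l) (mon δ (lefts l)) := by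
  induction l with
  | nil =>
    rw [mon_nil, map_one]
    rfl
  | cons i l ih =>
    rw [mon_cons, map_mul, ih]
    rcases i with x | e
    · rw [cxP_inl, AddMonoidAlgebra.single_mul_single]
      have h1 : cnt (Sum.inl x :: l) = 0 + cnt l := rfl
      have h2 : lefts (Sum.inl x :: l) = x :: lefts l := rfl
      rw [h1, h2, mon_cons]
    · rw [cxP_inr, AddMonoidAlgebra.single_mul_single, one_mul]
      rfl

private theorem cxP_iL (δ : X → ℕ) (dc : C → ℕ) (hdc : ∀ e, Even (dc e)) (c : Lam δ) :
    cxP δ dc hdc (iL δ dc c) = AddMonoidAlgebra.single 0 c := by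
  induction c using Lam.induction with
  | hm l =>
    have h1 : iL δ dc (mon δ l) = mon (Sum.elim δ dc) (l.map Sum.inl) := mapL_mon _ l
    rw [h1, cxP_mon]
    have h2 : cnt (l.map (Sum.inl : X → X ⊕ C)) = 0 := by
      induction l with
      | nil => rfl
      | cons x l ih =>
        have h3 : cnt ((x :: l).map (Sum.inl : X → X ⊕ C)) =
            0 + cnt (l.map (Sum.inl : X → X ⊕ C)) := rfl
        rw [h3, zero_add]
        refine ih ?_
        exact mapL_mon _ l
    have h3 : lefts (l.map (Sum.inl : X → X ⊕ C)) = l := by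
      clear h1 h2
      induction l with
      | nil => rfl
      | cons x l ih =>
        have h3 : lefts ((x :: l).map (Sum.inl : X → X ⊕ C)) =
            x :: lefts (l.map (Sum.inl : X → X ⊕ C)) := rfl
        rw [h3, ih]
    rw [h2, h3]
  | h0 => rw [map_zero, map_zero, AddMonoidAlgebra.single_zero]
  | hadd a b ha hb => rw [map_add, map_add, ha, hb, AddMonoidAlgebra.single_add]
  | hsmul r a ha => rw [map_smul, map_smul, ha, AddMonoidAlgebra.smul_single]

/-- The coefficient of `x^b`. -/
private noncomputable def cxf (δ : X → ℕ) (dc : C → ℕ) (hdc : ∀ e, Even (dc e)) (b : C →₀ ℕ) :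
    Lam (Sum.elim δ dc) →ₗ[ℚ] Lam δ where
  toFun a := (cxP δ dc hdc a).coeff b
  map_add' := by
    intro a a'
    rw [map_add, AddMonoidAlgebra.coeff_add, Finsupp.add_apply]
  map_smul' := by
    intro r a
    rw [map_smul, AddMonoidAlgebra.coeff_smul_apply]
    rfl

private theorem cxf_def (δ : X → ℕ) (dc : C → ℕ) (hdc : ∀ e, Even (dc e)) (b : C →₀ ℕ)
    (a : Lam (Sum.elim δ dc)) : cxf δ dc hdc b a = (cxP δ dc hdc a).coeff b := rfl

private theorem cxf_iL (δ : X → ℕ) (dc : C → ℕ) (hdc : ∀ e, Even (dc e)) (b : C →₀ ℕ)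
    (c : Lam δ) (a : Lam (Sum.elim δ dc)) :
    cxf δ dc hdc b (iL δ dc c * a) = c * cxf δ dc hdc b a := by
  rw [cxf_def, cxf_def, map_mul, cxP_iL, AddMonoidAlgebra.coeff_single_zero_mul]

private theorem cxf_inl (δ : X → ℕ) (dc : C → ℕ) (hdc : ∀ e, Even (dc e)) (b : C →₀ ℕ)
    (x : X) (a : Lam (Sum.elim δ dc)) :
    cxf δ dc hdc b (gen (Sum.elim δ dc) (Sum.inl x) * a) = gen δ x * cxf δ dc hdc b a := by
  rw [cxf_def, cxf_def, map_mul, cxP_inl, AddMonoidAlgebra.coeff_single_zero_mul]

private theorem cxf_inr (δ : X → ℕ) (dc : C → ℕ) (hdc : ∀ e, Even (dc e)) (b : C →₀ ℕ)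
    (e : C) (a : Lam (Sum.elim δ dc)) :
    cxf δ dc hdc (b + Finsupp.single e 1) (gen (Sum.elim δ dc) (Sum.inr e) * a) =
      cxf δ dc hdc b a := by
  rw [cxf_def, cxf_def, map_mul, cxP_inr, add_comm b, AddMonoidAlgebra.coeff_single_mul_add,
    one_mul]

private theorem cxf_inr0 (δ : X → ℕ) (dc : C → ℕ) (hdc : ∀ e, Even (dc e)) (b : C →₀ ℕ)
    (e : C) (hb : b e = 0) (a : Lam (Sum.elim δ dc)) :
    cxf δ dc hdc b (gen (Sum.elim δ dc) (Sum.inr e) * a) = 0 := by
  rw [cxf_def, map_mul, cxP_inr]
  refine AddMonoidAlgebra.coeff_single_mul_of_forall_add_ne _ _ ?_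
  intro c hc
  rw [← hc, Finsupp.add_apply, Finsupp.single_eq_same] at hb
  omega

private theorem cx_comm {δ : X → ℕ} {q : Lam δ} (hq : sgn δ q = -q) (x : X) :
    q * gen δ x = sgn δ (gen δ x) * q := by
  rcases Nat.even_or_odd (δ x) with h | h
  · rw [sgn_gen_even h, even_comm (sgn_gen_even h)]
  · rw [sgn_gen_odd h, odd_anti hq (sgn_gen_odd h), neg_mul]

end Cx

theorem exists_cf {X C : Type} [Fintype C] (δ : X → ℕ) (dc : C → ℕ) (hdc : ∀ e, Even (dc e)) :
    ∃ cf : (C →₀ ℕ) → Lam (Sum.elim δ dc) →ₗ[ℚ] Lam δ,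
      (∀ b l, (cnt l = b → cf b (mon (Sum.elim δ dc) l) = mon δ (lefts l)) ∧
        (cnt l ≠ b → cf b (mon (Sum.elim δ dc) l) = 0)) ∧
      ∀ (D : Lam δ →ₗ[ℚ] Lam δ) (_ : IsDifferential (hom δ) D) (q : C → Lam δ)
        (_ : ∀ e, sgn δ (q e) = -q e)
        (Dx : Lam (Sum.elim δ dc) →ₗ[ℚ] Lam (Sum.elim δ dc))
        (_ : IsDifferential (hom (Sum.elim δ dc)) Dx)
        (_ : ∀ x, Dx (gen (Sum.elim δ dc) (Sum.inl x)) = iL δ dc (D (gen δ x)))
        (_ : ∀ e, Dx (gen (Sum.elim δ dc) (Sum.inr e)) = iL δ dc (q e))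
        (a : Lam (Sum.elim δ dc)) (b : C →₀ ℕ),
        cf b (Dx a) = D (cf b a) +
          ∑ e, ((b e + 1 : ℕ) : ℚ) • (q e * cf (b + Finsupp.single e 1) a) := by
  classical
  refine ⟨cxf δ dc hdc, ?_, ?_⟩
  · intro b l
    constructor
    · rintro rfl
      rw [cxf_def, cxP_mon, AddMonoidAlgebra.coeff_single, Finsupp.single_eq_same]
    · intro h
      rw [cxf_def, cxP_mon, AddMonoidAlgebra.coeff_single, Finsupp.single_eq_of_ne (Ne.symm h)]
  · intro D hD q hq Dx hDx hx hr a
    induction a using Lam.induction with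
    | hm l =>
      induction l with
      | nil =>
        intro b
        rw [mon_nil, d_one hDx, map_zero]
        have h1 : ∀ b : C →₀ ℕ, b ≠ 0 → cxf δ dc hdc b 1 = 0 := by
          intro b hb
          rw [cxf_def, map_one]
          exact Finsupp.single_eq_of_ne hb
        have h2 : D (cxf δ dc hdc b 1) = 0 := by
          by_cases hb : b = 0
          · rw [hb, cxf_def, map_one]
            have h3 : (1 : AddMonoidAlgebra (Lam δ) (C →₀ ℕ)).coeff 0 = 1 :=
              Finsupp.single_eq_same
            rw [h3, d_one hD]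
          · rw [h1 b hb, map_zero]
        rw [h2, zero_add]
        refine (Finset.sum_eq_zero fun e _ => ?_).symm
        rw [h1, mul_zero, smul_zero]
        intro h3
        have h4 := DFunLike.congr_fun h3 e
        rw [Finsupp.add_apply, Finsupp.single_eq_same] at h4
        simp at h4
      | cons i l ih =>
        set m := mon (Sum.elim δ dc) l with hm
        intro b
        rw [mon_cons, ← hm, d_mul hDx, map_add]
        rcases i with x | e0
        · rw [hx, cxf_iL, cxf_inl, d_mul hD, sgn_gen, smul_mul_assoc, map_smul, cxf_inl, ih b,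
            Sum.elim_inl, mul_add, smul_add, ← smul_mul_assoc, ← sgn_gen, ← add_assoc]
          congr 1
          rw [← smul_mul_assoc, ← sgn_gen, Finset.mul_sum]
          refine Finset.sum_congr rfl fun e _ => ?_
          rw [cxf_inl, ← mul_assoc (q e), cx_comm (hq e), mul_smul_comm, mul_assoc]
        · rw [hr, cxf_iL, sgn_gen_even (show Even (Sum.elim δ dc (Sum.inr e0)) from hdc e0)]
          by_cases hb : b e0 = 0
          · rw [cxf_inr0 _ _ _ _ _ hb, cxf_inr0 _ _ _ _ _ hb, map_zero, add_zero, zero_add,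
              Finset.sum_eq_single e0]
            · rw [cxf_inr, hb]
              simp
            · intro e _ he
              have h5 : (b + Finsupp.single e 1 : C →₀ ℕ) e0 = 0 := by
                rw [Finsupp.add_apply, hb, Finsupp.single_eq_of_ne (Ne.symm he), add_zero]
              rw [cxf_inr0 δ dc hdc _ _ h5, mul_zero, smul_zero]
            · intro h
              exact absurd (Finset.mem_univ _) h
          · obtain ⟨b', rfl⟩ : ∃ b', b = b' + Finsupp.single e0 1 :=
              ⟨b - Finsupp.single e0 1, (sub_single_add hb).symm⟩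
            rw [cxf_inr, cxf_inr, ih b']
            have h1 : ∀ e, (((b' + Finsupp.single e0 1 : C →₀ ℕ) e + 1 : ℕ) : ℚ) •
                (q e * cxf δ dc hdc (b' + Finsupp.single e0 1 + Finsupp.single e 1)
                  (gen (Sum.elim δ dc) (Sum.inr e0) * m)) =
                ((b' e + 1 : ℕ) : ℚ) • (q e * cxf δ dc hdc (b' + Finsupp.single e 1) m) +
                  if e = e0 then q e * cxf δ dc hdc (b' + Finsupp.single e 1) m else 0 := by
              intro e
              rw [add_right_comm, cxf_inr]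
              by_cases he : e = e0
              · subst he
                rw [if_pos rfl, Finsupp.add_apply, Finsupp.single_eq_same]
                push_cast
                rw [add_smul _ (1 : ℚ), one_smul]
              · rw [if_neg he, Finsupp.add_apply, Finsupp.single_eq_of_ne he, add_zero, add_zero]
            rw [Finset.sum_congr rfl fun e _ => h1 e, Finset.sum_add_distrib,
              Finset.sum_ite_eq' Finset.univ e0, if_pos (Finset.mem_univ _)]
            abel
    | h0 =>
      intro b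
      simp only [map_zero, mul_zero, smul_zero, Finset.sum_const_zero, add_zero]
    | hadd a a' ha ha' =>
      intro b
      rw [map_add, map_add, ha, ha', map_add, map_add]
      have h1 : ∀ e, ((b e + 1 : ℕ) : ℚ) •
          (q e * cxf δ dc hdc (b + Finsupp.single e 1) (a + a')) =
          ((b e + 1 : ℕ) : ℚ) • (q e * cxf δ dc hdc (b + Finsupp.single e 1) a) +
          ((b e + 1 : ℕ) : ℚ) • (q e * cxf δ dc hdc (b + Finsupp.single e 1) a') := by
        intro e
        rw [map_add, mul_add, smul_add]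
      rw [Finset.sum_congr rfl fun e _ => h1 e, Finset.sum_add_distrib]
      abel
    | hsmul r a ha =>
      intro b
      rw [map_smul, map_smul, ha, map_smul, map_smul, smul_add, Finset.smul_sum]
      congr 1
      refine Finset.sum_congr rfl fun e _ => ?_
      rw [map_smul, mul_smul_comm, smul_comm]

end AnWL
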