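import Pool.Agent.Helper84.G2.Gr
import Pool.Agent.Helper48.WL.C12a

/-!
G2/Emb. Embeddings of total systems with different parameters (`Λ(W; u, X) → Λ(W'; u', X')`, letters to letters).
-/

set_option autoImplicit false

namespace AnWL
open Anick2
variable {P P' P'' : Par}

/-- The map of the total algebras given by maps of the letters. -/
noncomputable def PhiE {T : TS P} {T' : TS P'} (f : T.ι → T'.ι) (fu : P.U → P'.U)
    (fm : P.M → P'.M) (hf : ∀ i, T'.deg (f i) = T.deg i) (hu : ∀ u, P'.du (fu u) = P.du u)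
    (hm : ∀ j, P'.dm (fm j) = P.dm j) : Lam T.dt →ₐ[ℚ] Lam T'.dt :=
  mapL (Sum.map f (Sum.map fu fm)) (by rintro (i | u | j); exacts [hf i, hu u, hm j])

/-- Embeddings of total systems. -/
structure Emb (T : TS P) (T' : TS P') where
  f : T.ι → T'.ι
  fu : P.U → P'.U
  fm : P.M → P'.M
  inj : Function.Injective f
  injm : Function.Injective fm
  deg : ∀ i, T'.deg (f i) = T.deg i
  du : ∀ u, P'.du (fu u) = P.du u
  dm : ∀ j, P'.dm (fm j) = P.dm j
  D : ∀ a, T'.D (PhiE f fu fm deg du dm a) = PhiE f fu fm deg du dm (T.D a)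

/-- The map of the total algebras. -/
noncomputable def Emb.Φ {T : TS P} {T' : TS P'} (h : Emb T T') : Lam T.dt →ₐ[ℚ] Lam T'.dt :=
  PhiE h.f h.fu h.fm h.deg h.du h.dm

private theorem hfE {T : TS P} {T' : TS P'} (h : Emb T T') (i : T.ι ⊕ (P.U ⊕ P.M)) :
    T'.dt (Sum.map h.f (Sum.map h.fu h.fm) i) = T.dt i := by
  rcases i with i | u | j
  exacts [h.deg i, h.du u, h.dm j]

theorem E_gW {T : TS P} {T' : TS P'} (h : Emb T T') (i : T.ι) : h.Φ (T.gW i) = T'.gW (h.f i) :=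
  mapL_gen (hfE h) _

theorem E_gU {T : TS P} {T' : TS P'} (h : Emb T T') (u : P.U) : h.Φ (T.gU u) = T'.gU (h.fu u) :=
  mapL_gen (hfE h) _

theorem E_gX {T : TS P} {T' : TS P'} (h : Emb T T') (j : P.M) : h.Φ (T.gX j) = T'.gX (h.fm j) :=
  mapL_gen (hfE h) _

theorem E_D {T : TS P} {T' : TS P'} (h : Emb T T') (a : Lam T.dt) :
    T'.D (h.Φ a) = h.Φ (T.D a) := h.D a

theorem E_sgn {T : TS P} {T' : TS P'} (h : Emb T T') (a : Lam T.dt) :
    sgn T'.dt (h.Φ a) = h.Φ (sgn T.dt a) := (mapL_sgn (hfE h) a).symm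

theorem E_tau {T : TS P} {T' : TS P'} (h : Emb T T') (a : Lam T.dt) :
    tau T'.dt (h.Φ a) = h.Φ (tau T.dt a) := tau_mapL _ (hfE h) a

theorem E_hom {T : TS P} {T' : TS P'} (h : Emb T T') {n : ℕ} {a : Lam T.dt}
    (ha : a ∈ hom T.dt n) : h.Φ a ∈ hom T'.dt n := mapL_hom (hfE h) ha

theorem E_hz {T : TS P} {T' : TS P'} (h : Emb T T') {g : ℤ} {a : Lam T.dt} (ha : a ∈ T.hz g) :
    h.Φ a ∈ T'.hz g := by
  rw [hz_def] at ha ⊢
  rw [E_tau, ha, map_smul]

theorem E_p {T : TS P} {T' : TS P'} (h : Emb T T') (hu : Function.Injective h.fu) (j : P.M)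
    (a : Lam T.dt) : T'.p (h.fm j) (h.Φ a) = h.Φ (T.p j a) :=
  pdv_mapL _ (hfE h) (Function.Injective.sumMap h.inj (Function.Injective.sumMap hu h.injm))
    (T.odd j) (T'.odd (h.fm j)) a

private theorem E_cW {T : TS P} {T' : TS P'} (h : Emb T T') (l : List (T.ι ⊕ (P.U ⊕ P.M))) :
    cW (l.map (Sum.map h.f (Sum.map h.fu h.fm))) = cW l ∧
      wW T'.deg (l.map (Sum.map h.f (Sum.map h.fu h.fm))) = wW T.deg l := by
  induction l with
  | nil => exact ⟨rfl, rfl⟩
  | cons x l ih =>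
    have h3 : ∀ (x : T'.ι ⊕ (P'.U ⊕ P'.M)) (l : List (T'.ι ⊕ (P'.U ⊕ P'.M))),
      wW T'.deg (x :: l) = Sum.elim T'.deg (fun _ => 0) x + wW T'.deg l :=
      fun x l => degSum_cons _ _ _
    have h3' : wW T.deg (x :: l) = Sum.elim T.deg (fun _ => 0) x + wW T.deg l :=
      degSum_cons _ _ _
    rw [List.map_cons, h3, h3', ih.2]
    rcases x with i | t
    · refine ⟨?_, ?_⟩
      · change cW (List.map _ l) + 1 = cW l + 1
        rw [ih.1]
      · change T'.deg (h.f i) + _ = T.deg i + _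
        rw [h.deg]
    · exact ⟨ih.1, rfl⟩

theorem E_sp {T : TS P} {T' : TS P'} (h : Emb T T') {k n : ℕ} {a : Lam T.dt}
    (ha : a ∈ T.sp k n) : h.Φ a ∈ T'.sp k n := by
  refine SP_mapL _ (hfE h) ?_ ha
  rintro l ⟨h1, h2⟩
  rw [(E_cW h l).1, (E_cW h l).2]
  exact ⟨h1, h2⟩

theorem E_SP {T : TS P} {T' : TS P'} (h : Emb T T') {k : ℕ} {a : Lam T.dt}
    (ha : a ∈ SP T.dt (fun l => k ≤ cW l)) : h.Φ a ∈ SP T'.dt (fun l => k ≤ cW l) := by
  refine SP_mapL _ (hfE h) ?_ ha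
  intro l h1
  rw [(E_cW h l).1]
  exact h1

theorem E_nl {T : TS P} {T' : TS P'} (h : Emb T T') {a : Lam T.dt} (ha : a ∈ T.nl) :
    h.Φ a ∈ T'.nl := by
  intro K _ _ _ θ hθ
  refine ha K (θ.comp h.Φ) ?_
  intro b
  rw [AlgHom.comp_apply, ← E_D]
  exact hθ _

private theorem E_iL {T : TS P} {T' : TS P'} (h : Emb T T') (a : Lam T.deg) :
    h.Φ (iL T.deg P.dq a) = iL T'.deg P'.dq (mapL h.f h.deg a) := by
  have : h.Φ.comp (iL T.deg P.dq) = (iL T'.deg P'.dq).comp (mapL h.f h.deg) := by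
    refine Lam.algHom_ext _ fun i => ?_
    have e1 : iL T.deg P.dq (gen T.deg i) = T.gW i := mapL_gen (fun _ => rfl) i
    have e3 : iL T'.deg P'.dq (gen T'.deg (h.f i)) = T'.gW (h.f i) :=
      mapL_gen (fun _ => rfl) (h.f i)
    rw [AlgHom.comp_apply, AlgHom.comp_apply, e1, mapL_gen, e3, E_gW]
  exact DFunLike.congr_fun this a

theorem E_d {T : TS P} {T' : TS P'} (h : Emb T T') (a : Lam T.deg) :
    T'.S.d (mapL h.f h.deg a) = mapL h.f h.deg (T.S.d a) := by
  have hinj : Function.Injective (iL T'.deg P'.dq) := by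
    unfold iL
    exact mapL_injective (deg := Sum.elim T'.deg P'.dq) (fun _ => rfl) Sum.inl_injective
  apply hinj
  rw [← E_iL, ← T'.ext, ← E_iL, ← T.ext]
  exact E_D h _

/-- A morphism of total systems is an embedding. -/
noncomputable def Emb.ofHom {T T' : TS P} (h : T.Hom T') : Emb T T' where
  f := h.f
  fu := _root_.id
  fm := _root_.id
  inj := h.inj
  injm := Function.injective_id
  deg := h.deg
  du := fun _ => rfl
  dm := fun _ => rfl
  D := by
    intro a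
    have e : PhiE (T := T) (T' := T') h.f _root_.id _root_.id h.deg (fun _ => rfl)
        (fun _ => rfl) = h.Φ := by
      refine Lam.algHom_ext _ fun i => ?_
      refine (mapL_gen _ i).trans ?_
      rcases i with i | u | j
      · exact (Φ_gW h i).symm
      · exact (Φ_inr h (Sum.inl u)).symm
      · exact (Φ_inr h (Sum.inr j)).symm
    rw [e]
    exact Φ_D h a

theorem ofHom_Φ {T T' : TS P} (h : T.Hom T') (a : Lam T.dt) : (Emb.ofHom h).Φ a = h.Φ a := by
  have e : (Emb.ofHom h).Φ = h.Φ := by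
    refine Lam.algHom_ext _ fun i => ?_
    rcases i with i | u | j
    · exact (E_gW (Emb.ofHom h) i).trans (Φ_gW h i).symm
    · exact (E_gU (Emb.ofHom h) u).trans (Φ_inr h (Sum.inl u)).symm
    · exact (E_gX (Emb.ofHom h) j).trans (Φ_inr h (Sum.inr j)).symm
  rw [e]

private theorem E_comp_aux {T : TS P} {T' : TS P'} {T'' : TS P''} (h : Emb T T')
    (k : Emb T' T'') :
    PhiE (T := T) (T' := T'') (k.f ∘ h.f) (k.fu ∘ h.fu) (k.fm ∘ h.fm)
      (fun i => (k.deg _).trans (h.deg i)) (fun u => (k.du _).trans (h.du u))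
      (fun j => (k.dm _).trans (h.dm j)) = k.Φ.comp h.Φ := by
  refine Lam.algHom_ext _ fun i => ?_
  refine (mapL_gen _ i).trans ?_
  rw [AlgHom.comp_apply]
  rcases i with i | u | j
  · exact ((congrArg k.Φ (E_gW h i)).trans (E_gW k _)).symm
  · exact ((congrArg k.Φ (E_gU h u)).trans (E_gU k _)).symm
  · exact ((congrArg k.Φ (E_gX h j)).trans (E_gX k _)).symm

/-- Composition: first `h`, then `k`. -/
noncomputable def Emb.comp {T : TS P} {T' : TS P'} {T'' : TS P''} (h : Emb T T')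
    (k : Emb T' T'') : Emb T T'' where
  f := k.f ∘ h.f
  fu := k.fu ∘ h.fu
  fm := k.fm ∘ h.fm
  inj := k.inj.comp h.inj
  injm := k.injm.comp h.injm
  deg := fun i => (k.deg _).trans (h.deg i)
  du := fun u => (k.du _).trans (h.du u)
  dm := fun j => (k.dm _).trans (h.dm j)
  D := by
    intro a
    rw [E_comp_aux, AlgHom.comp_apply, AlgHom.comp_apply, E_D, E_D]

theorem Emb_comp_Φ {T : TS P} {T' : TS P'} {T'' : TS P''} (h : Emb T T') (k : Emb T' T'')
    (a : Lam T.dt) : (h.comp k).Φ a = k.Φ (h.Φ a) :=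
  DFunLike.congr_fun (E_comp_aux h k) a

end AnWL
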