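import Pool.Agent.Helper84.G2.Gr

/-!
G2/Ext. Superfield extensions for closed homogeneous elements of either parity all of whose words have at least two letters of `W`, of
total degree at least `n₀ + 1`.
-/

set_option autoImplicit false

namespace AnWL
open Anick2
variable {P : Par}

/-- Expansion in a family of homogeneous elements. -/
private theorem g2e_expand {κ : Type} {deg' : κ → ℕ} {B : Type} [Fintype B] {pd : B → ℕ}
    {ω : B → Lam deg'} {q : ℕ} {b : Lam deg'}
    (hb : b ∈ Submodule.span ℚ {x | ∃ a, pd a = q ∧ x = ω a}) :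
    ∃ c : B → ℚ, (∀ a, pd a ≠ q → c a = 0) ∧ b = ∑ a, c a • ω a := by
  classical
  induction hb using Submodule.span_induction with
  | mem x hx =>
    obtain ⟨a, ha, rfl⟩ := hx
    refine ⟨fun a' => if a' = a then 1 else 0, fun a' ha' => if_neg ?_, ?_⟩
    · rintro rfl
      exact ha' ha
    · rw [Finset.sum_eq_single a]
      · show ω a = (if a = a then (1 : ℚ) else 0) • ω a
        rw [if_pos rfl, one_smul]
      · intro a' _ ha'
        show (if a' = a then (1 : ℚ) else 0) • ω a' = 0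
        rw [if_neg ha', zero_smul]
      · intro h
        exact absurd (Finset.mem_univ a) h
  | zero =>
    refine ⟨fun _ => 0, fun _ _ => rfl, ?_⟩
    rw [Finset.sum_eq_zero]
    intro a _
    rw [zero_smul]
  | add x y _ _ hx hy =>
    obtain ⟨c, hc, rfl⟩ := hx
    obtain ⟨c', hc', rfl⟩ := hy
    refine ⟨fun a => c a + c' a, fun a ha => ?_, ?_⟩
    · show c a + c' a = 0
      rw [hc a ha, hc' a ha, add_zero]
    · rw [← Finset.sum_add_distrib]
      exact Finset.sum_congr rfl fun a _ => (add_smul _ _ _).symm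
  | smul r x _ hx =>
    obtain ⟨c, hc, rfl⟩ := hx
    refine ⟨fun a => r * c a, fun a ha => ?_, ?_⟩
    · show r * c a = 0
      rw [hc a ha, mul_zero]
    · rw [Finset.smul_sum]
      exact Finset.sum_congr rfl fun a _ => smul_smul _ _ _

/-- Sorting of a monomial. -/
private theorem g2e_sort {ι κ : Type} (deg : ι → ℕ) (deg' : κ → ℕ) (l : List (ι ⊕ κ)) :
    ∃ (c : ℚ) (l₁ : List ι) (l₂ : List κ),
      mon (Sum.elim deg deg') l = c • (iL deg deg' (mon deg l₁) * iR deg deg' (mon deg' l₂)) ∧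
      l₁.length = cW l ∧ degSum deg l₁ + degSum deg' l₂ = degSum (Sum.elim deg deg') l ∧
      degSum deg l₁ = wW deg l ∧ ∀ t ∈ l₂, Sum.inr t ∈ l := by
  induction l with
  | nil =>
    refine ⟨1, [], [], ?_, rfl, rfl, rfl, ?_⟩
    · rw [mon_nil, mon_nil, mon_nil, map_one, map_one, mul_one, one_smul]
    · intro t ht
      exact absurd ht (List.not_mem_nil)
  | cons x l ih =>
    obtain ⟨c, l₁, l₂, h1, h2, h3, h3w, h4⟩ := ih
    have hw : ∀ x : ι ⊕ κ, wW deg (x :: l) = Sum.elim deg (fun _ => 0) x + wW deg l :=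
      fun x => degSum_cons _ _ _
    rcases x with i | t
    · refine ⟨c, i :: l₁, l₂, ?_, ?_, ?_, ?_, fun t ht => List.mem_cons_of_mem _ (h4 t ht)⟩
      · rw [mon_cons, h1, mon_cons, map_mul, mul_smul_comm, mul_assoc]
        congr 2
        exact (mapL_gen (f := Sum.inl) (fun _ => rfl) i).symm
      · have h5 : cW (Sum.inl i :: l) = cW l + 1 := rfl
        rw [List.length_cons, h2, h5]
      · rw [degSum_cons, degSum_cons, add_assoc, h3]
        rfl
      · rw [degSum_cons, h3w, hw]
        rfl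
    · refine ⟨c * (-1 : ℚ) ^ (deg' t * degSum deg l₁), l₁, t :: l₂, ?_, h2, ?_, ?_, ?_⟩
      · have h5 : gen (Sum.elim deg deg') (Sum.inr t) * iL deg deg' (mon deg l₁) =
            (-1 : ℚ) ^ (deg' t * degSum deg l₁) •
              (iL deg deg' (mon deg l₁) * gen (Sum.elim deg deg') (Sum.inr t)) :=
          hom_comm (Sum.elim deg deg') (gen_mem_hom (Sum.elim deg deg') (Sum.inr t))
            (mapL_hom (fun _ => rfl) (mon_mem_hom deg l₁))
        have h6 : iR deg deg' (gen deg' t) = gen (Sum.elim deg deg') (Sum.inr t) :=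
          mapL_gen (f := Sum.inr) (fun _ => rfl) t
        rw [mon_cons, h1, mon_cons, map_mul, mul_smul_comm, ← mul_assoc, h5, smul_mul_assoc,
          smul_smul, h6, mul_assoc]
      · rw [degSum_cons, degSum_cons, ← h3]
        show degSum deg l₁ + (deg' t + degSum deg' l₂) = deg' t + (degSum deg l₁ + degSum deg' l₂)
        omega
      · rw [h3w, hw]
        exact (Nat.zero_add _).symm
      · intro t' ht'
        rcases List.mem_cons.1 ht' with h | h
        · rw [h]
          exact List.mem_cons_self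
        · exact List.mem_cons_of_mem _ (h4 t' h)

section

attribute [local irreducible] instRingLam

private theorem g2e_term {ι κ : Type} (deg : ι → ℕ) (deg' : κ → ℕ) {B : Type} [Fintype B]
    (ω : B → Lam deg') (c : ℚ) (d : B → ℚ) (m : Lam deg) :
    c • (iL deg deg' m * iR deg deg' (∑ b, d b • ω b)) =
      ∑ b, iL deg deg' ((c * d b) • m) * iR deg deg' (ω b) := by
  rw [map_sum, Finset.mul_sum, Finset.smul_sum]
  refine Finset.sum_congr rfl fun b _ => ?_
  rw [map_smul, map_smul, mul_smul_comm, smul_mul_assoc, smul_smul]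

private theorem g2e_uniq {ι κ : Type} (deg : ι → ℕ) (deg' : κ → ℕ) {B : Type} [Fintype B]
    {ω : B → Lam deg'} (hω : LinearIndependent ℚ ω) {x y : B → Lam deg}
    (h : ∑ b, iL deg deg' (x b) * iR deg deg' (ω b) =
      ∑ b, iL deg deg' (y b) * iR deg deg' (ω b)) (b : B) : x b = y b := by
  have h1 : ∑ b, iL deg deg' (x b - y b) * iR deg deg' (ω b) = 0 := by
    rw [← sub_eq_zero, ← Finset.sum_sub_distrib] at h
    rw [← h]
    refine Finset.sum_congr rfl fun b _ => ?_
    rw [map_sub, sub_mul]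
  exact sub_eq_zero.1 (iLR_indep deg deg' hω (fun b => x b - y b) h1 b)

end

private theorem g2e_pr {ι : Type} {δ : ι → ℕ} {p : List ι → Prop} {a : Lam δ} (ha : a ∈ SP δ p)
    (n : ℕ) : pr δ n a ∈ SP δ (fun l => degSum δ l = n ∧ p l) := by
  unfold SP at ha
  induction ha using Submodule.span_induction with
  | mem x hx =>
    obtain ⟨l, hl, rfl⟩ := hx
    rw [pr_hom δ (mon_mem_hom δ l)]
    split
    · rename_i h
      exact Submodule.subset_span ⟨l, ⟨h, hl⟩, rfl⟩
    · exact zero_mem _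
  | zero => rw [map_zero]; exact zero_mem _
  | add x y _ _ hx hy => rw [map_add]; exact add_mem hx hy
  | smul r x _ hx => rw [map_smul]; exact Submodule.smul_mem _ _ hx

private theorem g2e_free (T : TS P) {p : List (T.ι ⊕ (P.U ⊕ P.M)) → Prop} {a : Lam T.dt}
    (ha : a ∈ SP T.dt p) (s : Finset P.M) (h : ∀ j ∈ s, T.p j a = 0) :
    a ∈ SP T.dt (fun l => p l ∧ ∀ j ∈ s, Sum.inr (Sum.inr j) ∉ l) := by
  classical
  induction s using Finset.induction_on with
  | empty =>
    refine Submodule.span_mono ?_ ha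
    rintro x ⟨l, hl, rfl⟩
    exact ⟨l, ⟨hl, fun j hj => absurd hj (Finset.notMem_empty j)⟩, rfl⟩
  | insert j s hj ih =>
    have h1 := ih (fun j' hj' => h j' (Finset.mem_insert_of_mem hj'))
    have h2 := SP_of_pdv_zero (T.odd j) h1 (h j (Finset.mem_insert_self j s))
    refine Submodule.span_mono ?_ h2
    rintro x ⟨l, ⟨⟨hl, hl'⟩, hl''⟩, rfl⟩
    refine ⟨l, ⟨hl, fun j' hj' => ?_⟩, rfl⟩
    rcases Finset.mem_insert.1 hj' with h3 | h3
    · rw [h3]
      exact hl''
    · exact hl' j' h3

theorem Bas_expand2 (T : TS P) {L : Finset P.M} {Q : ℕ} (B : Bas P L Q) {n k m : ℕ}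
    (hnk : n ≤ Q + m) {a : Lam T.dt} (ha : a ∈ hom T.dt n)
    (hk : a ∈ T.sp k m) (hLp : ∀ j, j ∉ L → T.p j a = 0) :
    ∃ x : B.B → Lam T.deg, (∀ b, x b ∈ FW T.deg (fun _ => 1) k) ∧
      (∀ b, x b = 0 ∨ ∃ m, m + B.e b = n ∧ x b ∈ hom T.deg m) ∧
      a = ∑ b, iL T.deg P.dq (x b) * iR T.deg P.dq (B.ω b) := by
  classical
  have := P.finM
  have := Fintype.ofFinite P.M
  obtain ⟨H, hH⟩ : ∃ H : B.B → Submodule ℚ (Lam T.deg),
      ∀ b, H b = if B.e b ≤ n then hom T.deg (n - B.e b) else ⊥ := ⟨_, fun _ => rfl⟩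
  have h1 := g2e_free T hk (Finset.univ.filter (fun j => j ∉ L))
    (fun j hj => hLp j (Finset.mem_filter.1 hj).2)
  have h2 := g2e_pr h1 n
  rw [pr_hom T.dt ha, if_pos rfl] at h2
  have h3 : ∃ x : B.B → Lam T.deg, (∀ b, x b ∈ FW T.deg (fun _ => 1) k) ∧
      (∀ b, x b ∈ H b) ∧ a = ∑ b, iL T.deg P.dq (x b) * iR T.deg P.dq (B.ω b) := by
    clear ha hk hLp h1
    unfold SP at h2
    induction h2 using Submodule.span_induction with
    | mem y hy =>
      obtain ⟨l, ⟨hn, ⟨hl, hlm⟩, hlL⟩, rfl⟩ := hy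
      obtain ⟨c, l₁, l₂, e1, e2, e3, e3w, e4⟩ := g2e_sort T.deg P.dq l
      have e3' : degSum T.deg l₁ + degSum P.dq l₂ = n := e3.trans hn
      have hQ : degSum P.dq l₂ ≤ Q := by omega
      have hm : mon P.dq l₂ ∈ homS P.dq (tL P L) (degSum P.dq l₂) := by
        refine mon_mem_homS P.dq l₂ ?_
        rintro t ht j rfl
        by_contra hj
        exact hlL j (Finset.mem_filter.2 ⟨Finset.mem_univ j, hj⟩) (e4 _ ht)
      obtain ⟨d, hd, hd'⟩ := g2e_expand (B.span _ hQ hm)
      refine ⟨fun b => (c * d b) • mon T.deg l₁, fun b => ?_, fun b => ?_, ?_⟩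
      · refine Submodule.smul_mem _ _ (Submodule.subset_span ⟨l₁, ?_, rfl⟩)
        have h6 : degSum (fun _ : T.ι => 1) l₁ = l₁.length := by
          clear e1 e2 e3 e3' e3w
          induction l₁ with
          | nil => rfl
          | cons i l₁ ih => rw [degSum_cons, ih, List.length_cons, add_comm]
        rw [h6, e2]
        exact hl
      · show (c * d b) • mon T.deg l₁ ∈ H b
        by_cases hb : B.e b = degSum P.dq l₂
        · have h7 : B.e b ≤ n := by omega
          have h8 : n - B.e b = degSum T.deg l₁ := by omega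
          rw [hH b, if_pos h7, h8]
          exact Submodule.smul_mem _ _ (mon_mem_hom T.deg l₁)
        · rw [hd b hb, mul_zero, zero_smul]
          exact zero_mem _
      · refine e1.trans ?_
        rw [hd']
        exact g2e_term T.deg P.dq B.ω c d (mon T.deg l₁)
    | zero =>
      refine ⟨fun _ => 0, fun _ => zero_mem _, fun _ => zero_mem _, ?_⟩
      rw [Finset.sum_eq_zero]
      intro b _
      rw [map_zero, zero_mul]
    | add x y _ _ hx hy =>
      obtain ⟨u, hu1, hu2, rfl⟩ := hx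
      obtain ⟨v, hv1, hv2, rfl⟩ := hy
      refine ⟨fun b => u b + v b, fun b => add_mem (hu1 b) (hv1 b),
        fun b => add_mem (hu2 b) (hv2 b), ?_⟩
      rw [← Finset.sum_add_distrib]
      refine Finset.sum_congr rfl fun b _ => ?_
      rw [map_add, add_mul]
    | smul r x _ hx =>
      obtain ⟨u, hu1, hu2, rfl⟩ := hx
      refine ⟨fun b => r • u b, fun b => Submodule.smul_mem _ _ (hu1 b),
        fun b => Submodule.smul_mem _ _ (hu2 b), ?_⟩
      rw [Finset.smul_sum]
      refine Finset.sum_congr rfl fun b _ => ?_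
      rw [map_smul, smul_mul_assoc]
  obtain ⟨x, hx1, hx2, hx3⟩ := h3
  refine ⟨x, hx1, fun b => ?_, hx3⟩
  have h4 := hx2 b
  rw [hH b] at h4
  split at h4
  · rename_i h5
    exact Or.inr ⟨n - B.e b, by omega, h4⟩
  · exact Or.inl ((Submodule.mem_bot ℚ).1 h4)


end AnWL
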