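import Pool.Agent.Helper84.G2.Pack

/-!
G2/Fam. Closed families `F : (C →₀ ℕ) → Λ` (`D F_b = - ∑_e (b_e + 1) q_e F_{b + e}`, i.e. `∑ x^b F_b` is closed for `D x_e = q_e`), their products and powers, and the
closed family `K_b = (a!/b!) h^{a - b}` (`b ≤ a`) of a package.
-/

set_option autoImplicit false

namespace AnWL
open Anick2
variable {P : Par} {C : Type} [Fintype C]

attribute [local irreducible] instRingLam

/-- Closed families of degree `g`. -/
structure TS.Cf (T : TS P) (q : C → Lam T.dt) (dc : C → ℕ) (g : ℤ)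
    (F : (C →₀ ℕ) → Lam T.dt) : Prop where
  hz : ∀ b, F b ∈ T.hz (g - wt dc b)
  D : ∀ b, T.D (F b) = -∑ e, ((b e + 1 : ℕ) : ℚ) • (q e * F (b + Finsupp.single e 1))

theorem Cf_Φ {T T' : TS P} (h : T.Hom T') {q : C → Lam T.dt} {dc : C → ℕ} {g : ℤ}
    {F : (C →₀ ℕ) → Lam T.dt} (hF : T.Cf q dc g F) :
    T'.Cf (fun e => h.Φ (q e)) dc g (fun b => h.Φ (F b)) where
  hz := fun b => hz_Φ h (hF.hz b)
  D := by
    intro b
    rw [Φ_D, hF.D b, map_neg, map_sum]
    congr 1
    refine Finset.sum_congr rfl fun e _ => ?_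
    rw [map_smul, map_mul]

theorem Cf_zero (T : TS P) (q : C → Lam T.dt) (dc : C → ℕ) (g : ℤ) :
    T.Cf q dc g (fun _ => 0) where
  hz := fun _ => zero_mem _
  D := by
    intro b
    rw [map_zero, Finset.sum_eq_zero, neg_zero]
    intro e _
    rw [mul_zero, smul_zero]

theorem Cf_add {T : TS P} {q : C → Lam T.dt} {dc : C → ℕ} {g : ℤ}
    {F G : (C →₀ ℕ) → Lam T.dt} (hF : T.Cf q dc g F) (hG : T.Cf q dc g G) :
    T.Cf q dc g (fun b => F b + G b) where
  hz := fun b => add_mem (hF.hz b) (hG.hz b)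
  D := by
    intro b
    rw [map_add, hF.D b, hG.D b, ← neg_add, ← Finset.sum_add_distrib]
    congr 1
    refine Finset.sum_congr rfl fun e _ => ?_
    rw [mul_add, smul_add]

theorem Cf_neg {T : TS P} {q : C → Lam T.dt} {dc : C → ℕ} {g : ℤ}
    {F : (C →₀ ℕ) → Lam T.dt} (hF : T.Cf q dc g F) : T.Cf q dc g (fun b => -F b) where
  hz := fun b => Submodule.neg_mem _ (hF.hz b)
  D := by
    intro b
    rw [map_neg, hF.D b]
    congr 1
    rw [← Finset.sum_neg_distrib]
    refine Finset.sum_congr rfl fun e _ => ?_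
    rw [mul_neg, smul_neg]

theorem Cf_sum {T : TS P} {q : C → Lam T.dt} {dc : C → ℕ} {g : ℤ} {β : Type} (E : Finset β)
    (F : β → (C →₀ ℕ) → Lam T.dt) (hF : ∀ x ∈ E, T.Cf q dc g (F x)) :
    T.Cf q dc g (fun b => ∑ x ∈ E, F x b) := by
  classical
  induction E using Finset.induction_on with
  | empty =>
    simp only [Finset.sum_empty]
    exact Cf_zero T q dc g
  | insert a E ha ih =>
    simp only [Finset.sum_insert ha]
    exact Cf_add (hF a (Finset.mem_insert_self a E))
      (ih (fun x hx => hF x (Finset.mem_insert_of_mem hx)))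

/-! ### products -/

omit [Fintype C] in
private theorem sh1 {A : Type} [AddCommMonoid A] [Module ℚ A] [DecidableEq C]
    (f : (C →₀ ℕ) → (C →₀ ℕ) → A) (b : C →₀ ℕ) (e : C) :
    ∑ p ∈ (Finset.HasAntidiagonal.antidiagonal b : Finset ((C →₀ ℕ) × (C →₀ ℕ))), ((p.1 e + 1 : ℕ) : ℚ) • f (p.1 + Finsupp.single e 1) p.2 =
      ∑ p ∈ (Finset.HasAntidiagonal.antidiagonal (b + Finsupp.single e 1) : Finset ((C →₀ ℕ) × (C →₀ ℕ))), ((p.1 e : ℕ) : ℚ) • f p.1 p.2 := by
  refine Finset.sum_of_injOn (fun p => (p.1 + Finsupp.single e 1, p.2)) ?_ ?_ ?_ ?_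
  · rintro ⟨x, y⟩ _ ⟨x', y'⟩ _ h
    simp only [Prod.mk.injEq, add_left_inj] at h
    rw [h.1, h.2]
  · rintro ⟨x, y⟩ hp
    simp only [Finset.mem_coe,
      Finset.HasAntidiagonal.mem_antidiagonal] at hp ⊢
    rw [← hp]
    abel
  · rintro ⟨x, y⟩ hp hn
    simp only [Finset.HasAntidiagonal.mem_antidiagonal] at hp
    have h0 : x e = 0 := by
      by_contra h0
      apply hn
      refine ⟨(x - Finsupp.single e 1, y), ?_, ?_⟩
      · simp only [Finset.mem_coe,
          Finset.HasAntidiagonal.mem_antidiagonal]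
        have h1 := sub_single_add h0
        have h2 : x - Finsupp.single e 1 + y + Finsupp.single e 1 =
            b + Finsupp.single e 1 := by
          rw [add_right_comm, h1, hp]
        exact add_right_cancel h2
      · simp only [Prod.mk.injEq, and_true]
        exact sub_single_add h0
    simp only [h0, Nat.cast_zero, zero_smul]
  · rintro ⟨x, y⟩ _
    simp only [Finsupp.add_apply, Finsupp.single_eq_same]

omit [Fintype C] in
private theorem sh2 {A : Type} [AddCommMonoid A] [Module ℚ A] [DecidableEq C]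
    (f : (C →₀ ℕ) → (C →₀ ℕ) → A) (b : C →₀ ℕ) (e : C) :
    ∑ p ∈ (Finset.HasAntidiagonal.antidiagonal b : Finset ((C →₀ ℕ) × (C →₀ ℕ))), ((p.2 e + 1 : ℕ) : ℚ) • f p.1 (p.2 + Finsupp.single e 1) =
      ∑ p ∈ (Finset.HasAntidiagonal.antidiagonal (b + Finsupp.single e 1) : Finset ((C →₀ ℕ) × (C →₀ ℕ))), ((p.2 e : ℕ) : ℚ) • f p.1 p.2 := by
  refine Finset.sum_of_injOn (fun p => (p.1, p.2 + Finsupp.single e 1)) ?_ ?_ ?_ ?_
  · rintro ⟨x, y⟩ _ ⟨x', y'⟩ _ h
    simp only [Prod.mk.injEq, add_left_inj] at h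
    rw [h.1, h.2]
  · rintro ⟨x, y⟩ hp
    simp only [Finset.mem_coe,
      Finset.HasAntidiagonal.mem_antidiagonal] at hp ⊢
    rw [← hp]
    abel
  · rintro ⟨x, y⟩ hp hn
    simp only [Finset.HasAntidiagonal.mem_antidiagonal] at hp
    have h0 : y e = 0 := by
      by_contra h0
      apply hn
      refine ⟨(x, y - Finsupp.single e 1), ?_, ?_⟩
      · simp only [Finset.mem_coe,
          Finset.HasAntidiagonal.mem_antidiagonal]
        have h1 := sub_single_add h0
        have h2 : x + (y - Finsupp.single e 1) + Finsupp.single e 1 =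
            b + Finsupp.single e 1 := by
          rw [add_assoc, h1, hp]
        exact add_right_cancel h2
      · simp only [Prod.mk.injEq, true_and]
        exact sub_single_add h0
    simp only [h0, Nat.cast_zero, zero_smul]
  · rintro ⟨x, y⟩ _
    simp only [Finsupp.add_apply, Finsupp.single_eq_same]

theorem Cf_mul {T : TS P} {q : C → Lam T.dt} {dc : C → ℕ} {g g' : ℤ}
    {F G : (C →₀ ℕ) → Lam T.dt} (hdc : ∀ e, Even (dc e)) (hg : Even g)
    [DecidableEq C] (hF : T.Cf q dc g F) (hG : T.Cf q dc g' G) :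
    T.Cf q dc (g + g') (fun b => ∑ p ∈ Finset.HasAntidiagonal.antidiagonal b, F p.1 * G p.2) where
  hz := by
    intro b
    refine Submodule.sum_mem _ fun p hp => ?_
    have h1 := hz_mul T (hF.hz p.1) (hG.hz p.2)
    rw [Finset.HasAntidiagonal.mem_antidiagonal] at hp
    have e1 : g - wt dc p.1 + (g' - wt dc p.2) = g + g' - wt dc b := by
      rw [← hp, wt_add]
      ring
    rwa [e1] at h1
  D := by
    intro b
    have hs : ∀ x, sgn T.dt (F x) = F x := fun x =>
      hz_sgn_even T (hg.sub (wt_even hdc x)) (hF.hz x)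
    have hc : ∀ x y, F x * y = y * F x := fun x y => even_comm (hs x) y
    have h1 : ∀ p : (C →₀ ℕ) × (C →₀ ℕ), T.D (F p.1 * G p.2) =
        -∑ e, (q e * (((p.1 e + 1 : ℕ) : ℚ) • (F (p.1 + Finsupp.single e 1) * G p.2)) +
          q e * (((p.2 e + 1 : ℕ) : ℚ) • (F p.1 * G (p.2 + Finsupp.single e 1)))) := by
      intro p
      rw [T.leib, hs, hF.D, hG.D, neg_mul, mul_neg, ← neg_add, Finset.sum_mul, Finset.mul_sum,
        ← Finset.sum_add_distrib]
      congr 1
      refine Finset.sum_congr rfl fun e _ => ?_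
      rw [smul_mul_assoc, mul_assoc, mul_smul_comm, mul_smul_comm, mul_smul_comm]
      congr 2
      rw [← mul_assoc, hc, mul_assoc]
    rw [map_sum, Finset.sum_congr rfl (fun p _ => h1 p), Finset.sum_neg_distrib,
      Finset.sum_comm]
    congr 1
    refine Finset.sum_congr rfl fun e _ => ?_
    rw [Finset.sum_add_distrib, ← Finset.mul_sum, ← Finset.mul_sum,
      sh1 (fun x y => F x * G y) b e, sh2 (fun x y => F x * G y) b e, ← mul_add,
      ← Finset.sum_add_distrib, ← mul_smul_comm, Finset.smul_sum]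
    congr 1
    refine Finset.sum_congr rfl fun p hp => ?_
    rw [Finset.HasAntidiagonal.mem_antidiagonal] at hp
    rw [← add_smul]
    congr 1
    have h2 := DFunLike.congr_fun hp e
    rw [Finsupp.add_apply, Finsupp.add_apply, Finsupp.single_eq_same] at h2
    rw [← h2]
    push_cast
    ring

/-- Powers. -/
theorem exists_powF {T : TS P} {q : C → Lam T.dt} {dc : C → ℕ} {g : ℤ}
    {F : (C →₀ ℕ) → Lam T.dt} (hdc : ∀ e, Even (dc e)) (hg : Even g) (hF : T.Cf q dc g F)
    (hI : ∀ b, F b ∈ SP T.dt (fun l => 1 ≤ cW l)) (k : ℕ) :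
    ∃ H : (C →₀ ℕ) → Lam T.dt, T.Cf q dc ((k + 1 : ℕ) * g) H ∧
      (∀ b, H b ∈ SP T.dt (fun l => k + 1 ≤ cW l)) ∧ H 0 = F 0 ^ (k + 1) := by
  classical
  induction k with
  | zero =>
    refine ⟨F, ?_, hI, (pow_one _).symm⟩
    have e : ((0 + 1 : ℕ) : ℤ) * g = g := by push_cast; ring
    rw [e]
    exact hF
  | succ k ih =>
    obtain ⟨H, h1, h2, h3⟩ := ih
    have hg' : Even (((k + 1 : ℕ) : ℤ) * g) := hg.mul_left _
    refine ⟨fun b => ∑ p ∈ Finset.HasAntidiagonal.antidiagonal b, H p.1 * F p.2, ?_, fun b => ?_, ?_⟩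
    · have h4 := Cf_mul hdc hg' h1 hF
      have e : ((k + 1 : ℕ) : ℤ) * g + g = ((k + 1 + 1 : ℕ) : ℤ) * g := by push_cast; ring
      rw [e] at h4
      exact h4
    · exact Submodule.sum_mem _ fun p _ => SP_mul_left (h2 p.1) (hI p.2)
    · have e : Finset.HasAntidiagonal.antidiagonal (0 : C →₀ ℕ) = {(0, 0)} := by
        ext ⟨x, y⟩
        simp only [Finset.HasAntidiagonal.mem_antidiagonal, Finset.mem_singleton,
          Prod.mk.injEq, add_eq_zero]
      beta_reduce
      rw [e, Finset.sum_singleton]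
      change H 0 * F 0 = _
      rw [h3, ← pow_succ]

/-! ### the family of a package -/

/-- The product of the factorials. -/
noncomputable def fac (b : C →₀ ℕ) : ℚ := ∏ e, ((Nat.factorial (b e) : ℕ) : ℚ)

theorem fac_ne (b : C →₀ ℕ) : fac b ≠ 0 := by
  unfold fac
  refine Finset.prod_ne_zero_iff.2 fun e _ => ?_
  exact_mod_cast Nat.factorial_ne_zero _

theorem fac_single (b : C →₀ ℕ) (e : C) :
    fac (b + Finsupp.single e 1) = ((b e + 1 : ℕ) : ℚ) * fac b := by
  classical
  unfold fac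
  rw [← Finset.mul_prod_erase Finset.univ _ (Finset.mem_univ e),
    ← Finset.mul_prod_erase Finset.univ (fun e => ((Nat.factorial (b e) : ℕ) : ℚ))
      (Finset.mem_univ e)]
  have h1 : ∏ x ∈ Finset.univ.erase e,
      ((Nat.factorial ((b + Finsupp.single e 1 : C →₀ ℕ) x) : ℕ) : ℚ) =
      ∏ x ∈ Finset.univ.erase e, ((Nat.factorial (b x) : ℕ) : ℚ) := by
    refine Finset.prod_congr rfl fun x hx => ?_
    rw [Finsupp.add_apply, Finsupp.single_eq_of_ne (Finset.ne_of_mem_erase hx), add_zero]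
  rw [h1, Finsupp.add_apply, Finsupp.single_eq_same, Nat.factorial_succ]
  push_cast
  ring

/-- The family of a package. -/
noncomputable def Kf {T : TS P} (hh : (C →₀ ℕ) → Lam T.dt) (a : C →₀ ℕ) (b : C →₀ ℕ) :
    Lam T.dt := by
  classical
  exact if b ≤ a then (fac a / fac b) • hh (a - b) else 0

theorem Kf_of_le {T : TS P} (hh : (C →₀ ℕ) → Lam T.dt) {a b : C →₀ ℕ} (h : b ≤ a) :
    Kf hh a b = (fac a / fac b) • hh (a - b) := by
  unfold Kf
  rw [if_pos h]

theorem Kf_of_not_le {T : TS P} (hh : (C →₀ ℕ) → Lam T.dt) {a b : C →₀ ℕ} (h : ¬ b ≤ a) :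
    Kf hh a b = 0 := by
  unfold Kf
  rw [if_neg h]

theorem Kf_self {T : TS P} (hh : (C →₀ ℕ) → Lam T.dt) (a : C →₀ ℕ) : Kf hh a a = hh 0 := by
  rw [Kf_of_le hh (le_refl a), div_self (fac_ne a), one_smul, tsub_self]

theorem Kf_zero {T : TS P} (hh : (C →₀ ℕ) → Lam T.dt) (a : C →₀ ℕ) :
    Kf hh a 0 = fac a • hh a := by
  have h1 : fac (0 : C →₀ ℕ) = 1 := by
    unfold fac
    exact Finset.prod_eq_one fun e _ => by simp
  rw [Kf_of_le hh (fun _ => Nat.zero_le _), h1, div_one, tsub_zero]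

theorem Kf_deg {T : TS P} (hh : (C →₀ ℕ) → Lam T.dt) {a b : C →₀ ℕ}
    (h : a.degree ≤ b.degree) (hne : b ≠ a) : Kf hh a b = 0 := by
  refine Kf_of_not_le hh fun hle => hne ?_
  have h1 : b + (a - b) = a := add_tsub_cancel_of_le hle
  have h2 : b.degree + (a - b).degree = a.degree := by
    rw [← map_add, h1]
  have h3 : (a - b).degree = 0 := by omega
  rw [Finsupp.degree_eq_zero_iff] at h3
  rw [h3, add_zero] at h1
  exact h1

theorem Kf_sp {T : TS P} {q : C → Lam T.dt} {dc : C → ℕ} {n₀ d : ℕ} {g : ℤ}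
    {hh : (C →₀ ℕ) → Lam T.dt} (hp : T.Pk q dc n₀ d g hh) (a b : C →₀ ℕ) :
    Kf hh a b ∈ T.sp 1 n₀ := by
  by_cases h : b ≤ a
  · rw [Kf_of_le hh h]
    exact Submodule.smul_mem _ _ (hp.sp _)
  · rw [Kf_of_not_le hh h]
    exact zero_mem _

omit [Fintype C] in
private theorem le_single (a b : C →₀ ℕ) (e : C) :
    b + Finsupp.single e 1 ≤ a ↔ b ≤ a ∧ (a - b) e ≠ 0 := by
  classical
  rw [Finsupp.tsub_apply, Finsupp.le_def, Finsupp.le_def]
  constructor
  · intro h
    refine ⟨fun x => ?_, ?_⟩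
    · have := h x
      rw [Finsupp.add_apply] at this
      omega
    · have := h e
      rw [Finsupp.add_apply, Finsupp.single_eq_same] at this
      omega
  · rintro ⟨h1, h2⟩ x
    rw [Finsupp.add_apply]
    by_cases hx : x = e
    · subst hx
      rw [Finsupp.single_eq_same]
      omega
    · rw [Finsupp.single_eq_of_ne hx]
      have := h1 x
      omega

theorem Cf_Kf {T : TS P} {q : C → Lam T.dt} {dc : C → ℕ} {n₀ d : ℕ} {g : ℤ}
    {hh : (C →₀ ℕ) → Lam T.dt} (hp : T.Pk q dc n₀ d g hh) (a : C →₀ ℕ) (ha : a.degree ≤ d) :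
    T.Cf q dc (g + wt dc a) (Kf hh a) where
  hz := by
    intro b
    by_cases h : b ≤ a
    · rw [Kf_of_le hh h]
      refine Submodule.smul_mem _ _ ?_
      have h1 := hp.hz (a - b)
      have h2 := wt_add dc b (a - b)
      rw [add_tsub_cancel_of_le h] at h2
      have e1 : g + wt dc (a - b) = g + wt dc a - wt dc b := by rw [h2]; ring
      rwa [e1] at h1
    · rw [Kf_of_not_le hh h]
      exact zero_mem _
  D := by
    intro b
    by_cases h : b ≤ a
    · rw [Kf_of_le hh h, map_smul]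
      by_cases hab : a - b = 0
      · rw [hab, hp.D0, smul_zero]
        symm
        rw [neg_eq_zero]
        refine Finset.sum_eq_zero fun e _ => ?_
        rw [Kf_of_not_le hh, mul_zero, smul_zero]
        rw [le_single]
        rintro ⟨-, h1⟩
        apply h1
        rw [hab]
        rfl
      · have hdeg : (a - b).degree ≤ d := by
          refine le_trans ?_ ha
          have h1 : b + (a - b) = a := add_tsub_cancel_of_le h
          have h2 : b.degree + (a - b).degree = a.degree := by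
            rw [← map_add, h1]
          omega
        rw [hp.D _ hab hdeg, smul_neg, Finset.smul_sum]
        congr 1
        refine Finset.sum_congr rfl fun e _ => ?_
        by_cases he : (a - b) e = 0
        · rw [if_pos he, smul_zero, Kf_of_not_le hh, mul_zero, smul_zero]
          rw [le_single]
          rintro ⟨-, h1⟩
          exact h1 he
        · rw [if_neg he, Kf_of_le hh ((le_single a b e).2 ⟨h, he⟩), fac_single,
            tsub_add_eq_tsub_tsub, mul_smul_comm, smul_smul]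
          congr 1
          have h1 := fac_ne b
          have h2 : ((b e + 1 : ℕ) : ℚ) ≠ 0 := Nat.cast_ne_zero.2 (Nat.succ_ne_zero _)
          field_simp
    · rw [Kf_of_not_le hh h, map_zero]
      symm
      rw [neg_eq_zero]
      refine Finset.sum_eq_zero fun e _ => ?_
      rw [Kf_of_not_le hh, mul_zero, smul_zero]
      rw [le_single]
      rintro ⟨h1, -⟩
      exact h h1

end AnWL
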