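import Pool.Agent.Helper84.G2.One

/-!
G2/Fr. The frames on closed one-column families: `(δ_i G)_j = ∂_i G_j - (j + 1) ϑ_i G_{j + 1}` is a closed family again; modulo elements
with a factor `ϑ` it is `∂_i G_j`.

`Fr_D`: `D ∂_i = - ∂_i D` (`T.p_D`), `∂_i (q G) = (∂_i q) G - q ∂_i G` (`pdv_mul (T.odd i)`, `hz_sgn_odd` for `q`), `D (ϑ_i G) = (∂_i q) G - ϑ_i D G` (`sgn ϑ_i = - ϑ_i`),
`ϑ_i q = - q ϑ_i` (`odd_anti`). `Fr_pt`: by induction on the list, `frl T ϑ l G j - T.pl l (G j)` is in the span of the products `ϑ_i * a`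
(`∂_k (ϑ_i a) = - ϑ_i ∂_k a` for `k` in the list, by `hϑ'`).
-/

set_option autoImplicit false

namespace AnWL
open Anick2
variable {P : Par}

/-- `δ_i`. -/
noncomputable def fr (T : TS P) (ϑ : P.M → Lam T.dt) (i : P.M) (G : ℕ → Lam T.dt) :
    ℕ → Lam T.dt := fun j => T.p i (G j) - ((j + 1 : ℕ) : ℚ) • (ϑ i * G (j + 1))

/-- `δ_l` for a list `l`. -/
noncomputable def frl (T : TS P) (ϑ : P.M → Lam T.dt) : List P.M → (ℕ → Lam T.dt) → ℕ → Lam T.dt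
  | [], G => G
  | i :: l, G => fr T ϑ i (frl T ϑ l G)

attribute [local irreducible] instRingLam

private theorem fr_sgn (T : TS P) (ϑ : P.M → Lam T.dt) (hϑ : ∀ i, ϑ i = 0 ∨ ∃ j, ϑ i = T.gX j)
    (i : P.M) : sgn T.dt (ϑ i) = -ϑ i := by
  rcases hϑ i with h | ⟨k, h⟩
  · rw [h, map_zero, neg_zero]
  · rw [h]
    refine hz_sgn_odd T (g := ((T.dt (Sum.inr (Sum.inr k)) : ℕ) : ℤ)) ?_
      (hz_of_hom T (gen_mem_hom T.dt _))
    exact (Int.odd_coe_nat _).2 (T.odd k)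

private theorem fr_step (T : TS P) (dx : ℕ) (q : Lam T.dt) (ϑ : P.M → Lam T.dt) (hdx : Even dx)
    (hq : q ∈ T.hz (dx + 1)) (hϑ : ∀ i, ϑ i = 0 ∨ ∃ j, ϑ i = T.gX j)
    (hϑD : ∀ i, T.D (ϑ i) = T.p i q) (G : ℕ → Lam T.dt)
    (hG : ∀ j, T.D (G j) = -(((j + 1 : ℕ) : ℚ) • (q * G (j + 1)))) (i : P.M) (j : ℕ) :
    T.D (fr T ϑ i G j) = -(((j + 1 : ℕ) : ℚ) • (q * fr T ϑ i G (j + 1))) := by
  have hqs : sgn T.dt q = -q := by
    refine hz_sgn_odd T ?_ hq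
    obtain ⟨m, hm⟩ := hdx
    exact ⟨m, by rw [hm]; push_cast; ring⟩
  have hs := fr_sgn T ϑ hϑ i
  have hc : ϑ i * q = -(q * ϑ i) := odd_anti hs hqs
  have h1 : T.D (T.p i (G j)) =
      ((j + 1 : ℕ) : ℚ) • (T.p i q * G (j + 1) - q * T.p i (G (j + 1))) := by
    have e1 : T.D (T.p i (G j)) = -T.p i (T.D (G j)) := by rw [T.p_D, neg_neg]
    have e2 : T.p i (q * G (j + 1)) = T.p i q * G (j + 1) + sgn T.dt q * T.p i (G (j + 1)) :=
      pdv_mul (T.odd i) q (G (j + 1))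
    rw [e1, hG, map_neg, neg_neg, map_smul, e2, hqs, neg_mul, ← sub_eq_add_neg]
  have h2 : T.D (ϑ i * G (j + 1)) =
      T.p i q * G (j + 1) - ((j + 1 + 1 : ℕ) : ℚ) • (q * (ϑ i * G (j + 1 + 1))) := by
    rw [T.leib, hϑD, hs, hG, neg_mul_neg, mul_smul_comm, ← mul_assoc (ϑ i), hc, neg_mul,
      smul_neg, ← sub_eq_add_neg, mul_assoc]
  unfold fr
  rw [map_sub, map_smul, h1, h2, ← smul_sub, ← smul_neg]
  congr 1
  rw [mul_sub, mul_smul_comm]
  abel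

theorem Fr_D (T : TS P) (dx : ℕ) (q : Lam T.dt) (ϑ : P.M → Lam T.dt) (hdx : Even dx)
    (hq : q ∈ T.hz (dx + 1)) (hϑ : ∀ i, ϑ i = 0 ∨ ∃ j, ϑ i = T.gX j)
    (hϑD : ∀ i, T.D (ϑ i) = T.p i q) (G : ℕ → Lam T.dt)
    (hG : ∀ j, T.D (G j) = -(((j + 1 : ℕ) : ℚ) • (q * G (j + 1)))) (l : List P.M) (j : ℕ) :
    T.D (frl T ϑ l G j) = -(((j + 1 : ℕ) : ℚ) • (q * frl T ϑ l G (j + 1))) := by
  induction l generalizing j with
  | nil => exact hG j
  | cons i l ih => exact fr_step T dx q ϑ hdx hq hϑ hϑD (frl T ϑ l G) ih i j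

theorem Fr_hz (T : TS P) (dx : ℕ) (q : Lam T.dt) (ϑ : P.M → Lam T.dt)
    (hq : q ∈ T.hz (dx + 1)) (hϑ : ∀ i, ϑ i = 0 ∨ ∃ j, ϑ i = T.gX j)
    (hϑD : ∀ i, T.D (ϑ i) = T.p i q) (hϑz : ∀ i, ϑ i ∈ T.hz (dx - P.dm i)) (g : ℤ)
    (G : ℕ → Lam T.dt) (hG : ∀ j : ℕ, G j ∈ T.hz (g - j * dx)) (l : List P.M) (j : ℕ) :
    frl T ϑ l G j ∈ T.hz (g - (l.map fun i => (P.dm i : ℤ)).sum - j * dx) := by
  induction l generalizing j with
  | nil =>
    have e : g - (([] : List P.M).map fun i => (P.dm i : ℤ)).sum - j * dx = g - j * dx := by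
      rw [List.map_nil, List.sum_nil, sub_zero]
    rw [e]
    exact hG j
  | cons i l ih =>
    have h1 := hz_p T i (ih j)
    have h2 := hz_mul T (hϑz i) (ih (j + 1))
    have e1 : g - (l.map fun i => (P.dm i : ℤ)).sum - (j : ℤ) * dx - P.dm i =
        g - ((i :: l).map fun i => (P.dm i : ℤ)).sum - (j : ℤ) * dx := by
      rw [List.map_cons, List.sum_cons]
      ring
    have e2 : ((dx : ℤ) - P.dm i) + (g - (l.map fun i => (P.dm i : ℤ)).sum -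
        ((j + 1 : ℕ) : ℤ) * dx) = g - ((i :: l).map fun i => (P.dm i : ℤ)).sum - (j : ℤ) * dx := by
      rw [List.map_cons, List.sum_cons]
      push_cast
      ring
    rw [e1] at h1
    rw [e2] at h2
    exact sub_mem h1 (Submodule.smul_mem _ _ h2)

theorem Fr_SP (T : TS P) (ϑ : P.M → Lam T.dt) (G : ℕ → Lam T.dt)
    (hG : ∀ j, G j ∈ SP T.dt (fun l => 1 ≤ cW l)) (l : List P.M) (j : ℕ) :
    frl T ϑ l G j ∈ SP T.dt (fun l => 1 ≤ cW l) := by
  induction l generalizing j with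
  | nil => exact hG j
  | cons i l ih =>
    have h2 : ϑ i * frl T ϑ l G (j + 1) ∈ SP T.dt (fun l => 1 ≤ cW l) := by
      have h3 := SP_mul_left (SP_zero_top T.dt (ϑ i)) (ih (j + 1))
      rwa [Nat.zero_add] at h3
    exact sub_mem (T.p_SP i (ih j)) (Submodule.smul_mem _ _ h2)

theorem Fr_pt (T : TS P) (ϑ : P.M → Lam T.dt) (hϑ : ∀ i, ϑ i = 0 ∨ ∃ j, ϑ i = T.gX j)
    (G : ℕ → Lam T.dt) (l : List P.M) (hl : ∀ k ∈ l, ∀ i, T.p k (ϑ i) = 0)
    {K : Type} [CommRing K] [Algebra ℚ K] (θ : Lam T.dt →ₐ[ℚ] K) (hθ : ∀ i, θ (ϑ i) = 0)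
    (j : ℕ) : θ (frl T ϑ l G j) = θ (T.pl l (G j)) := by
  have h0 : ∀ x ∈ Submodule.span ℚ {y : Lam T.dt | ∃ i a, y = ϑ i * a}, θ x = 0 := by
    intro x hx
    induction hx using Submodule.span_induction with
    | mem x hx =>
      obtain ⟨i, a, rfl⟩ := hx
      rw [map_mul, hθ, zero_mul]
    | zero => rw [map_zero]
    | add x y _ _ hx hy => rw [map_add, hx, hy, add_zero]
    | smul r x _ hx => rw [map_smul, hx, smul_zero]
  have h1 : ∀ k ∈ l, ∀ x ∈ Submodule.span ℚ {y : Lam T.dt | ∃ i a, y = ϑ i * a},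
      T.p k x ∈ Submodule.span ℚ {y : Lam T.dt | ∃ i a, y = ϑ i * a} := by
    intro k hk x hx
    induction hx using Submodule.span_induction with
    | mem x hx =>
      obtain ⟨i, a, rfl⟩ := hx
      have e : T.p k (ϑ i * a) = T.p k (ϑ i) * a + sgn T.dt (ϑ i) * T.p k a :=
        pdv_mul (T.odd k) (ϑ i) a
      rw [e, hl k hk i, zero_mul, zero_add, fr_sgn T ϑ hϑ i, neg_mul]
      exact neg_mem (Submodule.subset_span ⟨i, _, rfl⟩)
    | zero => rw [map_zero]; exact zero_mem _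
    | add x y _ _ hx hy => rw [map_add]; exact add_mem hx hy
    | smul r x _ hx => rw [map_smul]; exact Submodule.smul_mem _ _ hx
  have h2 : ∀ j, frl T ϑ l G j - T.pl l (G j) ∈
      Submodule.span ℚ {y : Lam T.dt | ∃ i a, y = ϑ i * a} := by
    clear hl
    induction l with
    | nil =>
      intro j
      have e : frl T ϑ [] G j - T.pl [] (G j) = 0 := sub_self _
      rw [e]
      exact zero_mem _
    | cons k l ih =>
      intro j
      have h3 := ih (fun k' hk' => h1 k' (List.mem_cons_of_mem _ hk')) j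
      have h4 := h1 k List.mem_cons_self _ h3
      rw [map_sub] at h4
      have h5 : ((j + 1 : ℕ) : ℚ) • (ϑ k * frl T ϑ l G (j + 1)) ∈
          Submodule.span ℚ {y : Lam T.dt | ∃ i a, y = ϑ i * a} :=
        Submodule.smul_mem _ _ (Submodule.subset_span ⟨k, _, rfl⟩)
      have e : frl T ϑ (k :: l) G j - T.pl (k :: l) (G j) =
          (T.p k (frl T ϑ l G j) - T.p k (T.pl l (G j))) -
            ((j + 1 : ℕ) : ℚ) • (ϑ k * frl T ϑ l G (j + 1)) := by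
        change (T.p k (frl T ϑ l G j) - ((j + 1 : ℕ) : ℚ) • (ϑ k * frl T ϑ l G (j + 1))) -
          T.p k (T.pl l (G j)) = _
        abel
      rw [e]
      exact sub_mem h4 h5
  have h3 := h0 _ (h2 j)
  rw [map_sub] at h3
  exact sub_eq_zero.1 h3

end AnWL
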