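import Pool.Agent.Helper84.G2.Bs
import Pool.Agent.Helper84.G2.Cx

/-!
G2/Ft. The closed families `F^t` for the even generators `t` with `d t` in the ideal generated by `A`.

`δx = Sum.elim T.dt dc` on `(T.ι ⊕ (U ⊕ M)) ⊕ C`, `Dx = der δx` with the values `iL T.dt dc (T.D (gen x))` on `inl x` and `iL T.dt dc (q c)` on `inr c`
(`Dx (iL a) = iL (T.D a)`, `Dx ∘ Dx = 0` by `der_sq`, see `C08a.lean`). `koszul_words` (`Kw.lean`) with `κ = (U ⊕ M) ⊕ C`, `α (inl (inl u)) = inl (inl (f u.1))`,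
`α (inl (inr j)) = inl (inl (f j.1))`, `α (inr c) = inl (inl (f c.1))`, `β (inl s) = inl (inr s)`, `β (inr c) = inr c`; `w = 1` on `inl (inl i)`, `0` on the other letters, `Ok = True`,
`E x` = `x = inl (inl (f a))` with `a ∈ A`, or `x = β s` (every `a ∈ A` is `u.1`, `j.1` or `c.1`; `U`, `M`, `C` are disjoint, so `α` is injective: `U_mem`, `M_mem`). `p = iL (T.D (gW (f t)))`
(as in `exists_F`, `C09.lean`: `min_SP`, `ht`, `SP_ideal`). `F̂ = gen (inl (inl (f t))) - k`, `F b = cf b F̂` (`exists_cf`, `Cx.lean`). `cf_mon` gives: `cf b` of a word with `w`-weight `≥ 1` is a word with `1 ≤ cW`; `cf 0` kills the words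
with a letter `inr c`, and a word with a letter `β s` and no `inr c` contains some `inl (inr s)`. Homogeneity: `SP_pr`, `degSum l = degSum (lefts l) + wt dc (cnt l)`, `hz_of_hom`/`hz_iff` (`Gr.lean`; if the degree would be
negative there are no words).
-/

set_option autoImplicit false

namespace AnWL
open Anick2

/-- The odd generators in `A` and not in `O`. -/
def CO {ι : Type} (deg : ι → ℕ) (A O : Set ι) : Set ι := {c | c ∈ A ∧ c ∉ O ∧ Odd (deg c)}

/-! ### the count of the letters -/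

private theorem ft_cW_cons {ι κ : Type} (x : ι ⊕ κ) (l : List (ι ⊕ κ)) :
    cW (x :: l) = Sum.elim (fun _ => 1) (fun _ => 0) x + cW l := by
  rcases x with i | s
  · have h1 : cW (Sum.inl i :: l) = cW l + 1 := rfl
    rw [h1, Sum.elim_inl, Nat.add_comm]
  · simp [cW]

private theorem ft_cW_nil {ι κ : Type} : cW ([] : List (ι ⊕ κ)) = 0 := by simp [cW]

private theorem ft_cW_map {ι κ : Type} (l : List ι) :
    cW (l.map (Sum.inl : ι → ι ⊕ κ)) = l.length := by
  induction l with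
  | nil => simp [cW]
  | cons i l ih =>
    rw [List.map_cons, ft_cW_cons, ih, List.length_cons, Sum.elim_inl]
    omega

/-- The weight of a letter. -/
private def ftw {ι κ C : Type} : (ι ⊕ κ) ⊕ C → ℕ :=
  Sum.elim (Sum.elim (fun _ => 1) (fun _ => 0)) (fun _ => 0)

private theorem ft_lefts_inl {X C : Type} (x : X) (l : List (X ⊕ C)) :
    lefts (Sum.inl x :: l) = x :: lefts l := rfl

private theorem ft_lefts_inr {X C : Type} (e : C) (l : List (X ⊕ C)) :
    lefts (Sum.inr e :: l) = lefts l := rfl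

private theorem ft_cnt_inl {X C : Type} (x : X) (l : List (X ⊕ C)) :
    cnt (Sum.inl x :: l) = cnt l := by
  unfold cnt
  rw [List.map_cons, List.sum_cons, Sum.elim_inl, zero_add]

private theorem ft_cnt_inr {X C : Type} (e : C) (l : List (X ⊕ C)) :
    cnt (Sum.inr e :: l) = Finsupp.single e 1 + cnt l := by
  unfold cnt
  rw [List.map_cons, List.sum_cons, Sum.elim_inr]

private theorem ft_lefts_w {ι κ C : Type} (l : List ((ι ⊕ κ) ⊕ C)) :
    (l.map ftw).sum = cW (lefts l) := by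
  induction l with
  | nil => simp [lefts, cW]
  | cons x l ih =>
    rw [List.map_cons, List.sum_cons, ih]
    rcases x with x | e
    · rw [ft_lefts_inl, ft_cW_cons]
      rfl
    · rw [ft_lefts_inr]
      exact Nat.zero_add _

private theorem ft_map_w {ι κ C : Type} (l : List (ι ⊕ κ)) :
    ((l.map (Sum.inl : ι ⊕ κ → (ι ⊕ κ) ⊕ C)).map ftw).sum = cW l := by
  induction l with
  | nil => simp [cW]
  | cons x l ih =>
    rw [List.map_cons, List.map_cons, List.sum_cons, ih, ft_cW_cons]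
    rfl

private theorem ft_deg {X C : Type} [Fintype C] (δ : X → ℕ) (dc : C → ℕ) (l : List (X ⊕ C)) :
    (degSum (Sum.elim δ dc) l : ℤ) = degSum δ (lefts l) + wt dc (cnt l) := by
  induction l with
  | nil =>
    have h1 : cnt ([] : List (X ⊕ C)) = 0 := by simp [cnt]
    have h2 : lefts ([] : List (X ⊕ C)) = [] := rfl
    rw [h1, h2, wt_zero, degSum_nil, degSum_nil]
    simp
  | cons x l ih =>
    rw [degSum_cons]
    rcases x with x | e
    · rw [ft_cnt_inl, ft_lefts_inl, degSum_cons, Sum.elim_inl]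
      push_cast
      rw [ih]
      ring
    · rw [ft_cnt_inr, ft_lefts_inr, wt_add, wt_single, Sum.elim_inr]
      push_cast
      rw [ih]
      ring

private theorem ft_lefts_mem {X C : Type} {x : X} {l : List (X ⊕ C)} (h : Sum.inl x ∈ l) :
    x ∈ lefts l := by
  unfold lefts
  rw [List.mem_filterMap]
  exact ⟨Sum.inl x, h, rfl⟩

private theorem ft_cnt_mem {X C : Type} {e : C} {l : List (X ⊕ C)} (h : Sum.inr e ∈ l) :
    cnt l ≠ 0 := by
  intro h0
  have h1 : cnt l e = 0 := by rw [h0]; rfl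
  clear h0
  induction l with
  | nil => exact absurd h (by simp)
  | cons x l ih =>
    rcases x with x | e'
    · rw [ft_cnt_inl] at h1
      refine ih ?_ h1
      rcases List.mem_cons.1 h with h | h
      · exact absurd h.symm Sum.inl_ne_inr
      · exact h
    · rw [ft_cnt_inr, Finsupp.add_apply] at h1
      rcases List.mem_cons.1 h with h | h
      · have h2 : e = e' := Sum.inr_injective h
        subst h2
        rw [Finsupp.single_eq_same] at h1
        omega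
      · exact ih h (by omega)

attribute [local irreducible] instRingLam

/-! ### the differential of the extended algebra -/

private theorem ft_der_mapL {α β : Type} {dα : α → ℕ} {dβ : β → ℕ} (g : α → β)
    (hg : ∀ x, dβ (g x) = dα x) (val : β → Lam dβ) (hval : ∀ x, val x ∈ hom dβ (dβ x + 1))
    (d1 : Lam dα →ₗ[ℚ] Lam dα) (hd1 : IsDifferential (hom dα) d1)
    (h : ∀ x, val (g x) = mapL g hg (d1 (gen dα x))) (a : Lam dα) :
    der dβ val hval (mapL g hg a) = mapL g hg (d1 a) := by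
  induction a using Lam.induction with
  | hm l =>
    induction l with
    | nil => rw [mon_nil, map_one, der_one, d_one hd1, map_zero]
    | cons x l ih =>
      rw [mon_cons, map_mul, mapL_gen, der_mul, der_gen, h, ih, d_mul hd1, map_add, map_mul,
        map_mul, mapL_sgn, mapL_gen]
  | h0 => rw [map_zero, map_zero, map_zero, map_zero]
  | hadd a b ha hb => rw [map_add, map_add, map_add, map_add, ha, hb]
  | hsmul r a ha => rw [map_smul, map_smul, map_smul, map_smul, ha]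

private theorem ft_Dx {X C : Type} {δ : X → ℕ} {dc : C → ℕ} (D : Lam δ →ₗ[ℚ] Lam δ)
    (hD : IsDifferential (hom δ) D) (q : C → Lam δ) (hq : ∀ c, q c ∈ hom δ (dc c + 1))
    (hqD : ∀ c, D (q c) = 0) :
    ∃ Dx : Lam (Sum.elim δ dc) →ₗ[ℚ] Lam (Sum.elim δ dc),
      IsDifferential (hom (Sum.elim δ dc)) Dx ∧
      (∀ a, Dx (iL δ dc a) = iL δ dc (D a)) ∧
      ∀ e, Dx (gen (Sum.elim δ dc) (Sum.inr e)) = iL δ dc (q e) := by
  let val : X ⊕ C → Lam (Sum.elim δ dc) :=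
    Sum.elim (fun x => iL δ dc (D (gen δ x))) (fun c => iL δ dc (q c))
  have hval : ∀ x, val x ∈ hom (Sum.elim δ dc) (Sum.elim δ dc x + 1) := by
    rintro (x | c)
    · exact mapL_hom (deg := Sum.elim δ dc) (deg' := δ) (f := Sum.inl)
        (fun _ => rfl) (hD.map_hom _ _ (gen_mem_hom δ x))
    · exact mapL_hom (deg := Sum.elim δ dc) (deg' := δ) (f := Sum.inl)
        (fun _ => rfl) (hq c)
  have hiL : ∀ a, der (Sum.elim δ dc) val hval (iL δ dc a) = iL δ dc (D a) := fun a =>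
    ft_der_mapL (dβ := Sum.elim δ dc) Sum.inl (fun _ => rfl) val hval D hD (fun _ => rfl) a
  refine ⟨der (Sum.elim δ dc) val hval,
    ⟨fun n a ha => der_mem _ _ _ ha, fun n a ha b => der_leibniz _ _ _ ha b, ?_⟩, hiL,
    fun e => der_gen _ _ _ _⟩
  intro a
  refine der_sq _ _ _ ?_ a
  rintro (x | c)
  · have h1 := hiL (D (gen δ x))
    rw [hD.d_d, map_zero] at h1
    exact h1
  · have h1 := hiL (q c)
    rw [hqD, map_zero] at h1
    exact h1

/-! ### the coefficients of the combinations of words -/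

private theorem ft_cf {X C : Type} {δ : X → ℕ} {dc : C → ℕ}
    {cf : Lam (Sum.elim δ dc) →ₗ[ℚ] Lam δ} {b : C →₀ ℕ}
    (hcf : ∀ l, (cnt l = b → cf (mon (Sum.elim δ dc) l) = mon δ (lefts l)) ∧
      (cnt l ≠ b → cf (mon (Sum.elim δ dc) l) = 0))
    {p : List (X ⊕ C) → Prop} {r : List X → Prop} (h : ∀ l, p l → cnt l = b → r (lefts l))
    {a : Lam (Sum.elim δ dc)} (ha : a ∈ SP (Sum.elim δ dc) p) : cf a ∈ SP δ r := by
  unfold SP at ha
  induction ha using Submodule.span_induction with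
  | mem x hx =>
    obtain ⟨l, hl, rfl⟩ := hx
    by_cases hb : cnt l = b
    · rw [(hcf l).1 hb]
      exact SP_mon (h l hl hb)
    · rw [(hcf l).2 hb]
      exact zero_mem _
  | zero => rw [map_zero]; exact zero_mem _
  | add y z _ _ hy hz => rw [map_add]; exact add_mem hy hz
  | smul r y _ hy => rw [map_smul]; exact Submodule.smul_mem _ _ hy

private theorem ft_hz {P : Par} (T : TS P) {C : Type} [Fintype C] {dc : C → ℕ} {n : ℕ}
    {b : C →₀ ℕ} {cf : Lam (Sum.elim T.dt dc) →ₗ[ℚ] Lam T.dt}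
    (hcf : ∀ l, (cnt l = b → cf (mon (Sum.elim T.dt dc) l) = mon T.dt (lefts l)) ∧
      (cnt l ≠ b → cf (mon (Sum.elim T.dt dc) l) = 0))
    {a : Lam (Sum.elim T.dt dc)} (ha : a ∈ hom (Sum.elim T.dt dc) n) :
    cf a ∈ T.hz (n - wt dc b) := by
  refine hom_induction (Sum.elim T.dt dc) (C := fun a => cf a ∈ T.hz (n - wt dc b))
    (fun l hl => ?_) (by rw [map_zero]; exact zero_mem _)
    (fun x y hx hy => by rw [map_add]; exact add_mem hx hy)
    (fun r x hx => by rw [map_smul]; exact Submodule.smul_mem _ _ hx) ha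
  by_cases hb : cnt l = b
  · rw [(hcf l).1 hb]
    have h1 := ft_deg T.dt dc l
    rw [hb, hl] at h1
    have h2 : (n : ℤ) - wt dc b = degSum T.dt (lefts l) := by rw [h1]; ring
    rw [h2]
    exact hz_of_hom T (mon_mem_hom T.dt _)
  · rw [(hcf l).2 hb]
    exact zero_mem _

/-- The family attached to an odd family of coordinates. -/
private theorem ft_core {P : Par} (T : TS P) {C : Type} [Fintype C] (dc : C → ℕ)
    (hdc : ∀ e, Even (dc e)) (hdp : ∀ e, 1 ≤ dc e) (hP : ∀ s, 1 ≤ P.dq s)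
    (q : C → Lam T.dt) (hq : ∀ c, q c ∈ hom T.dt (dc c + 1)) (hqD : ∀ c, T.D (q c) = 0)
    (α : (P.U ⊕ P.M) ⊕ C → T.ι) (hα : Function.Injective α)
    (hα1 : ∀ s, P.dq s + 1 = T.deg (α (Sum.inl s)))
    (hα2 : ∀ c, dc c + 1 = T.deg (α (Sum.inr c)))
    (hd : ∀ s, T.D (T.gW (α s)) ∈
      SP T.dt (fun l => 2 ≤ cW l ∧ ∃ s', Sum.inl (α s') ∈ l))
    (hs : ∀ s, T.D (gen T.dt (Sum.inr s)) - T.gW (α (Sum.inl s)) ∈
      SP T.dt (fun l => 1 ≤ cW l ∧ 2 ≤ l.length ∧
        ∃ x ∈ l, (∃ s', x = Sum.inl (α s')) ∨ ∃ v, x = Sum.inr v))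
    (hc : ∀ c, q c - T.gW (α (Sum.inr c)) ∈
      SP T.dt (fun l => 1 ≤ cW l ∧ 2 ≤ l.length ∧ ∃ s', Sum.inl (α s') ∈ l))
    {n : ℕ} {t : T.ι} (ht : T.deg t = n)
    (hpt : T.D (T.gW t) ∈ SP T.dt (fun l => 2 ≤ cW l ∧ ∃ s', Sum.inl (α s') ∈ l)) :
    ∃ F : (C →₀ ℕ) → Lam T.dt,
      T.Cf q dc n F ∧ (∀ b, F b ∈ SP T.dt (fun l => 1 ≤ cW l)) ∧
      T.gW t - F 0 ∈ SP T.dt (fun l => 1 ≤ cW l ∧ ∃ s, Sum.inr s ∈ l) := by
  classical
  have hfX : Finite (T.ι ⊕ (P.U ⊕ P.M)) := T.finT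
  have hfXC : Finite ((T.ι ⊕ (P.U ⊕ P.M)) ⊕ C) := inferInstance
  obtain ⟨Dx, hDx, hDL, hDR⟩ := ft_Dx (dc := dc) T.D T.diff q hq hqD
  obtain ⟨cf, hcf, hcD⟩ := exists_cf T.dt dc hdc
  have hiLg : ∀ x, iL T.dt dc (gen T.dt x) = gen (Sum.elim T.dt dc) (Sum.inl x) :=
    fun x => mapL_gen (deg := Sum.elim T.dt dc) (deg' := T.dt) (f := Sum.inl) (fun _ => rfl) x
  have hpos : ∀ x, 1 ≤ Sum.elim T.dt dc x := by
    rintro ((i | s) | c)
    · have h1 := T.S.two_le i
      change 1 ≤ T.deg i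
      omega
    · exact hP s
    · exact hdp c
  -- the letters
  let αx : (P.U ⊕ P.M) ⊕ C → (T.ι ⊕ (P.U ⊕ P.M)) ⊕ C := fun s => Sum.inl (Sum.inl (α s))
  let βx : (P.U ⊕ P.M) ⊕ C → (T.ι ⊕ (P.U ⊕ P.M)) ⊕ C :=
    Sum.elim (fun s => Sum.inl (Sum.inr s)) (fun c => Sum.inr c)
  let E : (T.ι ⊕ (P.U ⊕ P.M)) ⊕ C → Prop := fun x => (∃ s, x = αx s) ∨ ∃ s, x = βx s
  -- transfer of words
  have hSL : ∀ {p : List (T.ι ⊕ (P.U ⊕ P.M)) → Prop}
      {r : List ((T.ι ⊕ (P.U ⊕ P.M)) ⊕ C) → Prop} (_ : ∀ l, p l → r (l.map Sum.inl))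
      {a : Lam T.dt}, a ∈ SP T.dt p → iL T.dt dc a ∈ SP (Sum.elim T.dt dc) r := by
    intro p r h a ha
    exact SP_mapL (δ' := Sum.elim T.dt dc) Sum.inl (fun _ => rfl) h ha
  have hDW : ∀ i, T.D (T.gW i) ∈ SP T.dt (fun l => 2 ≤ cW l ∧ 2 ≤ l.length) := by
    intro i
    have e : T.gW i = iL T.deg P.dq (gen T.deg i) := (mapL_gen _ i).symm
    rw [e, T.ext]
    refine SP_mapL (δ' := T.dt) Sum.inl (fun _ => rfl) ?_ (min_SP T.S i)
    intro l hl
    exact ⟨by rw [ft_cW_map]; exact hl, by rw [List.length_map]; exact hl⟩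
  have hlen : ∀ {l : List (T.ι ⊕ (P.U ⊕ P.M))}, 2 ≤ cW l → 2 ≤ l.length := by
    intro l hl
    exact hl.trans (List.length_filter_le _ _)
  have hDl : ∀ x, True → (∀ s, x ≠ βx s) → Dx (gen (Sum.elim T.dt dc) x) ∈
      SP (Sum.elim T.dt dc) (fun l => 2 ≤ l.length ∧
        ftw x + 1 ≤ (l.map ftw).sum ∧ (∀ y ∈ l, True) ∧ (E x → ∃ y ∈ l, E y)) := by
    rintro ((i | s) | c) - hx
    · rw [← hiLg, hDL]
      by_cases hE : E (Sum.inl (Sum.inl i))
      · have hi : ∃ s, i = α s := by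
          rcases hE with ⟨s, hs'⟩ | ⟨s, hs'⟩
          · exact ⟨s, Sum.inl_injective (Sum.inl_injective hs')⟩
          · exact absurd hs' (hx s)
        obtain ⟨s, rfl⟩ := hi
        refine hSL ?_ (hd s)
        rintro l ⟨g1, s', g2⟩
        refine ⟨by rw [List.length_map]; exact hlen g1, ?_, fun _ _ => trivial, fun _ => ?_⟩
        · rw [ft_map_w]
          exact g1
        · exact ⟨αx s', List.mem_map.2 ⟨_, g2, rfl⟩, Or.inl ⟨s', rfl⟩⟩
      · refine hSL ?_ (hDW i)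
        rintro l ⟨g1, g2⟩
        refine ⟨by rw [List.length_map]; exact g2, ?_, fun _ _ => trivial,
          fun h => absurd h hE⟩
        rw [ft_map_w]
        exact g1
    · exact absurd rfl (hx (Sum.inl s))
    · exact absurd rfl (hx (Sum.inr c))
  have hDβ : ∀ s, Dx (gen (Sum.elim T.dt dc) (βx s)) - gen (Sum.elim T.dt dc) (αx s) ∈
      SP (Sum.elim T.dt dc) (fun l => 2 ≤ l.length ∧
        1 ≤ (l.map ftw).sum ∧ (∀ y ∈ l, True) ∧ ∃ y ∈ l, E y) := by
    rintro (s | c)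
    · have e1 : Dx (gen (Sum.elim T.dt dc) (βx (Sum.inl s))) -
          gen (Sum.elim T.dt dc) (αx (Sum.inl s)) =
          iL T.dt dc (T.D (gen T.dt (Sum.inr s)) - T.gW (α (Sum.inl s))) := by
        rw [map_sub, hiLg, ← hDL, hiLg]
        rfl
      rw [e1]
      refine hSL ?_ (hs s)
      rintro l ⟨g1, g2, x, g3, g4⟩
      refine ⟨by rw [List.length_map]; exact g2, by rw [ft_map_w]; exact g1,
        fun _ _ => trivial, Sum.inl x, List.mem_map.2 ⟨x, g3, rfl⟩, ?_⟩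
      rcases g4 with ⟨s', rfl⟩ | ⟨v, rfl⟩
      · exact Or.inl ⟨s', rfl⟩
      · exact Or.inr ⟨Sum.inl v, rfl⟩
    · have e1 : Dx (gen (Sum.elim T.dt dc) (βx (Sum.inr c))) -
          gen (Sum.elim T.dt dc) (αx (Sum.inr c)) =
          iL T.dt dc (q c - T.gW (α (Sum.inr c))) := by
        rw [map_sub, hiLg, ← hDR]
        rfl
      rw [e1]
      refine hSL ?_ (hc c)
      rintro l ⟨g1, g2, s', g3⟩
      exact ⟨by rw [List.length_map]; exact g2, by rw [ft_map_w]; exact g1,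
        fun _ _ => trivial, αx s', List.mem_map.2 ⟨_, g3, rfl⟩, Or.inl ⟨s', rfl⟩⟩
  have hp : iL T.dt dc (T.D (T.gW t)) ∈ SP (Sum.elim T.dt dc)
      (fun l => 2 ≤ (l.map ftw).sum ∧ (∀ y ∈ l, True) ∧ ∃ y ∈ l, E y) := by
    refine hSL ?_ hpt
    rintro l ⟨g1, s', g2⟩
    exact ⟨by rw [ft_map_w]; exact g1, fun _ _ => trivial, αx s',
      List.mem_map.2 ⟨_, g2, rfl⟩, Or.inl ⟨s', rfl⟩⟩
  have hgW : T.gW t ∈ hom T.dt n := by
    have h1 := gen_mem_hom T.dt (Sum.inl t)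
    change T.gW t ∈ hom T.dt (T.deg t) at h1
    rwa [ht] at h1
  have hpn : iL T.dt dc (T.D (T.gW t)) ∈ hom (Sum.elim T.dt dc) (n + 1) :=
    mapL_hom (deg := Sum.elim T.dt dc) (deg' := T.dt) (f := Sum.inl) (fun _ => rfl)
      (T.diff.map_hom _ _ hgW)
  have hDp : Dx (iL T.dt dc (T.D (T.gW t))) = 0 := by
    rw [hDL, T.diff.d_d, map_zero]
  obtain ⟨k, hk1, hk2, hk3⟩ := koszul_words hpos Dx hDx αx βx
    (fun s s' h => hα (Sum.inl_injective (Sum.inl_injective h)))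
    (by
      rintro (s | c)
      · exact hα1 s
      · exact hα2 c)
    ftw (by rintro ((i | s) | c) <;> simp [ftw]) (fun s => rfl)
    (by rintro (s | c) <;> rfl) (fun _ => True) E (fun _ _ => trivial)
    (fun s => Or.inl ⟨s, rfl⟩) (fun s => Or.inr ⟨s, rfl⟩) (fun _ h => h)
    (by
      rintro s (s' | c) h
      · exact absurd (Sum.inl_injective h) Sum.inl_ne_inr
      · exact absurd h Sum.inl_ne_inr)
    hDl hDβ hp hpn hDp
  -- the closed element of the extended algebra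
  have hgx : gen (Sum.elim T.dt dc) (Sum.inl (Sum.inl t)) ∈ hom (Sum.elim T.dt dc) n := by
    rw [← hiLg]
    exact mapL_hom (deg := Sum.elim T.dt dc) (deg' := T.dt) (f := Sum.inl) (fun _ => rfl) hgW
  have hFn : gen (Sum.elim T.dt dc) (Sum.inl (Sum.inl t)) - k ∈ hom (Sum.elim T.dt dc) n :=
    sub_mem hgx hk1
  have hFD : Dx (gen (Sum.elim T.dt dc) (Sum.inl (Sum.inl t)) - k) = 0 := by
    rw [map_sub, hk2, ← hiLg, hDL, sub_self]
  have hFw : gen (Sum.elim T.dt dc) (Sum.inl (Sum.inl t)) - k ∈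
      SP (Sum.elim T.dt dc) (fun l => 1 ≤ (l.map ftw).sum) := by
    refine sub_mem (SP_gen ?_) (SP_imp (fun l hl => hl.1) hk3)
    simp [ftw]
  refine ⟨fun b => cf b (gen (Sum.elim T.dt dc) (Sum.inl (Sum.inl t)) - k), ⟨?_, ?_⟩, ?_, ?_⟩
  · intro b
    exact ft_hz T (hcf b) hFn
  · intro b
    have h1 := hcD T.D T.diff q (fun e => ?_) Dx hDx (fun x => by rw [← hiLg, hDL]) hDR
      (gen (Sum.elim T.dt dc) (Sum.inl (Sum.inl t)) - k) b
    · rw [hFD, map_zero] at h1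
      exact eq_neg_of_add_eq_zero_left h1.symm
    · have hodd : Odd (dc e + 1) := (hdc e).add_one
      rw [sgn_hom T.dt (hq e), hodd.neg_one_pow, Algebra.smul_def, map_neg, map_one, neg_one_mul]
  · intro b
    refine ft_cf (hcf b) ?_ hFw
    intro l hl _
    rw [← ft_lefts_w]
    exact hl
  · have h1 : cf 0 (gen (Sum.elim T.dt dc) (Sum.inl (Sum.inl t))) = T.gW t := by
      have h2 := (hcf 0 [Sum.inl (Sum.inl t)]).1 (by rw [ft_cnt_inl]; simp [cnt])
      rw [mon_cons, mon_nil, mul_one, ft_lefts_inl] at h2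
      rw [h2]
      change mon T.dt [Sum.inl t] = _
      rw [mon_cons, mon_nil, mul_one]
    have h2 : T.gW t - cf 0 (gen (Sum.elim T.dt dc) (Sum.inl (Sum.inl t)) - k) = cf 0 k := by
      rw [map_sub, h1, sub_sub_cancel]
    rw [h2]
    refine ft_cf (hcf 0) ?_ hk3
    rintro l ⟨g1, -, -, s, g2⟩ g3
    refine ⟨by rw [← ft_lefts_w]; exact g1, ?_⟩
    rcases s with s | c
    · exact ⟨s, ft_lefts_mem g2⟩
    · exact absurd g3 (ft_cnt_mem g2)

private theorem ft_dq {ι : Type} [Finite ι] {deg : ι → ℕ} (S : MinimalSullivan deg) (A : Set ι)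
    (N : ℕ) (hN : 1 ≤ N) (s : (PA S A N hN).U ⊕ (PA S A N hN).M) :
    (PA S A N hN).dq s + 1 = deg (aa S A N hN s) := by
  rcases s with u | u
  · have h2 := S.two_le u.1
    have h3 : (PA S A N hN).du u = deg u.1 - 1 := rfl
    change (PA S A N hN).du u + 1 = deg u.1
    rw [h3]
    omega
  · have h2 := S.two_le u.1
    have h3 : (PA S A N hN).dm u = deg u.1 - 1 := rfl
    change (PA S A N hN).dm u + 1 = deg u.1
    rw [h3]
    omega

theorem exists_FM {ι : Type} [Finite ι] {deg : ι → ℕ} (S : MinimalSullivan deg)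
    (A O : Set ι) (hS : S.PureMod A O) (n₀ N : ℕ) (hN : 1 ≤ N)
    (T : TS (PA S (AO deg A O) N hN)) (f : ι → T.ι) (h : IsBaseM S A O n₀ N hN T f)
    [Fintype (CO deg A O)] (q : CO deg A O → Lam T.dt)
    (hq : ∀ c, q c ∈ hom T.dt (deg c.1)) (hqD : ∀ c, T.D (q c) = 0)
    (hqc : ∀ c, q c - T.gW (f c.1) ∈ SP T.dt (fun l => 1 ≤ cW l ∧ 2 ≤ l.length ∧
        ∃ a ∈ A, Sum.inl (f a) ∈ l))
    (t : ι) (ht : S.d (gen deg t) ∈ idealSpan (gen deg '' A)) :
    ∃ F : (CO deg A O →₀ ℕ) → Lam T.dt,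
      T.Cf q (fun c => deg c.1 - 1) (deg t) F ∧ (∀ b, F b ∈ SP T.dt (fun l => 1 ≤ cW l)) ∧
      T.gW (f t) - F 0 ∈ SP T.dt (fun l => 1 ≤ cW l ∧ ∃ s, Sum.inr s ∈ l) := by
  classical
  let αi : ((PA S (AO deg A O) N hN).U ⊕ (PA S (AO deg A O) N hN).M) ⊕ CO deg A O → ι :=
    Sum.elim (aa S (AO deg A O) N hN) (fun c => c.1)
  have hmem : ∀ s, αi s ∈ A := by
    rintro ((u | j) | c)
    · exact hS.sub (U_mem hS u)
    · exact (M_mem hS j).1
    · exact c.2.1
  have hsurj : ∀ a ∈ A, ∃ s, αi s = a := by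
    intro a ha
    by_cases he : Even (deg a)
    · obtain ⟨j, hj⟩ := M_surj (S := S) (O := O) (N := N) (hN := hN) ha he
      exact ⟨Sum.inl (Sum.inr j), hj⟩
    · by_cases ho : a ∈ O
      · obtain ⟨u, hu⟩ := U_surj (N := N) (hN := hN) hS ho
        exact ⟨Sum.inl (Sum.inl u), hu⟩
      · exact ⟨Sum.inr ⟨a, ha, ho, Nat.not_even_iff_odd.1 he⟩, rfl⟩
  have hinj : Function.Injective αi := by
    have hUM : ∀ (u : (PA S (AO deg A O) N hN).U) (j : (PA S (AO deg A O) N hN).M),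
        u.1 ≠ j.1 := by
      intro u j huj
      have h1 : Odd (deg u.1) := u.2.2
      rw [huj] at h1
      exact Nat.not_even_iff_odd.2 h1 j.2.2
    have hUC : ∀ (u : (PA S (AO deg A O) N hN).U) (c : CO deg A O), u.1 ≠ c.1 := by
      intro u c huc
      have h1 := U_mem hS u
      rw [huc] at h1
      exact c.2.2.1 h1
    have hMC : ∀ (j : (PA S (AO deg A O) N hN).M) (c : CO deg A O), j.1 ≠ c.1 := by
      intro j c hjc
      have h1 : Even (deg j.1) := j.2.2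
      rw [hjc] at h1
      exact Nat.not_even_iff_odd.2 c.2.2.2 h1
    rintro ((u | j) | c) ((u' | j') | c') huv
    · have h1 : u.1 = u'.1 := huv
      rw [Subtype.ext h1]
    · exact absurd huv (hUM u j')
    · exact absurd huv (hUC u c')
    · exact absurd huv.symm (hUM u' j)
    · have h1 : j.1 = j'.1 := huv
      rw [Subtype.ext h1]
    · exact absurd huv (hMC j c')
    · exact absurd huv.symm (hUC u' c)
    · exact absurd huv.symm (hMC j' c)
    · have h1 : c.1 = c'.1 := huv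
      rw [Subtype.ext h1]
  have hDg : ∀ i, T.D (T.gW i) =
      iL T.deg (PA S (AO deg A O) N hN).dq (T.S.d (gen T.deg i)) := by
    intro i
    rw [← T.ext]
    congr 1
    exact (mapL_gen _ i).symm
  have hdf : ∀ {p : List ι → Prop} {r : List (T.ι ⊕ ((PA S (AO deg A O) N hN).U ⊕
      (PA S (AO deg A O) N hN).M)) → Prop} (a : ι),
      (∀ l, p l → r ((l.map f).map Sum.inl)) → S.d (gen deg a) ∈ SP deg p →
        T.D (T.gW (f a)) ∈ SP T.dt r := by
    intro p r a hpq ha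
    have hfgen : T.S.d (gen T.deg (f a)) = mapL f h.deg (S.d (gen deg a)) := by
      rw [← h.d, mapL_gen]
    rw [hDg, hfgen]
    exact SP_mapL (δ' := T.dt) Sum.inl (fun _ => rfl) (p := fun l => ∃ l', p l' ∧ l = l'.map f)
      (by rintro l ⟨l', hl', rfl⟩; exact hpq l' hl')
      (SP_mapL f h.deg (fun l hl => ⟨l, hl, rfl⟩) ha)
  have hdA : ∀ s, T.D (T.gW (f (αi s))) ∈
      SP T.dt (fun l => 2 ≤ cW l ∧ ∃ s', Sum.inl (f (αi s')) ∈ l) := by
    intro s
    refine hdf (p := fun l => (∀ x ∈ l, x ∈ A) ∧ 2 ≤ l.length) (αi s) ?_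
      (SP_imp (fun l hl => ⟨hl.1.1, hl.2⟩) (dA_SP hS (hmem s)))
    rintro l ⟨g1, g2⟩
    refine ⟨by rw [ft_cW_map, List.length_map]; exact g2, ?_⟩
    obtain ⟨x, hx⟩ := List.exists_mem_of_length_pos (show 0 < l.length by omega)
    obtain ⟨s', hs'⟩ := hsurj x (g1 x hx)
    refine ⟨s', ?_⟩
    rw [hs']
    exact List.mem_map.2 ⟨f x, List.mem_map.2 ⟨x, hx, rfl⟩, rfl⟩
  have hdt : T.D (T.gW (f t)) ∈
      SP T.dt (fun l => 2 ≤ cW l ∧ ∃ s', Sum.inl (f (αi s')) ∈ l) := by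
    refine hdf (p := fun l => 2 ≤ l.length ∧ ∃ x ∈ A, x ∈ l) t ?_ (SP_ideal (min_SP S t) ht)
    rintro l ⟨g1, x, hxA, hx⟩
    refine ⟨by rw [ft_cW_map, List.length_map]; exact g1, ?_⟩
    obtain ⟨s', hs'⟩ := hsurj x hxA
    refine ⟨s', ?_⟩
    rw [hs']
    exact List.mem_map.2 ⟨f x, List.mem_map.2 ⟨x, hx, rfl⟩, rfl⟩
  refine ft_core T (fun c : CO deg A O => deg c.1 - 1) ?_ ?_ ?_ q ?_ hqD
    (fun s => f (αi s)) (fun s s' hss => hinj (h.inj hss)) ?_ ?_ hdA ?_ ?_ (h.deg t) hdt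
  · intro e
    obtain ⟨k, hk⟩ := e.2.2.2
    rw [hk]
    exact ⟨k, by omega⟩
  · intro e
    have h2 := S.two_le e.1
    change 1 ≤ deg e.1 - 1
    omega
  · intro s
    have h1 := ft_dq S (AO deg A O) N hN s
    have h2 := S.two_le (aa S (AO deg A O) N hN s)
    omega
  · intro c
    have h2 := S.two_le c.1
    have h3 : deg c.1 - 1 + 1 = deg c.1 := by omega
    change q c ∈ hom T.dt (deg c.1 - 1 + 1)
    rw [h3]
    exact hq c
  · intro s
    change (PA S (AO deg A O) N hN).dq s + 1 = T.deg (f (aa S (AO deg A O) N hN s))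
    rw [h.deg]
    exact ft_dq S (AO deg A O) N hN s
  · intro c
    have h2 := S.two_le c.1
    change deg c.1 - 1 + 1 = T.deg (f c.1)
    rw [h.deg]
    omega
  · rintro (u | j)
    · refine SP_imp ?_ (h.DU u)
      rintro l ⟨g1, g2, g3⟩
      obtain ⟨x, hx⟩ := List.exists_mem_of_length_pos (show 0 < l.length by omega)
      refine ⟨g1, g2, x, hx, ?_⟩
      rcases g3 x hx with ⟨o, ho, hxo⟩ | ⟨v, hv⟩
      · obtain ⟨s', hs'⟩ := hsurj o (hS.sub ho)
        refine Or.inl ⟨s', ?_⟩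
        rw [hs']
        exact hxo
      · exact Or.inr ⟨_, hv⟩
    · refine SP_imp ?_ (h.DX j)
      rintro l ⟨g1, g2, g3, v, g4⟩
      exact ⟨g1, g2, _, g4, Or.inr ⟨_, rfl⟩⟩
  · intro c
    refine SP_imp ?_ (hqc c)
    rintro l ⟨g1, g2, a, ha, g3⟩
    obtain ⟨s', hs'⟩ := hsurj a ha
    refine ⟨g1, g2, s', ?_⟩
    rw [hs']
    exact g3

end AnWL
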