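import Pool.Agent.Helper48.WL.C06f
import Pool.Agent.Helper48.WL.C08l

/-!
G2/Gr. Homogeneous elements of integral degree (`TS.hz`) and the spaces `TS.sp k n` of the combinations of words with at least
`k` letters of `W`, of total degree at least `n`, in a total system.
-/

set_option autoImplicit false

namespace AnWL
open Anick2
variable {P : Par}

/-- The elements of degree `g`. -/
noncomputable def TS.hz (T : TS P) (g : ℤ) : Submodule ℚ (Lam T.dt) where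
  carrier := {a | tau T.dt a = (2 : ℚ) ^ g • a}
  add_mem' := by
    intro a b ha hb
    change tau T.dt (a + b) = (2 : ℚ) ^ g • (a + b)
    rw [map_add, ha, hb, smul_add]
  zero_mem' := by
    change tau T.dt 0 = (2 : ℚ) ^ g • (0 : Lam T.dt)
    rw [map_zero, smul_zero]
  smul_mem' := by
    intro r a ha
    change tau T.dt (r • a) = (2 : ℚ) ^ g • (r • a)
    rw [map_smul, ha, smul_comm]

theorem hz_def (T : TS P) {g : ℤ} {a : Lam T.dt} :
    a ∈ T.hz g ↔ tau T.dt a = (2 : ℚ) ^ g • a := Iff.rfl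

theorem hz_of_hom (T : TS P) {n : ℕ} {a : Lam T.dt} (ha : a ∈ hom T.dt n) : a ∈ T.hz n := by
  rw [hz_def, tau_hom ha, zpow_natCast]

theorem hz_iff (T : TS P) {g : ℤ} {a : Lam T.dt} :
    a ∈ T.hz g ↔ a = 0 ∨ ∃ n : ℕ, (n : ℤ) = g ∧ a ∈ hom T.dt n := by
  constructor
  · intro h
    rcases tau_eig h with h1 | h1
    · exact Or.inr h1
    · exact Or.inl h1
  · rintro (h | ⟨n, rfl, h⟩)
    · rw [h]; exact zero_mem _
    · exact hz_of_hom T h

theorem hz_neg (T : TS P) {g : ℤ} (hg : g < 0) {a : Lam T.dt} (ha : a ∈ T.hz g) : a = 0 := by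
  rcases (hz_iff T).1 ha with h | ⟨n, h, -⟩
  · exact h
  · omega

theorem hz_one (T : TS P) : (1 : Lam T.dt) ∈ T.hz 0 := by
  rw [hz_def, map_one, zpow_zero, one_smul]

theorem hz_mul (T : TS P) {g g' : ℤ} {a b : Lam T.dt} (ha : a ∈ T.hz g) (hb : b ∈ T.hz g') :
    a * b ∈ T.hz (g + g') := by
  rw [hz_def] at ha hb ⊢
  rw [map_mul, ha, hb, smul_mul_smul_comm, zpow_add₀ (by norm_num)]

theorem hz_pow (T : TS P) {g : ℤ} {a : Lam T.dt} (ha : a ∈ T.hz g) (n : ℕ) :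
    a ^ n ∈ T.hz (n * g) := by
  induction n with
  | zero => rw [pow_zero, Nat.cast_zero, zero_mul]; exact hz_one T
  | succ n ih =>
    rw [pow_succ]
    have h := hz_mul T ih ha
    have e : (n : ℤ) * g + g = ((n + 1 : ℕ) : ℤ) * g := by push_cast; ring
    rwa [e] at h

theorem hz_D (T : TS P) {g : ℤ} {a : Lam T.dt} (ha : a ∈ T.hz g) : T.D a ∈ T.hz (g + 1) := by
  rw [hz_def] at ha ⊢
  rw [tau_d T.diff, ha, map_smul, smul_smul, zpow_add₀ (by norm_num), zpow_one, mul_comm]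

theorem hz_p (T : TS P) (j : P.M) {g : ℤ} {a : Lam T.dt} (ha : a ∈ T.hz g) :
    T.p j a ∈ T.hz (g - P.dm j) := by
  rw [hz_def] at ha ⊢
  have h : tau T.dt (T.p j a) = ((2 : ℚ) ^ (-(P.dm j : ℤ))) • T.p j (tau T.dt a) :=
    tau_pdv (T.odd j) a
  rw [h, ha, map_smul, smul_smul, ← zpow_add₀ (by norm_num)]
  congr 2
  ring

theorem hz_Φ {T T' : TS P} (h : T.Hom T') {g : ℤ} {a : Lam T.dt} (ha : a ∈ T.hz g) :
    h.Φ a ∈ T'.hz g := by
  rw [hz_def] at ha ⊢
  rw [Φ_tau, ha, map_smul]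

theorem hz_sgn_even (T : TS P) {g : ℤ} (hg : Even g) {a : Lam T.dt} (ha : a ∈ T.hz g) :
    sgn T.dt a = a := by
  rcases (hz_iff T).1 ha with h | ⟨n, hn, h⟩
  · rw [h, map_zero]
  · have h1 : Even n := by
      rw [← hn] at hg
      exact (Int.even_coe_nat n).1 hg
    rw [sgn_hom T.dt h, h1.neg_one_pow, one_smul]

theorem hz_sgn_odd (T : TS P) {g : ℤ} (hg : Odd g) {a : Lam T.dt} (ha : a ∈ T.hz g) :
    sgn T.dt a = -a := by
  rcases (hz_iff T).1 ha with h | ⟨n, hn, h⟩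
  · rw [h, map_zero, neg_zero]
  · have h1 : Odd n := by
      rw [← hn] at hg
      exact (Int.odd_coe_nat n).1 hg
    rw [sgn_hom T.dt h, h1.neg_one_pow, Algebra.smul_def, map_neg, map_one, neg_one_mul]

/-- The degree of the letters of `W` in a word. -/
def wW {ι κ : Type} (δ : ι → ℕ) (l : List (ι ⊕ κ)) : ℕ := degSum (Sum.elim δ (fun _ => 0)) l

theorem wW_append {ι κ : Type} (δ : ι → ℕ) (l l' : List (ι ⊕ κ)) :
    wW δ (l ++ l') = wW δ l + wW δ l' := degSum_append _ _ _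

theorem cW_append {ι κ : Type} (l l' : List (ι ⊕ κ)) : cW (l ++ l') = cW l + cW l' := by
  unfold cW
  rw [List.filter_append, List.length_append]

/-- The span of the words with at least `k` letters of `W`, of total degree at least `n`. -/
noncomputable def TS.sp (T : TS P) (k n : ℕ) : Submodule ℚ (Lam T.dt) :=
  SP T.dt (fun l => k ≤ cW l ∧ n ≤ wW T.deg l)

theorem sp_mono (T : TS P) {k n k' n' : ℕ} (hk : k' ≤ k) (hn : n' ≤ n) {a : Lam T.dt}
    (ha : a ∈ T.sp k n) : a ∈ T.sp k' n' :=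
  SP_imp (fun _ h => ⟨hk.trans h.1, hn.trans h.2⟩) ha

theorem sp_SP (T : TS P) {k n : ℕ} {a : Lam T.dt} (ha : a ∈ T.sp k n) :
    a ∈ SP T.dt (fun l => k ≤ cW l) := SP_imp (fun _ h => h.1) ha

private theorem gr_two (T : TS P) (l : List (T.ι ⊕ (P.U ⊕ P.M))) : 2 * cW l ≤ wW T.deg l := by
  induction l with
  | nil => exact Nat.zero_le _
  | cons x l ih =>
    have h1 : wW T.deg (x :: l) = Sum.elim T.deg (fun _ => 0) x + wW T.deg l :=
      degSum_cons _ _ _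
    rcases x with i | t
    · have h2 := T.S.two_le i
      have h3 : cW (Sum.inl i :: l) = cW l + 1 := rfl
      rw [h1, h3]
      change 2 * (cW l + 1) ≤ T.deg i + wW T.deg l
      omega
    · have h3 : cW (Sum.inr t :: l) = cW l := rfl
      rw [h1, h3]
      change 2 * cW l ≤ 0 + wW T.deg l
      omega

theorem sp_of_SP (T : TS P) {k : ℕ} {a : Lam T.dt} (ha : a ∈ SP T.dt (fun l => k ≤ cW l)) :
    a ∈ T.sp k (2 * k) := by
  refine SP_imp (fun l h => ⟨h, ?_⟩) ha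
  have := gr_two T l
  omega

theorem sp_zero (T : TS P) (a : Lam T.dt) : a ∈ T.sp 0 0 :=
  SP_imp (fun _ _ => ⟨Nat.zero_le _, Nat.zero_le _⟩) (SP_zero_top T.dt a)

theorem sp_mul (T : TS P) {k n k' n' : ℕ} {a b : Lam T.dt} (ha : a ∈ T.sp k n)
    (hb : b ∈ T.sp k' n') : a * b ∈ T.sp (k + k') (n + n') := by
  refine SP_mul (fun l l' h h' => ?_) ha hb
  rw [cW_append, wW_append]
  exact ⟨Nat.add_le_add h.1 h'.1, Nat.add_le_add h.2 h'.2⟩

theorem sp_mul_left (T : TS P) {k n : ℕ} (a : Lam T.dt) {b : Lam T.dt} (hb : b ∈ T.sp k n) :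
    a * b ∈ T.sp k n := by
  have h := sp_mul T (sp_zero T a) hb
  rwa [zero_add, zero_add] at h

theorem sp_mul_right (T : TS P) {k n : ℕ} (b : Lam T.dt) {a : Lam T.dt} (ha : a ∈ T.sp k n) :
    a * b ∈ T.sp k n := by
  have h := sp_mul T ha (sp_zero T b)
  rwa [add_zero, add_zero] at h

theorem sp_pow (T : TS P) {a : Lam T.dt} (ha : a ∈ SP T.dt (fun l => 1 ≤ cW l)) (k : ℕ) :
    a ^ k ∈ SP T.dt (fun l => k ≤ cW l) := by
  induction k with
  | zero => rw [pow_zero]; exact SP_zero_top _ _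
  | succ k ih =>
    rw [pow_succ]
    exact SP_mul_left ih ha

theorem sp_p (T : TS P) (j : P.M) {k n : ℕ} {a : Lam T.dt} (ha : a ∈ T.sp k n) :
    T.p j a ∈ T.sp k n := by
  refine pdv_SP (T.odd j) ?_ ha
  rintro l₁ l₂ ⟨h1, h2⟩
  have e1 : cW (l₁ ++ Sum.inr (Sum.inr j) :: l₂) = cW (l₁ ++ l₂) := by
    rw [cW_append, cW_append]
    congr 1
  have e2 : wW T.deg (l₁ ++ Sum.inr (Sum.inr j) :: l₂) = wW T.deg (l₁ ++ l₂) := by
    rw [wW_append, wW_append]
    congr 1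
    have h3 : wW T.deg ((Sum.inr (Sum.inr j) : T.ι ⊕ (P.U ⊕ P.M)) :: l₂) =
      Sum.elim T.deg (fun _ => 0) (Sum.inr (Sum.inr j) : T.ι ⊕ (P.U ⊕ P.M)) + wW T.deg l₂ :=
      degSum_cons _ _ _
    rw [h3]
    exact Nat.zero_add _
  rw [e1] at h1
  rw [e2] at h2
  exact ⟨h1, h2⟩

theorem sp_Φ {T T' : TS P} (h : T.Hom T') {k n : ℕ} {a : Lam T.dt} (ha : a ∈ T.sp k n) :
    h.Φ a ∈ T'.sp k n := by
  refine SP_mapL (Sum.map h.f id) (by rintro (i | t); exacts [h.deg i, rfl]) ?_ ha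
  rintro l ⟨h1, h2⟩
  have e : cW (l.map (Sum.map h.f (id : P.U ⊕ P.M → P.U ⊕ P.M))) = cW l ∧
      wW T'.deg (l.map (Sum.map h.f (id : P.U ⊕ P.M → P.U ⊕ P.M))) = wW T.deg l := by
    clear h1 h2
    induction l with
    | nil => exact ⟨rfl, rfl⟩
    | cons x l ih =>
      have h3 : ∀ (x : T'.ι ⊕ (P.U ⊕ P.M)) (l : List (T'.ι ⊕ (P.U ⊕ P.M))),
        wW T'.deg (x :: l) = Sum.elim T'.deg (fun _ => 0) x + wW T'.deg l :=
        fun x l => degSum_cons _ _ _
      have h3' : wW T.deg (x :: l) = Sum.elim T.deg (fun _ => 0) x + wW T.deg l :=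
        degSum_cons _ _ _
      rw [List.map_cons, h3, h3', ih.2]
      rcases x with i | t
      · refine ⟨?_, ?_⟩
        · change cW (List.map (Sum.map h.f id) l) + 1 = cW l + 1
          rw [ih.1]
        · change T'.deg (h.f i) + _ = T.deg i + _
          rw [h.deg]
      · exact ⟨ih.1, rfl⟩
  rw [e.1, e.2]
  exact ⟨h1, h2⟩

theorem sp_sgn (T : TS P) {k n : ℕ} {a : Lam T.dt} (ha : a ∈ T.sp k n) :
    sgn T.dt a ∈ T.sp k n := SP_sgn ha

end AnWL
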