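import Pool.Agent.Helper84.G2.Pack

/-!
G2/Lf. The closed one-column families `G_j = (1/j!) ∑_{|c| = n - j} λ^c h^c` (`j ≤ n`) of a package, for `q_λ = ∑ λ_e q_e`, `λ_e` closed even.

`lm lam c = ∏ λ_e ^ c_e` as a product in the commutative ring `Ev` of the even elements. `lm_single` as `fac_single` in `Fam.lean`. `Lf_D`: `D (lm c * h^c) = lm c * D h^c`; the pairs `(c, e)` with
`|c| = n - j`, `c_e ≠ 0` correspond to the pairs `(c', e)`, `|c'| = n - j - 1`, by `c = c' + e`; `lm (c' + e) * (q_e h^{c'}) = (λ_e q_e) * (lm c' * h^{c'})` (even elements are central).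
-/

set_option autoImplicit false

namespace AnWL
open Anick2

/-- The even elements. -/
noncomputable def Ev {ι : Type} (δ : ι → ℕ) : Subalgebra ℚ (Lam δ) where
  carrier := {a | sgn δ a = a}
  mul_mem' := by
    intro a b ha hb
    change sgn δ (a * b) = a * b
    rw [map_mul, ha, hb]
  add_mem' := by
    intro a b ha hb
    change sgn δ (a + b) = a + b
    rw [map_add, ha, hb]
  algebraMap_mem' := by
    intro r
    exact (sgn δ).commutes r

noncomputable instance {ι : Type} (δ : ι → ℕ) : CommRing (Ev δ) :=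
  { (inferInstance : Ring (Ev δ)) with
    mul_comm := fun a b => Subtype.ext (even_comm a.2 b.1) }

variable {P : Par} {C : Type} [Fintype C]

private theorem lf_ps {M : Type} [CommMonoid M] (f : C → M) (c : C →₀ ℕ) (e : C) :
    ∏ x, f x ^ ((c + Finsupp.single e 1 : C →₀ ℕ) x) = f e * ∏ x, f x ^ c x := by
  classical
  have h1 : ∏ x, f x ^ ((Finsupp.single e 1 : C →₀ ℕ) x) = f e := by
    rw [Finset.prod_eq_single e]
    · rw [Finsupp.single_eq_same, pow_one]
    · intro x _ hx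
      rw [Finsupp.single_eq_of_ne hx, pow_zero]
    · intro h
      exact absurd (Finset.mem_univ e) h
  have h2 : ∏ x, f x ^ ((c + Finsupp.single e 1 : C →₀ ℕ) x) =
      ∏ x, (f x ^ c x * f x ^ ((Finsupp.single e 1 : C →₀ ℕ) x)) :=
    Finset.prod_congr rfl fun x _ => by rw [Finsupp.add_apply, pow_add]
  rw [h2, Finset.prod_mul_distrib, h1, mul_comm]

omit [Fintype C] in
private theorem lf_ind {p : (C →₀ ℕ) → Prop} (h0 : p 0)
    (h1 : ∀ c e, p c → p (c + Finsupp.single e 1)) (c : C →₀ ℕ) : p c := by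
  classical
  have key : ∀ n : ℕ, ∀ c : C →₀ ℕ, c.degree = n → p c := by
    intro n
    induction n with
    | zero =>
      intro c hc
      rw [Finsupp.degree_eq_zero_iff] at hc
      rw [hc]
      exact h0
    | succ n ih =>
      intro c hc
      have hc0 : c ≠ 0 := by
        rintro rfl
        rw [map_zero] at hc
        omega
      obtain ⟨e, he⟩ := Finsupp.ne_iff.1 hc0
      have he' : c e ≠ 0 := he
      have h2 := deg_sub he'
      have h3 := h1 _ e (ih (c - Finsupp.single e 1) (by omega))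
      rwa [sub_single_add he'] at h3
  exact key _ c rfl

/-- The monomials in even elements. -/
noncomputable def lm {ι : Type} {δ : ι → ℕ} (lam : C → Lam δ) (hl : ∀ e, sgn δ (lam e) = lam e)
    (c : C →₀ ℕ) : Lam δ := ((∏ e, (⟨lam e, hl e⟩ : Ev δ) ^ c e : Ev δ) : Lam δ)

theorem lm_zero {ι : Type} {δ : ι → ℕ} (lam : C → Lam δ) (hl : ∀ e, sgn δ (lam e) = lam e) :
    lm lam hl 0 = 1 := by
  unfold lm
  have h : (∏ e, (⟨lam e, hl e⟩ : Ev δ) ^ ((0 : C →₀ ℕ) e)) = 1 :=
    Finset.prod_eq_one fun e _ => pow_zero _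
  exact congrArg Subtype.val h

theorem lm_single {ι : Type} {δ : ι → ℕ} (lam : C → Lam δ) (hl : ∀ e, sgn δ (lam e) = lam e)
    (c : C →₀ ℕ) (e : C) : lm lam hl (c + Finsupp.single e 1) = lam e * lm lam hl c := by
  unfold lm
  exact congrArg Subtype.val (lf_ps (fun e => (⟨lam e, hl e⟩ : Ev δ)) c e)

theorem lm_sgn {ι : Type} {δ : ι → ℕ} (lam : C → Lam δ) (hl : ∀ e, sgn δ (lam e) = lam e)
    (c : C →₀ ℕ) : sgn δ (lm lam hl c) = lm lam hl c := by
  unfold lm
  exact (∏ e, (⟨lam e, hl e⟩ : Ev δ) ^ c e : Ev δ).2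

theorem lm_map {ι : Type} {δ : ι → ℕ} (lam : C → Lam δ) (hl : ∀ e, sgn δ (lam e) = lam e)
    (c : C →₀ ℕ) {K : Type} [CommRing K] [Algebra ℚ K] (θ : Lam δ →ₐ[ℚ] K) :
    θ (lm lam hl c) = ∏ e, θ (lam e) ^ c e := by
  refine lf_ind (p := fun c => θ (lm lam hl c) = ∏ e, θ (lam e) ^ c e) ?_ ?_ c
  · rw [lm_zero, map_one]
    exact (Finset.prod_eq_one fun e _ => pow_zero _).symm
  · intro c e ih
    rw [lm_single, map_mul, ih]
    exact (lf_ps (fun e => θ (lam e)) c e).symm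

theorem lm_D (T : TS P) (lam : C → Lam T.dt) (hl : ∀ e, sgn T.dt (lam e) = lam e)
    (hD : ∀ e, T.D (lam e) = 0) (c : C →₀ ℕ) : T.D (lm lam hl c) = 0 := by
  refine lf_ind (p := fun c => T.D (lm lam hl c) = 0) ?_ ?_ c
  · rw [lm_zero]
    exact d_one T.diff
  · intro c e ih
    rw [lm_single, T.leib, hD, ih, zero_mul, mul_zero, add_zero]

theorem lm_p (T : TS P) (lam : C → Lam T.dt) (hl : ∀ e, sgn T.dt (lam e) = lam e) (j : P.M)
    (hp : ∀ e, T.p j (lam e) = 0) (c : C →₀ ℕ) : T.p j (lm lam hl c) = 0 := by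
  refine lf_ind (p := fun c => T.p j (lm lam hl c) = 0) ?_ ?_ c
  · rw [lm_zero]
    have h : T.p j ((1 : Lam T.dt) * 1) = T.p j 1 * 1 + sgn T.dt 1 * T.p j 1 :=
      pdv_mul (T.odd j) 1 1
    rw [map_one (sgn T.dt), mul_one, mul_one, one_mul] at h
    exact add_eq_left.1 h.symm
  · intro c e ih
    rw [lm_single]
    have h : T.p j (lam e * lm lam hl c) =
        T.p j (lam e) * lm lam hl c + sgn T.dt (lam e) * T.p j (lm lam hl c) :=
      pdv_mul (T.odd j) _ _
    rw [h, hp, ih, zero_mul, mul_zero, add_zero]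

theorem lm_hz (T : TS P) (lam : C → Lam T.dt) (hl : ∀ e, sgn T.dt (lam e) = lam e)
    (dl : C → ℕ) (hz : ∀ e, lam e ∈ T.hz (dl e)) (c : C →₀ ℕ) : lm lam hl c ∈ T.hz (wt dl c) := by
  refine lf_ind (p := fun c => lm lam hl c ∈ T.hz (wt dl c)) ?_ ?_ c
  · rw [lm_zero, wt_zero]
    exact hz_one T
  · intro c e ih
    rw [lm_single, wt_add, wt_single, add_comm]
    exact hz_mul T (hz e) ih

/-- The multi-indices of a given degree. -/
noncomputable def cdg (C : Type) [Fintype C] (n : ℕ) : Finset (C →₀ ℕ) :=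
  (Finsupp.finite_of_degree_eq (σ := C) n).toFinset

theorem mem_cdg {n : ℕ} {c : C →₀ ℕ} : c ∈ cdg C n ↔ c.degree = n := by
  unfold cdg
  rw [Set.Finite.mem_toFinset]
  rfl

/-- The one-column family. -/
noncomputable def Lf (T : TS P) (lam : C → Lam T.dt) (hl : ∀ e, sgn T.dt (lam e) = lam e)
    (hh : (C →₀ ℕ) → Lam T.dt) (n j : ℕ) : Lam T.dt :=
  if j ≤ n then ((Nat.factorial j : ℕ) : ℚ)⁻¹ • ∑ c ∈ cdg C (n - j), lm lam hl c * hh c else 0

private theorem lf_shift {A : Type} [AddCommMonoid A] (F : (C →₀ ℕ) → A) (e : C) (k : ℕ) :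
    ∑ c ∈ cdg C (k + 1), (if c e = 0 then 0 else F (c - Finsupp.single e 1)) =
      ∑ c ∈ cdg C k, F c := by
  classical
  symm
  refine Finset.sum_of_injOn (fun c => c + Finsupp.single e 1) ?_ ?_ ?_ ?_
  · intro c _ c' _ h
    exact add_right_cancel h
  · intro c hc
    rw [Finset.mem_coe, mem_cdg] at hc ⊢
    rw [map_add, hc, Finsupp.degree_single]
  · intro c hc hn
    rw [mem_cdg] at hc
    by_cases h0 : c e = 0
    · rw [if_pos h0]
    · exfalso
      apply hn
      refine ⟨c - Finsupp.single e 1, ?_, sub_single_add h0⟩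
      rw [Finset.mem_coe, mem_cdg]
      have := deg_sub h0
      omega
  · intro c _
    have h1 : (c + Finsupp.single e 1 : C →₀ ℕ) e ≠ 0 := by
      rw [Finsupp.add_apply, Finsupp.single_eq_same]
      omega
    rw [if_neg h1, add_tsub_cancel_right]

attribute [local irreducible] instRingLam

private theorem lf_term (T : TS P) (lam : C → Lam T.dt) (hl : ∀ e, sgn T.dt (lam e) = lam e)
    (hlD : ∀ e, T.D (lam e) = 0) {q : C → Lam T.dt} {dc : C → ℕ} {n₀ d : ℕ} {g : ℤ}
    {hh : (C →₀ ℕ) → Lam T.dt} (hp : T.Pk q dc n₀ d g hh) (c : C →₀ ℕ) (hc : c.degree ≤ d) :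
    T.D (lm lam hl c * hh c) = -∑ e, if c e = 0 then 0 else
      lm lam hl (c - Finsupp.single e 1 + Finsupp.single e 1) *
        (q e * hh (c - Finsupp.single e 1)) := by
  rw [T.leib, lm_D T lam hl hlD, zero_mul, zero_add, lm_sgn]
  by_cases h0 : c = 0
  · rw [h0, hp.D0, mul_zero]
    symm
    rw [neg_eq_zero]
    exact Finset.sum_eq_zero fun e _ => if_pos rfl
  · rw [hp.D c h0 hc, mul_neg, Finset.mul_sum]
    congr 1
    refine Finset.sum_congr rfl fun e _ => ?_
    by_cases he : c e = 0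
    · rw [if_pos he, if_pos he, mul_zero]
    · rw [if_neg he, if_neg he, sub_single_add he]

private theorem lf_mul {ι : Type} {δ : ι → ℕ} (lam : C → Lam δ)
    (hl : ∀ e, sgn δ (lam e) = lam e) (c : C →₀ ℕ) (e : C) (x y : Lam δ) :
    lm lam hl (c + Finsupp.single e 1) * (x * y) = lam e * x * (lm lam hl c * y) := by
  rw [lm_single, mul_assoc, mul_assoc, ← mul_assoc (lm lam hl c) x y,
    even_comm (lm_sgn lam hl c) x, mul_assoc]

theorem Lf_D (T : TS P) (lam : C → Lam T.dt) (hl : ∀ e, sgn T.dt (lam e) = lam e)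
    (hlD : ∀ e, T.D (lam e) = 0) {q : C → Lam T.dt} {dc : C → ℕ} {n₀ d : ℕ} {g : ℤ}
    {hh : (C →₀ ℕ) → Lam T.dt} (hp : T.Pk q dc n₀ d g hh) (n : ℕ) (hn : n ≤ d) (j : ℕ) :
    T.D (Lf T lam hl hh n j) =
      -(((j + 1 : ℕ) : ℚ) • ((∑ e, lam e * q e) * Lf T lam hl hh n (j + 1))) := by
  unfold Lf
  by_cases hj : j ≤ n
  · have h1 : T.D (∑ c ∈ cdg C (n - j), lm lam hl c * hh c) =
        -∑ e, ∑ c ∈ cdg C (n - j), if c e = 0 then 0 else
          lm lam hl (c - Finsupp.single e 1 + Finsupp.single e 1) *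
            (q e * hh (c - Finsupp.single e 1)) := by
      rw [map_sum, Finset.sum_comm, ← Finset.sum_neg_distrib]
      refine Finset.sum_congr rfl fun c hc => ?_
      rw [mem_cdg] at hc
      exact lf_term T lam hl hlD hp c (by omega)
    rw [if_pos hj, map_smul, h1, smul_neg]
    congr 1
    by_cases hj' : j + 1 ≤ n
    · obtain ⟨k, hk⟩ : ∃ k, n - j = k + 1 := ⟨n - j - 1, by omega⟩
      have hk' : n - (j + 1) = k := by omega
      have h2 : ∑ e, ∑ c ∈ cdg C (n - j), (if c e = 0 then 0 else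
          lm lam hl (c - Finsupp.single e 1 + Finsupp.single e 1) *
            (q e * hh (c - Finsupp.single e 1))) =
          (∑ e, lam e * q e) * ∑ c ∈ cdg C (n - (j + 1)), lm lam hl c * hh c := by
        rw [hk, hk', Finset.sum_mul]
        refine Finset.sum_congr rfl fun e _ => ?_
        rw [lf_shift (fun c => lm lam hl (c + Finsupp.single e 1) * (q e * hh c)) e k,
          Finset.mul_sum]
        exact Finset.sum_congr rfl fun c _ => lf_mul lam hl c e _ _
      rw [h2, if_pos hj', mul_smul_comm, smul_smul]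
      congr 1
      have h3 : ((Nat.factorial j : ℕ) : ℚ) ≠ 0 := Nat.cast_ne_zero.2 (Nat.factorial_ne_zero _)
      have h4 : ((j + 1 : ℕ) : ℚ) ≠ 0 := Nat.cast_ne_zero.2 (Nat.succ_ne_zero _)
      rw [Nat.factorial_succ, Nat.cast_mul, mul_inv, ← mul_assoc, mul_inv_cancel₀ h4, one_mul]
    · rw [if_neg hj', mul_zero, smul_zero]
      have h5 : n - j = 0 := by omega
      rw [Finset.sum_eq_zero, smul_zero]
      intro e _
      refine Finset.sum_eq_zero fun c hc => ?_
      rw [h5, mem_cdg, Finsupp.degree_eq_zero_iff] at hc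
      rw [hc]
      exact if_pos rfl
  · rw [if_neg hj, if_neg (by omega), map_zero, mul_zero, smul_zero, neg_zero]

theorem Lf_hz (T : TS P) (lam : C → Lam T.dt) (hl : ∀ e, sgn T.dt (lam e) = lam e)
    (dl : C → ℕ) (hz : ∀ e, lam e ∈ T.hz (dl e)) {q : C → Lam T.dt} {dc : C → ℕ} {n₀ d : ℕ}
    {g : ℤ} {hh : (C →₀ ℕ) → Lam T.dt} (hp : T.Pk q dc n₀ d g hh) (D₀ : ℕ)
    (hD₀ : ∀ e, dl e + dc e = D₀) (n j : ℕ) :
    Lf T lam hl hh n j ∈ T.hz (g + n * D₀ - j * D₀) := by
  unfold Lf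
  by_cases hj : j ≤ n
  · rw [if_pos hj]
    refine Submodule.smul_mem _ _ (Submodule.sum_mem _ fun c hc => ?_)
    rw [mem_cdg] at hc
    have h1 := hz_mul T (lm_hz T lam hl dl hz c) (hp.hz c)
    have h2 : wt dl c + wt dc c = (c.degree : ℤ) * D₀ := by
      unfold wt
      rw [← Finset.sum_add_distrib, Finsupp.degree_eq_sum, Nat.cast_sum, Finset.sum_mul]
      refine Finset.sum_congr rfl fun e _ => ?_
      rw [← mul_add, ← hD₀ e, Nat.cast_add]
    have h3 : wt dl c + (g + wt dc c) = g + n * D₀ - j * D₀ := by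
      have h4 : wt dl c + (g + wt dc c) = g + (c.degree : ℤ) * D₀ := by rw [← h2]; ring
      rw [h4, hc, Nat.cast_sub hj]
      ring
    rwa [h3] at h1
  · rw [if_neg hj]
    exact zero_mem _

theorem Lf_SP (T : TS P) (lam : C → Lam T.dt) (hl : ∀ e, sgn T.dt (lam e) = lam e)
    {q : C → Lam T.dt} {dc : C → ℕ} {n₀ d : ℕ} {g : ℤ} {hh : (C →₀ ℕ) → Lam T.dt}
    (hp : T.Pk q dc n₀ d g hh) (n j : ℕ) :
    Lf T lam hl hh n j ∈ SP T.dt (fun l => 1 ≤ cW l) := by
  unfold Lf
  by_cases hj : j ≤ n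
  · rw [if_pos hj]
    refine Submodule.smul_mem _ _ (Submodule.sum_mem _ fun c _ => ?_)
    exact sp_SP T (sp_mul_left T _ (hp.sp c))
  · rw [if_neg hj]
    exact zero_mem _

end AnWL
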