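import Pool.Agent.Helper84.G2.Fam

/-!
G2/Loop. The descent: a closed family whose coefficients have high `W`-degree is reduced to its coefficient of degree `0`, modulo superfields.
-/

set_option autoImplicit false

namespace AnWL
open Anick2
variable {P : Par} {C : Type} [Fintype C]

attribute [local irreducible] instRingLam

theorem exists_loop (n₀ : ℕ) (hn₀ : 2 ≤ n₀) (dc : C → ℕ) (hdc : ∀ e, Even (dc e))
    {σ : Type} [Finite σ] (g : σ → ℤ) (hg : ∀ s, Even (g s)) (d : ℕ) :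
    ∀ (T : TS P) (q : C → Lam T.dt), (∀ e, q e ∈ T.hz (dc e + 1)) →
      (∀ e, q e ∈ SP T.dt (fun l => 1 ≤ cW l)) → (∀ e, T.D (q e) = 0) →
      ∀ (H : σ → (C →₀ ℕ) → Lam T.dt), (∀ s, T.Cf q dc (g s) (H s)) →
      (∀ s b, H s b ∈ T.sp 1 n₀) → (∀ s b, d < b.degree → H s b = 0) →
      ∃ (T' : TS P) (h : T.Hom T') (τ : Type) (_ : Finite τ) (gt : τ → ℤ) (dt : τ → ℕ)
        (hh : τ → (C →₀ ℕ) → Lam T'.dt) (m : σ → Lam T'.dt),
        (∀ t, Even (gt t)) ∧
        (∀ t, T'.Pk (fun e => h.Φ (q e)) dc n₀ (dt t) (gt t) (hh t)) ∧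
        (∀ i, i ∈ Set.range h.f ∨ (n₀ ≤ T'.deg i ∧ ∃ t c, c ≠ 0 ∧ c.degree ≤ dt t ∧
          T'.Gov (gt t + wt dc c) (hh t c) i)) ∧
        (∀ s, m s ∈ T'.hz (g s)) ∧ (∀ s, m s ∈ T'.sp 1 n₀) ∧ (∀ s, T'.D (m s) = 0) ∧
        ∀ s, h.Φ (H s 0) - m s ∈
          Submodule.span ℚ {x | ∃ t c, c ≠ 0 ∧ c.degree ≤ dt t ∧ x = hh t c} := by
  classical
  induction d with
  | zero =>
    intro T q hq hqI hqD H hH hHs hd
    refine ⟨T, TS.Hom.id T, Empty, inferInstance, fun x => x.elim, fun x => x.elim,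
      fun x => x.elim, fun s => H s 0, fun t => t.elim, fun t => t.elim,
      fun i => Or.inl ⟨i, rfl⟩, fun s => ?_, fun s => hHs s 0, fun s => ?_, fun s => ?_⟩
    · have h1 := (hH s).hz 0
      rwa [wt_zero, sub_zero] at h1
    · rw [(hH s).D 0, neg_eq_zero]
      refine Finset.sum_eq_zero fun e _ => ?_
      rw [hd s _ (by rw [zero_add, Finsupp.degree_single]; exact Nat.zero_lt_one), mul_zero,
        smul_zero]
    · rw [id_Φ, sub_self]
      exact zero_mem _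
  | succ d ih =>
    intro T q hq hqI hqD H hH hHs hd
    have hfin : Finite {a : C →₀ ℕ // a.degree = d + 1} :=
      (Finsupp.finite_of_degree_eq (d + 1)).to_subtype
    letI : Fintype {a : C →₀ ℕ // a.degree = d + 1} := Fintype.ofFinite _
    obtain ⟨T₁, h₁, hh, k1, k2, k3⟩ := exists_packs T n₀ hn₀ dc hdc q hq hqI hqD
      (σ := σ × {a : C →₀ ℕ // a.degree = d + 1}) (fun x => g x.1 - wt dc x.2.1)
      (fun x => H x.1 x.2.1) (fun x => (hH x.1).hz x.2.1) (fun x => hHs x.1 x.2.1)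
      (by
        intro x
        rw [(hH x.1).D, neg_eq_zero]
        refine Finset.sum_eq_zero fun e _ => ?_
        have h1 : (x.2.1 + Finsupp.single e 1).degree = d + 1 + 1 := by
          rw [map_add, x.2.2, Finsupp.degree_single]
        rw [hd x.1 _ (by omega), mul_zero, smul_zero]) (d + 1)
    obtain ⟨H₁, hH₁⟩ : ∃ H₁ : σ → (C →₀ ℕ) → Lam T₁.dt, ∀ s, H₁ s = fun b =>
        h₁.Φ (H s b) + -∑ a : {a : C →₀ ℕ // a.degree = d + 1}, Kf (hh (s, a)) a.1 b :=
      ⟨_, fun _ => rfl⟩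
    have hC₁ : ∀ s, T₁.Cf (fun e => h₁.Φ (q e)) dc (g s) (H₁ s) := by
      intro s
      rw [hH₁]
      refine Cf_add (Cf_Φ h₁ (hH s)) (Cf_neg (Cf_sum Finset.univ
        (fun a : {a : C →₀ ℕ // a.degree = d + 1} => Kf (hh (s, a)) a.1) fun a _ => ?_))
      have h1 := Cf_Kf (k1 (s, a)) a.1 (by rw [a.2])
      have e1 : g s - wt dc a.1 + wt dc a.1 = g s := by ring
      exact e1 ▸ h1
    have hsp₁ : ∀ s b, H₁ s b ∈ T₁.sp 1 n₀ := by
      intro s b
      rw [hH₁]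
      exact add_mem (sp_Φ h₁ (hHs s b)) (Submodule.neg_mem _ (Submodule.sum_mem _ fun a _ =>
        Kf_sp (k1 (s, a)) a.1 b))
    have hd₁ : ∀ s b, d < b.degree → H₁ s b = 0 := by
      intro s b hb
      rw [hH₁]
      beta_reduce
      by_cases hb1 : b.degree = d + 1
      · rw [Finset.sum_eq_single (⟨b, hb1⟩ : {a : C →₀ ℕ // a.degree = d + 1})]
        · rw [Kf_self, k2, add_neg_cancel]
        · intro a _ ha
          refine Kf_deg _ (by rw [a.2, hb1]) fun h => ha (Subtype.ext h.symm)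
        · intro h
          exact absurd (Finset.mem_univ _) h
      · rw [hd s b (by omega), map_zero, zero_add, neg_eq_zero]
        refine Finset.sum_eq_zero fun a _ => ?_
        refine Kf_deg _ (by rw [a.2]; omega) fun h => ?_
        rw [h, a.2] at hb1
        exact hb1 rfl
    obtain ⟨T₂, h₂, τ, hτ, gt, dt, hh₂, m, m0, m1, m2, m3, m4, m5, m6⟩ := ih T₁
      (fun e => h₁.Φ (q e)) (fun e => hz_Φ h₁ (hq e)) (fun e => Φ_SP h₁ (hqI e))
      (fun e => by rw [Φ_D, hqD, map_zero]) H₁ hC₁ hsp₁ hd₁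
    have eq : (fun e => (h₁.comp h₂).Φ (q e)) = fun e => h₂.Φ (h₁.Φ (q e)) :=
      funext fun e => comp_Φ h₁ h₂ (q e)
    refine ⟨T₂, h₁.comp h₂, (σ × {a : C →₀ ℕ // a.degree = d + 1}) ⊕ τ, inferInstance,
      Sum.elim (fun x => g x.1 - wt dc x.2.1) gt, Sum.elim (fun _ => d + 1) dt,
      Sum.elim (fun x c => h₂.Φ (hh x c)) hh₂, m, ?_, ?_, ?_, m3, m4, m5, ?_⟩
    · rintro (x | t)
      · exact (hg x.1).sub (wt_even hdc _)
      · exact m0 t
    · rw [eq]
      rintro (x | t)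
      · exact Pk_Φ h₂ (k1 x)
      · exact m1 t
    · intro i
      rcases m2 i with ⟨i₁, rfl⟩ | ⟨h3, t, c, h4, h5, h6⟩
      · rcases k3 i₁ with ⟨i₀, rfl⟩ | ⟨h3, x, c, h4, h5, h6⟩
        · exact Or.inl ⟨i₀, rfl⟩
        · refine Or.inr ⟨?_, Sum.inl x, c, h4, h5, Gov_Φ h₂ h6⟩
          rw [h₂.deg]
          exact h3
      · exact Or.inr ⟨h3, Sum.inr t, c, h4, h5, h6⟩
    · intro s
      have e1 : (h₁.comp h₂).Φ (H s 0) - m s = (h₂.Φ (H₁ s 0) - m s) +
          ∑ a : {a : C →₀ ℕ // a.degree = d + 1}, fac a.1 • h₂.Φ (hh (s, a) a.1) := by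
        rw [comp_Φ, hH₁]
        beta_reduce
        rw [map_add, map_neg, map_sum]
        have e2 : ∀ a : {a : C →₀ ℕ // a.degree = d + 1},
            h₂.Φ (Kf (hh (s, a)) a.1 0) = fac a.1 • h₂.Φ (hh (s, a) a.1) := by
          intro a
          rw [Kf_zero, map_smul]
        rw [Finset.sum_congr rfl (fun a _ => e2 a)]
        abel
      rw [e1]
      refine add_mem ?_ (Submodule.sum_mem _ fun a _ => Submodule.smul_mem _ _
        (Submodule.subset_span ⟨Sum.inl (s, a), a.1, ?_, ?_, rfl⟩))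
      · refine Submodule.span_mono ?_ (m6 s)
        rintro x ⟨t, c, h4, h5, h6⟩
        exact ⟨Sum.inr t, c, h4, h5, h6⟩
      · intro h0
        have h1 := a.2
        rw [h0, map_zero] at h1
        omega
      · exact le_of_eq a.2

end AnWL
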