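import Pool.Agent.Helper84.G2.Sys
import Pool.Agent.Helper84.G2.Kl
import Pool.Agent.Helper84.G2.Loop

/-!
G2/Main. Polarisation: the theorem for finitely many even coordinates `x_c`, `D x_c = q_c`, from the one-column theorem.
-/

set_option autoImplicit false

namespace AnWL
open Anick2
variable {P P' : Par} {C : Type} [Fintype C]

attribute [local irreducible] instRingLam

theorem wt_ge {dc : C → ℕ} (hdc : ∀ e, 2 ≤ dc e) (b : C →₀ ℕ) :
    2 * (b.degree : ℤ) ≤ wt dc b := by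
  rw [Finsupp.degree_eq_sum]
  unfold wt
  push_cast
  rw [Finset.mul_sum]
  refine Finset.sum_le_sum fun e _ => ?_
  have h1 : (2 : ℤ) ≤ dc e := by exact_mod_cast hdc e
  have h2 : (0 : ℤ) ≤ b e := Int.natCast_nonneg _
  nlinarith

theorem Pk_E {T : TS P} {T' : TS P'} (h : Emb T T') {q : C → Lam T.dt} {dc : C → ℕ}
    {n₀ d : ℕ} {g : ℤ} {hh : (C →₀ ℕ) → Lam T.dt} (hp : T.Pk q dc n₀ d g hh) :
    T'.Pk (fun e => h.Φ (q e)) dc n₀ d g (fun c => h.Φ (hh c)) where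
  hz := fun c => E_hz h (hp.hz c)
  sp := fun c => E_sp h (hp.sp c)
  D0 := by rw [E_D, hp.D0, map_zero]
  D := by
    intro c h1 h2
    rw [E_D, hp.D c h1 h2, map_neg, map_sum]
    congr 1
    refine Finset.sum_congr rfl fun e _ => ?_
    split_ifs
    · rw [map_zero]
    · rw [map_mul]

private theorem even_sum_odd {β : Type} (f : β → ℤ) (hf : ∀ x, Odd (f x)) (l : List β) :
    Even (l.map f).sum ↔ Even l.length := by
  induction l with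
  | nil => simp
  | cons x l ih =>
    rw [List.map_cons, List.sum_cons, List.length_cons, Int.even_add, Nat.even_add_one, ih]
    have h1 : ¬ Even (f x) := Int.not_even_iff_odd.2 (hf x)
    tauto

private theorem fin_lists (M : Type) [Finite M] :
    Finite {l : List M // l.Nodup ∧ Even l.length} := by
  classical
  letI : Fintype M := Fintype.ofFinite M
  exact Finite.of_injective (β := {l : List M // l.Nodup}) (fun l => ⟨l.1, l.2.1⟩)
    (fun a b h => Subtype.ext (congrArg (fun x : {l : List M // l.Nodup} => x.1) h))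

private theorem D_lm {T : TS P} {g : ℤ} {q : C → Lam T.dt} {dc : C → ℕ}
    {H : (C →₀ ℕ) → Lam T.dt} (hdc : ∀ e, 2 ≤ dc e) (hH : T.Cf q dc g H) (b : C →₀ ℕ)
    (hb : g < 2 * b.degree) : H b = 0 := by
  refine hz_neg T ?_ (hH.hz b)
  have := wt_ge hdc b
  omega

theorem polarise (H7 : ∀ P : Par, OneCol P) (T : TS P) (n₀ : ℕ) (hn₀ : 2 ≤ n₀) (dc : C → ℕ)
    (hdc : ∀ e, Even (dc e)) (hdc2 : ∀ e, 2 ≤ dc e) (q : C → Lam T.dt)
    (hq : ∀ e, q e ∈ T.hz (dc e + 1)) (hqI : ∀ e, q e ∈ SP T.dt (fun l => 1 ≤ cW l))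
    (hqD : ∀ e, T.D (q e) = 0) (hqp : ∀ e i j, T.p i (T.p j (q e)) = 0) {α : Type}
    (E : Finset α) (F : α → (C →₀ ℕ) → Lam T.dt) (g : α → ℤ) (hg : ∀ a ∈ E, Even (g a))
    (hF : ∀ a ∈ E, T.Cf q dc (g a) (F a))
    (hFI : ∀ a ∈ E, ∀ b, F a b ∈ SP T.dt (fun l => 1 ≤ cW l)) :
    ∃ (P' : Par) (T' : TS P') (e : Emb T T'),
      (∀ i, i ∉ Set.range e.f → n₀ ≤ T'.deg i ∧ T'.gW i ∈ T'.nl) ∧
      ∀ a ∈ E, e.Φ (F a 0) ∈ T'.nl := by
  classical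
  -- powers
  have hpow : ∀ s : {a // a ∈ E}, ∃ H : (C →₀ ℕ) → Lam T.dt,
      T.Cf q dc ((n₀ + 1 : ℕ) * g s.1) H ∧ (∀ b, H b ∈ SP T.dt (fun l => n₀ + 1 ≤ cW l)) ∧
        H 0 = F s.1 0 ^ (n₀ + 1) := fun s =>
    exists_powF hdc (hg s.1 s.2) (hF s.1 s.2) (hFI s.1 s.2) n₀
  choose H hH1 hH2 hH3 using hpow
  obtain ⟨d, hd⟩ : ∃ d : ℕ, d = ∑ s : {a // a ∈ E}, (((n₀ + 1 : ℕ) : ℤ) * g s.1).toNat :=
    ⟨_, rfl⟩
  have hdd : ∀ (s : {a // a ∈ E}) (b : C →₀ ℕ), d < b.degree → H s b = 0 := by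
    intro s b hb
    refine D_lm hdc2 (hH1 s) b ?_
    have h1 : (((n₀ + 1 : ℕ) : ℤ) * g s.1).toNat ≤ d := by
      rw [hd]
      exact Finset.single_le_sum (f := fun s : {a // a ∈ E} =>
        (((n₀ + 1 : ℕ) : ℤ) * g s.1).toNat) (fun _ _ => Nat.zero_le _) (Finset.mem_univ s)
    have h2 := Int.self_le_toNat (((n₀ + 1 : ℕ) : ℤ) * g s.1)
    omega
  -- descent
  obtain ⟨T₁, h₁, τ, hτ, gt, dt, hh, m, m0, m1, m2, m3, m4, m5, m6⟩ :=
    exists_loop n₀ hn₀ dc hdc (fun s : {a // a ∈ E} => ((n₀ + 1 : ℕ) : ℤ) * g s.1)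
      (fun s => (hg s.1 s.2).mul_left _) d T q hq hqI hqD H hH1
      (fun s b => sp_mono T (by omega) (by omega) (sp_of_SP T (hH2 s b))) hdd
  -- parameters
  obtain ⟨P₄, T₄, e₄, ρ, κ, D₀, dl, ϑ, hu, hρ1, hρ2, hodd, hDe, hD2, hdl, hlz, hlD, hϑ, hϑz,
    hϑp, hϑD⟩ := exists_sys T₁ n₀ hn₀ dc hdc (fun e => h₁.Φ (q e)) (fun e => hz_Φ h₁ (hq e))
      (fun e => Φ_SP h₁ (hqI e)) (fun e => by rw [Φ_D, hqD, map_zero])
      (fun e i j => by rw [Φ_p, Φ_p, hqp, map_zero])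
  have hls : ∀ c, sgn T₄.dt (T₄.gU (κ c)) = T₄.gU (κ c) := fun c =>
    sgn_gen_even (P₄.du_even (κ c))
  have hlp : ∀ k c, T₄.p (e₄.fm k) (T₄.gU (κ c)) = 0 := fun k c =>
    pdv_gen_ne (T₄.odd _) (by simp)
  have hPk : ∀ t, T₄.Pk (fun e => e₄.Φ (h₁.Φ (q e))) dc n₀ (dt t) (gt t)
      (fun c => e₄.Φ (hh t c)) := fun t => Pk_E e₄ (m1 t)
  have hfM := P.finM
  have hfl := fin_lists P.M
  letI : Fintype (((Σ t : τ, Fin (dt t + 1)) × {l : List P.M // l.Nodup ∧ Even l.length}) ⊕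
    {a // a ∈ E}) := Fintype.ofFinite _
  -- the one-column theorem
  obtain ⟨T₅, h₅, u1, u2⟩ := H7 P₄ T₄ n₀ hn₀ D₀
    (∑ c, T₄.gU (κ c) * e₄.Φ (h₁.Φ (q c))) ϑ hDe hD2
    (by
      refine Submodule.sum_mem _ fun c _ => ?_
      have h1 := hz_mul T₄ (hlz c) (E_hz e₄ (hz_Φ h₁ (hq c)))
      have h2 : (dl c : ℤ) + (dc c + 1) = D₀ + 1 := by
        have := hdl c
        omega
      rwa [h2] at h1)
    (by
      refine Submodule.sum_mem _ fun c _ => ?_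
      have h1 := SP_mul_left (k := 0) (m := 1) (SP_zero_top _ (T₄.gU (κ c)))
        (E_SP e₄ (Φ_SP h₁ (hqI c)))
      simpa only [Nat.zero_add] using h1)
    (by
      rw [map_sum]
      refine Finset.sum_eq_zero fun c _ => ?_
      rw [T₄.leib, hlD, zero_mul, zero_add, E_D, Φ_D, hqD, map_zero, map_zero, mul_zero])
    hϑ hϑD
    (α := ((Σ t : τ, Fin (dt t + 1)) × {l : List P.M // l.Nodup ∧ Even l.length}) ⊕
      {a // a ∈ E}) Finset.univ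
    (Sum.elim (fun x => frl T₄ ϑ (x.2.1.map e₄.fm)
      (Lf T₄ (fun c => T₄.gU (κ c)) hls (fun c => e₄.Φ (hh x.1.1 c)) x.1.2))
      (fun s j => if j = 0 then e₄.Φ (m s) else 0))
    (Sum.elim (fun x => gt x.1.1 + (x.1.2 : ℕ) * D₀ -
      ((x.2.1.map e₄.fm).map fun i => (P₄.dm i : ℤ)).sum)
      (fun s => ((n₀ + 1 : ℕ) : ℤ) * g s.1))
    (by
      rintro (x | s) -
      · have h1 : Even (D₀ : ℤ) := (Int.even_coe_nat _).2 hDe
        have h2 : Even ((x.2.1.map e₄.fm).map fun i => (P₄.dm i : ℤ)).sum := by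
          rw [even_sum_odd _ (fun i => (Int.odd_coe_nat _).2 (P₄.dm_odd i)), List.length_map]
          exact x.2.2.2
        exact ((m0 x.1.1).add (h1.mul_left _)).sub h2
      · exact (hg s.1 s.2).mul_left _)
    (by
      rintro (x | s) - j
      · exact Fr_hz T₄ D₀ _ ϑ (by
          refine Submodule.sum_mem _ fun c _ => ?_
          have h1 := hz_mul T₄ (hlz c) (E_hz e₄ (hz_Φ h₁ (hq c)))
          have h2 : (dl c : ℤ) + (dc c + 1) = D₀ + 1 := by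
            have := hdl c
            omega
          rwa [h2] at h1) hϑ hϑD hϑz _ _
          (fun j => Lf_hz T₄ _ hls dl hlz (hPk x.1.1) D₀ hdl x.1.2 j) _ j
      · change (if j = 0 then e₄.Φ (m s) else 0) ∈ _
        by_cases hj : j = 0
        · rw [if_pos hj, hj]
          have h1 := E_hz e₄ (m3 s)
          have h2 : ((n₀ + 1 : ℕ) : ℤ) * g s.1 - ((0 : ℕ) : ℤ) * D₀ =
            ((n₀ + 1 : ℕ) : ℤ) * g s.1 := by push_cast; ring
          exact h2 ▸ h1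
        · rw [if_neg hj]
          exact zero_mem _)
    (by
      rintro (x | s) - j
      · exact Fr_SP T₄ ϑ _ (fun j => Lf_SP T₄ _ hls (hPk x.1.1) x.1.2 j) _ j
      · change (if j = 0 then e₄.Φ (m s) else 0) ∈ _
        by_cases hj : j = 0
        · rw [if_pos hj]
          exact E_SP e₄ (sp_SP T₁ (m4 s))
        · rw [if_neg hj]
          exact zero_mem _)
    (by
      rintro (x | s) - j
      · exact Fr_D T₄ D₀ _ ϑ hDe (by
          refine Submodule.sum_mem _ fun c _ => ?_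
          have h1 := hz_mul T₄ (hlz c) (E_hz e₄ (hz_Φ h₁ (hq c)))
          have h2 : (dl c : ℤ) + (dc c + 1) = D₀ + 1 := by
            have := hdl c
            omega
          rwa [h2] at h1) hϑ hϑD _
          (fun j => Lf_D T₄ _ hls hlD (hPk x.1.1) x.1.2 (by have := x.1.2.2; omega) j) _ j
      · change T₄.D (if j = 0 then e₄.Φ (m s) else 0) =
          -(((j + 1 : ℕ) : ℚ) • (_ * (if j + 1 = 0 then e₄.Φ (m s) else 0)))
        rw [if_neg (Nat.succ_ne_zero j), mul_zero, smul_zero, neg_zero]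
        by_cases hj : j = 0
        · rw [if_pos hj, E_D, m5, map_zero]
        · rw [if_neg hj, map_zero])
  obtain ⟨e₅, he₅⟩ : ∃ e₅ : Emb T₁ T₅, e₅ = e₄.comp (Emb.ofHom h₅) := ⟨_, rfl⟩
  have e5Φ : ∀ a, e₅.Φ a = h₅.Φ (e₄.Φ a) := by
    intro a
    rw [he₅, Emb_comp_Φ, ofHom_Φ]
  have e5f : ∀ i, e₅.f i = h₅.f (e₄.f i) := by
    intro i
    rw [he₅]
    rfl
  have e5u : ∀ u, e₅.fu u = e₄.fu u := by
    intro u
    rw [he₅]
    rfl
  -- the generic point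
  have key : ∀ (K : Type) [CommRing K] [IsDomain K] [Algebra ℚ K] (p : Lam T₅.deg →ₐ[ℚ] K),
      (∀ a, p (T₅.S.d a) = 0) → ∃ θ₁ : Lam T₁.dt →ₐ[ℚ] MvPolynomial P.U K,
        (∀ i, θ₁ (T₁.gW i) = MvPolynomial.C (p (gen T₅.deg (e₅.f i)))) ∧
        (∀ u, θ₁ (T₁.gU u) = MvPolynomial.X u) ∧ (∀ j, θ₁ (T₁.gX j) = 0) ∧
        ∀ t c, c.degree ≤ dt t → ∀ l : List P.M, l.Nodup → Even l.length →
          θ₁ (T₁.pl l (hh t c)) = 0 := by
    intro K _ _ _ p hp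
    obtain ⟨θ, θ₁, a1, a2, a3, a4, a5, a6, a7⟩ := exists_gpt T₁ T₅ e₅ ρ κ
      (fun u => by rw [e5u]; exact hρ1 u) hρ2 p hp
    refine ⟨θ₁, a5, a6, a7, ?_⟩
    intro t c hc l hl1 hl2
    refine van T₁ T₄ e₄ hu (fun c => T₄.gU (κ c)) hls hlp ϑ hϑ hϑp (hh t) (θ.comp h₅.Φ) θ₁
      (fun a => ?_) (fun c => ?_) (fun i => ?_) l c.degree ?_ c rfl
    · rw [AlgHom.comp_apply, ← e5Φ, a2]
    · rw [AlgHom.comp_apply]
      have h1 : h₅.Φ (T₄.gU (κ c)) = T₅.gU (κ c) := Φ_inr h₅ (Sum.inl (κ c))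
      rw [h1, a3]
    · rw [AlgHom.comp_apply]
      rcases hϑ i with h1 | ⟨j, h1⟩
      · rw [h1, map_zero, map_zero]
      · have h2 : h₅.Φ (T₄.gX j) = T₅.gX j := Φ_inr h₅ (Sum.inr j)
        rw [h1, h2, a4]
    · exact u2 (Sum.inl ⟨⟨t, ⟨c.degree, by omega⟩⟩, ⟨l, hl1, hl2⟩⟩) (Finset.mem_univ _)
        (MvPolynomial C (MvPolynomial P.U K)) θ a1
  have hpt : ∀ (K : Type) [CommRing K] [IsDomain K] [Algebra ℚ K] (θ₀ : Lam T₅.dt →ₐ[ℚ] K),
      (∀ a, θ₀ (T₅.D a) = 0) → ∀ a, (θ₀.comp (iL T₅.deg P₄.dq)) (T₅.S.d a) = 0 := by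
    intro K _ _ _ θ₀ hθ₀ a
    rw [AlgHom.comp_apply, ← T₅.ext]
    exact hθ₀ _
  have hgen : ∀ (K : Type) [CommRing K] [Algebra ℚ K] (θ₀ : Lam T₅.dt →ₐ[ℚ] K) (i : T₅.ι),
      (θ₀.comp (iL T₅.deg P₄.dq)) (gen T₅.deg i) = θ₀ (T₅.gW i) := by
    intro K _ _ θ₀ i
    rw [AlgHom.comp_apply]
    have e1 : iL T₅.deg P₄.dq (gen T₅.deg i) = T₅.gW i := mapL_gen _ i
    rw [e1]
  have hK2 : ∀ (K : Type) [CommRing K] [IsDomain K] [Algebra ℚ K] (θ₀ : Lam T₅.dt →ₐ[ℚ] K),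
      (∀ a, θ₀ (T₅.D a) = 0) → ∀ t c, c.degree ≤ dt t → θ₀ (e₅.Φ (hh t c)) = 0 := by
    intro K _ _ _ θ₀ hθ₀ t c hc
    obtain ⟨θ₁, a1, a2, a3, a4⟩ := key K (θ₀.comp (iL T₅.deg P₄.dq)) (hpt K θ₀ hθ₀)
    let v : MvPolynomial P.U K →ₐ[ℚ] K :=
      (MvPolynomial.aeval (R := K) (fun u : P.U => θ₀ (T₅.gU (e₅.fu u)))).restrictScalars ℚ
    have vC : ∀ c : K, v (MvPolynomial.C c) = c := fun c => MvPolynomial.aeval_C _ c
    have vX : ∀ u, v (MvPolynomial.X u) = θ₀ (T₅.gU (e₅.fu u)) := fun u =>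
      MvPolynomial.aeval_X _ u
    have h1 : θ₀.comp e₅.Φ = v.comp θ₁ := by
      refine Lam.algHom_ext _ fun x => ?_
      rcases x with i | u | j
      · change θ₀ (e₅.Φ (T₁.gW i)) = v (θ₁ (T₁.gW i))
        rw [E_gW, a1, vC, hgen]
      · change θ₀ (e₅.Φ (T₁.gU u)) = v (θ₁ (T₁.gU u))
        rw [E_gU, a2, vX]
      · change θ₀ (e₅.Φ (T₁.gX j)) = v (θ₁ (T₁.gX j))
        rw [E_gX, a3, map_zero]
        exact odd_pt θ₀ (sgn_gen_odd (T₅.odd _))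
    have h2 : θ₀ (e₅.Φ (hh t c)) = v (θ₁ (hh t c)) := DFunLike.congr_fun h1 _
    have h3 : θ₁ (hh t c) = 0 := a4 t c hc [] List.nodup_nil (by simp)
    rw [h2, h3, map_zero]
  refine ⟨P₄, T₅, (Emb.ofHom h₁).comp e₅, ?_, ?_⟩
  · intro i hi
    by_cases hr : i ∈ Set.range h₅.f
    · obtain ⟨i₄, rfl⟩ := hr
      by_cases hr4 : i₄ ∈ Set.range e₄.f
      · obtain ⟨i₁, rfl⟩ := hr4
        rcases m2 i₁ with ⟨i₀, rfl⟩ | ⟨h3, t, c, h4, h5, L, Q, B, ζ, h6, h7, b, hb⟩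
        · exfalso
          apply hi
          exact ⟨i₀, e5f _⟩
        · refine ⟨?_, ?_⟩
          · rw [h₅.deg, e₄.deg]
            exact h3
          · intro K _ _ _ θ₀ hθ₀
            obtain ⟨θ₁, a1, a2, a3, a4⟩ := key K (θ₀.comp (iL T₅.deg P₄.dq)) (hpt K θ₀ hθ₀)
            have h8 := Kl_fld T₁ B ζ (gt t + wt dc c) ((m0 t).add (wt_even hdc c)) h7
              (fun i => (θ₀.comp (iL T₅.deg P₄.dq)) (gen T₅.deg (e₅.f i))) θ₁ a1 a2 a3
              (fun l hl1 hl2 => by rw [h6]; exact a4 t c h5 l hl1 hl2) b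
            rw [hgen, e5f, ← hb] at h8
            exact h8
      · obtain ⟨h3, h4⟩ := hodd i₄ hr4
        refine ⟨?_, ?_⟩
        · rw [h₅.deg]
          exact h3
        · intro K _ _ _ θ₀ hθ₀
          refine odd_pt θ₀ (sgn_gen_odd ?_)
          change Odd (T₅.deg (h₅.f i₄))
          rw [h₅.deg]
          exact h4
    · exact u1 i hr
  · intro a ha K _ _ _ θ₀ hθ₀
    have h1 : ((Emb.ofHom h₁).comp e₅).Φ (F a 0) = e₅.Φ (h₁.Φ (F a 0)) := by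
      rw [Emb_comp_Φ, ofHom_Φ]
    rw [h1]
    have h2 : θ₀ (e₅.Φ (h₁.Φ (F a 0))) ^ (n₀ + 1) = 0 := by
      rw [← map_pow, ← map_pow, ← map_pow, ← hH3 ⟨a, ha⟩]
      have h3 : θ₀ (e₅.Φ (m ⟨a, ha⟩)) = 0 := by
        have h4 := u2 (Sum.inr ⟨a, ha⟩) (Finset.mem_univ _) K θ₀ hθ₀
        rw [e5Φ]
        exact h4
      have h5 : ∀ x ∈ Submodule.span ℚ {x | ∃ t c, c ≠ 0 ∧ c.degree ≤ dt t ∧ x = hh t c},
          θ₀ (e₅.Φ x) = 0 := by
        intro x hx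
        induction hx using Submodule.span_induction with
        | mem x hx =>
          obtain ⟨t, c, -, hc, rfl⟩ := hx
          exact hK2 K θ₀ hθ₀ t c hc
        | zero => rw [map_zero, map_zero]
        | add y z _ _ hy hz => rw [map_add, map_add, hy, hz, add_zero]
        | smul r y _ hy => rw [map_smul, map_smul, hy, smul_zero]
      have h6 := h5 _ (m6 ⟨a, ha⟩)
      rw [map_sub, map_sub, h3, sub_zero] at h6
      exact h6
    exact eq_zero_of_pow_eq_zero h2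

end AnWL
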