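import Pool.Agent.Helper84.G2.Fr
import Pool.Agent.Helper84.G2.Lf
import Pool.Agent.Helper84.G2.Emb

/-!
G2/Pt. Generic points with variables `u` and `λ`, and the separation of the `λ`-coefficients.
-/

set_option autoImplicit false

namespace AnWL
open Anick2

section sep

variable {C : Type} [Fintype C] {R : Type} [CommRing R]

private theorem prod_X (c : C →₀ ℕ) :
    ∏ e, (MvPolynomial.X e : MvPolynomial C R) ^ c e = MvPolynomial.monomial c 1 := by
  classical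
  rw [MvPolynomial.monomial_eq, MvPolynomial.C_1, one_mul, Finsupp.prod_fintype]
  intro i
  rw [pow_zero]

theorem sep_coeff (s : Finset (C →₀ ℕ)) (f : (C →₀ ℕ) → R)
    (h : ∑ c ∈ s, (∏ e, (MvPolynomial.X e : MvPolynomial C R) ^ c e) * MvPolynomial.C (f c) = 0)
    (c : C →₀ ℕ) (hc : c ∈ s) : f c = 0 := by
  classical
  have h1 := congrArg (MvPolynomial.coeff c) h
  rw [MvPolynomial.coeff_sum, MvPolynomial.coeff_zero, Finset.sum_eq_single c] at h1
  · rw [prod_X, mul_comm, MvPolynomial.coeff_C_mul, MvPolynomial.coeff_monomial, if_pos rfl,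
      mul_one] at h1
    exact h1
  · intro b _ hb
    rw [prod_X, mul_comm, MvPolynomial.coeff_C_mul, MvPolynomial.coeff_monomial, if_neg hb,
      mul_zero]
  · intro h2
    exact absurd hc h2

end sep

variable {P P' : Par} {C : Type} [Fintype C]

theorem odd_pt {ι : Type} {δ : ι → ℕ} {K : Type} [CommRing K] [IsDomain K] [Algebra ℚ K]
    (θ : Lam δ →ₐ[ℚ] K) {a : Lam δ} (ha : sgn δ a = -a) : θ a = 0 := by
  have h1 := congrArg θ (odd_sq ha)
  rw [map_mul, map_zero] at h1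
  exact mul_self_eq_zero.1 h1

/-- Generic points. -/
theorem exists_gpt (T : TS P) (T' : TS P') (e : Emb T T') (ρ : P'.U → P.U ⊕ C)
    (κ : C → P'.U) (h1 : ∀ u, ρ (e.fu u) = Sum.inl u) (h2 : ∀ c, ρ (κ c) = Sum.inr c)
    {K : Type} [CommRing K] [IsDomain K] [Algebra ℚ K] (p : Lam T'.deg →ₐ[ℚ] K)
    (hp : ∀ a, p (T'.S.d a) = 0) :
    ∃ (θ : Lam T'.dt →ₐ[ℚ] MvPolynomial C (MvPolynomial P.U K))
      (θ₁ : Lam T.dt →ₐ[ℚ] MvPolynomial P.U K),
      (∀ a, θ (T'.D a) = 0) ∧ (∀ a, θ (e.Φ a) = MvPolynomial.C (θ₁ a)) ∧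
      (∀ c, θ (T'.gU (κ c)) = MvPolynomial.X c) ∧ (∀ j, θ (T'.gX j) = 0) ∧
      (∀ i, θ₁ (T.gW i) = MvPolynomial.C (p (gen T'.deg (e.f i)))) ∧
      (∀ u, θ₁ (T.gU u) = MvPolynomial.X u) ∧ ∀ j, θ₁ (T.gX j) = 0 := by
  obtain ⟨θ₀, k1, k2, k3, k4⟩ := exists_gen_point T' p hp
  let v : P'.U → MvPolynomial C (MvPolynomial P.U K) := fun u =>
    Sum.elim (fun u => MvPolynomial.C (MvPolynomial.X u)) (fun c => MvPolynomial.X c) (ρ u)
  let E : MvPolynomial P'.U K →ₐ[ℚ] MvPolynomial C (MvPolynomial P.U K) :=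
    (MvPolynomial.aeval (R := K) v).restrictScalars ℚ
  have eC : ∀ c : K, E (MvPolynomial.C c) = MvPolynomial.C (MvPolynomial.C c) := fun c =>
    MvPolynomial.aeval_C _ c
  have eX : ∀ u, E (MvPolynomial.X u) = v u := fun u => MvPolynomial.aeval_X _ u
  let Z : MvPolynomial C (MvPolynomial P.U K) →ₐ[ℚ] MvPolynomial P.U K :=
    (MvPolynomial.aeval (R := MvPolynomial P.U K) (fun _ : C => (0 : MvPolynomial P.U K))).restrictScalars ℚ
  have zC : ∀ c, Z (MvPolynomial.C c) = c := fun c => MvPolynomial.aeval_C _ c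
  have kW : ∀ i, θ₀ (T'.gW i) = MvPolynomial.C (p (gen T'.deg i)) := by
    intro i
    have e1 : iL T'.deg P'.dq (gen T'.deg i) = T'.gW i := mapL_gen _ i
    rw [← e1, k2]
  have gW : ∀ i, E (θ₀ (e.Φ (T.gW i))) =
      MvPolynomial.C (MvPolynomial.C (p (gen T'.deg (e.f i)))) := by
    intro i
    rw [E_gW, kW, eC]
  have gU : ∀ u, E (θ₀ (e.Φ (T.gU u))) = MvPolynomial.C (MvPolynomial.X u) := by
    intro u
    rw [E_gU, k3, eX]
    change Sum.elim _ _ (ρ (e.fu u)) = _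
    rw [h1]
    rfl
  have gX : ∀ j, E (θ₀ (e.Φ (T.gX j))) = 0 := by
    intro j
    rw [E_gX, k4, map_zero]
  refine ⟨E.comp θ₀, (Z.comp (E.comp θ₀)).comp e.Φ, ?_, ?_, ?_, ?_, ?_, ?_, ?_⟩
  · intro a
    rw [AlgHom.comp_apply, k1, map_zero]
  · intro a
    have h3 : (E.comp θ₀).comp e.Φ = (IsScalarTower.toAlgHom ℚ (MvPolynomial P.U K)
        (MvPolynomial C (MvPolynomial P.U K))).comp ((Z.comp (E.comp θ₀)).comp e.Φ) := by
      refine Lam.algHom_ext _ fun x => ?_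
      rcases x with i | u | j
      · change E (θ₀ (e.Φ (T.gW i))) = MvPolynomial.C (Z (E (θ₀ (e.Φ (T.gW i)))))
        rw [gW, zC]
      · change E (θ₀ (e.Φ (T.gU u))) = MvPolynomial.C (Z (E (θ₀ (e.Φ (T.gU u)))))
        rw [gU, zC]
      · change E (θ₀ (e.Φ (T.gX j))) = MvPolynomial.C (Z (E (θ₀ (e.Φ (T.gX j)))))
        rw [gX, map_zero, map_zero]
    exact DFunLike.congr_fun h3 a
  · intro c
    rw [AlgHom.comp_apply, k3, eX]
    change Sum.elim _ _ (ρ (κ c)) = _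
    rw [h2]
    rfl
  · intro j
    rw [AlgHom.comp_apply, k4, map_zero]
  · intro i
    change Z (E (θ₀ (e.Φ (T.gW i)))) = _
    rw [gW, zC]
  · intro u
    change Z (E (θ₀ (e.Φ (T.gU u)))) = _
    rw [gU, zC]
  · intro j
    change Z (E (θ₀ (e.Φ (T.gX j)))) = _
    rw [gX, map_zero]

attribute [local irreducible] instRingLam

private theorem pl_lm (T : TS P') (l : List P'.M) {a : Lam T.dt} (hs : sgn T.dt a = a)
    (hp : ∀ k ∈ l, T.p k a = 0) (x : Lam T.dt) : T.pl l (a * x) = a * T.pl l x := by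
  induction l with
  | nil => rfl
  | cons k l ih =>
    have e1 : T.pl (k :: l) (a * x) = T.p k (T.pl l (a * x)) := rfl
    have e2 : T.pl (k :: l) x = T.p k (T.pl l x) := rfl
    have e3 : T.p k (a * T.pl l x) = T.p k a * T.pl l x + sgn T.dt a * T.p k (T.pl l x) :=
      pdv_mul (T.odd k) _ _
    rw [e1, ih (fun k hk => hp k (List.mem_cons_of_mem _ hk)), e3,
      hp k List.mem_cons_self, hs, zero_mul, zero_add, e2]

theorem E_pl {T : TS P} {T' : TS P'} (e : Emb T T') (hu : Function.Injective e.fu)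
    (l : List P.M) (a : Lam T.dt) : T'.pl (l.map e.fm) (e.Φ a) = e.Φ (T.pl l a) := by
  induction l with
  | nil => rfl
  | cons k l ih =>
    change T'.p (e.fm k) (T'.pl (l.map e.fm) (e.Φ a)) = e.Φ (T.p k (T.pl l a))
    rw [ih, E_p e hu]

/-- The derivatives of a package vanish at the generic point. -/
theorem van (T : TS P) (T' : TS P') (e : Emb T T') (hu : Function.Injective e.fu)
    (lam : C → Lam T'.dt) (hl : ∀ x, sgn T'.dt (lam x) = lam x)
    (hlp : ∀ k x, T'.p (e.fm k) (lam x) = 0) (ϑ : P'.M → Lam T'.dt)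
    (hϑ : ∀ i, ϑ i = 0 ∨ ∃ j, ϑ i = T'.gX j) (hϑp : ∀ k i, T'.p (e.fm k) (ϑ i) = 0)
    (hh : (C →₀ ℕ) → Lam T.dt) {R : Type} [CommRing R] [Algebra ℚ R]
    (θ : Lam T'.dt →ₐ[ℚ] MvPolynomial C R) (θ₁ : Lam T.dt →ₐ[ℚ] R)
    (h1 : ∀ a, θ (e.Φ a) = MvPolynomial.C (θ₁ a)) (h2 : ∀ c, θ (lam c) = MvPolynomial.X c)
    (h3 : ∀ i, θ (ϑ i) = 0) (l : List P.M) (n : ℕ)
    (h0 : θ (frl T' ϑ (l.map e.fm) (Lf T' lam hl (fun c => e.Φ (hh c)) n) 0) = 0)
    (c : C →₀ ℕ) (hc : c.degree = n) : θ₁ (T.pl l (hh c)) = 0 := by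
  rw [Fr_pt T' ϑ hϑ _ (l.map e.fm) (by
    intro k hk i
    obtain ⟨k', -, rfl⟩ := List.mem_map.1 hk
    exact hϑp k' i) θ h3 0] at h0
  have h4 : Lf T' lam hl (fun c => e.Φ (hh c)) n 0 =
      ∑ c ∈ cdg C n, lm lam hl c * e.Φ (hh c) := by
    unfold Lf
    rw [if_pos (Nat.zero_le n), Nat.factorial_zero, Nat.cast_one, inv_one, one_smul, Nat.sub_zero]
  rw [h4, map_sum, map_sum] at h0
  refine sep_coeff (cdg C n) (fun c => θ₁ (T.pl l (hh c))) ?_ c (mem_cdg.2 hc)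
  rw [← h0]
  refine Finset.sum_congr rfl fun c _ => ?_
  rw [pl_lm T' _ (lm_sgn lam hl c) (by
    intro k hk
    obtain ⟨k', -, rfl⟩ := List.mem_map.1 hk
    exact lm_p T' lam hl _ (hlp k') c), map_mul, lm_map, E_pl e hu, h1]
  congr 1
  exact (Finset.prod_congr rfl fun x _ => by rw [h2]).symm

/-- The derivative in a direction outside the image. -/
theorem E_p_ne {T : TS P} {T' : TS P'} (e : Emb T T') (j : P'.M) (hj : ∀ i, e.fm i ≠ j)
    (a : Lam T.dt) : T'.p j (e.Φ a) = 0 := by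
  refine pdv_zero_of_SP (T'.odd j) ?_
  have h1 : a ∈ SP T.dt (fun _ => True) := SP_imp (fun _ _ => trivial) (SP_zero_top T.dt a)
  refine SP_mapL _ (by rintro (i | u | j); exacts [e.deg i, e.du u, e.dm j]) ?_ h1
  intro l _ hc
  obtain ⟨x, -, hx⟩ := List.mem_map.1 hc
  rcases x with i | u | k
  · exact Sum.inl_ne_inr hx
  · exact Sum.inl_ne_inr (Sum.inr_injective hx)
  · exact hj k (Sum.inr_injective (Sum.inr_injective hx))

end AnWL
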