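import Pool.Agent.Helper84.G2.Bs
import Pool.Agent.Helper84.G2.Pt

/-!
G2/Pa. All letters `f a`, `a ∈ A`, vanish at every point. As `point_A` in `C09.lean`: for `a` odd: odd letters vanish at points (`odd_pt` in `Pt.lean`, or as in `killed_odd`,
`C12a.lean`); for `a` even strong induction on the degree, `0 = θ (T.D (gX j)) = θ (gW (f a)) + θ (T.D (gX j) - gW (f a))` and the words of the last element have
length `≥ 2`, a letter `inl (f a')`, `a' ∈ A`, by `1 ≤ cW` and the condition on the letters, of degree smaller than `deg a` (`SP_pr`).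
-/

set_option autoImplicit false

namespace AnWL
open Anick2

private theorem pa_degSum_lt {X : Type} {δ : X → ℕ} (h1 : ∀ x, 1 ≤ δ x) {l : List X} {x : X}
    (hx : x ∈ l) (hl : 2 ≤ l.length) : δ x < degSum δ l := by
  obtain ⟨s, t, rfl⟩ := List.append_of_mem hx
  have h2 := degSum_ge δ h1 s
  have h3 := degSum_ge δ h1 t
  rw [degSum_append, degSum_cons]
  rw [List.length_append, List.length_cons] at hl
  omega

private theorem pa_pos {ι : Type} [Finite ι] {deg : ι → ℕ} (S : MinimalSullivan deg) (A : Set ι)
    (N : ℕ) (hN : 1 ≤ N) (T : TS (PA S A N hN)) (x : T.ι ⊕ ((PA S A N hN).U ⊕ (PA S A N hN).M)) :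
    1 ≤ T.dt x := by
  rcases x with i | u | u
  · have h1 := T.S.two_le i
    change 1 ≤ T.deg i
    omega
  · have h2 := S.two_le u.1
    have h3 : (PA S A N hN).du u = deg u.1 - 1 := rfl
    change 1 ≤ (PA S A N hN).du u
    omega
  · have h2 := S.two_le u.1
    have h3 : (PA S A N hN).dm u = deg u.1 - 1 := rfl
    change 1 ≤ (PA S A N hN).dm u
    omega

private theorem pa_cW_pos {ι κ : Type} {l : List (ι ⊕ κ)} (h : 1 ≤ cW l) :
    ∃ i, Sum.inl i ∈ l := by
  by_contra hcon
  push Not at hcon
  have h0 : cW l = 0 := by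
    unfold cW
    rw [List.length_eq_zero_iff, List.filter_eq_nil_iff]
    rintro (i | s) hx
    · exact absurd hx (hcon i)
    · simp
  omega

attribute [local irreducible] instRingLam

theorem point_AM {ι : Type} [Finite ι] {deg : ι → ℕ} (S : MinimalSullivan deg)
    (A O : Set ι) (hS : S.PureMod A O) (n₀ N : ℕ) (hN : 1 ≤ N)
    (T : TS (PA S (AO deg A O) N hN)) (f : ι → T.ι) (h : IsBaseM S A O n₀ N hN T f)
    (a : ι) (ha : a ∈ A) : T.gW (f a) ∈ T.nl := by
  intro K _ _ _ θ hθ
  have key : ∀ n : ℕ, ∀ b ∈ A, deg b = n → θ (T.gW (f b)) = 0 := by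
    intro n
    induction n using Nat.strong_induction_on with
    | _ n ih =>
      intro a ha hn
      rcases Nat.even_or_odd (deg a) with he | ho
      · obtain ⟨j, rfl⟩ : ∃ j : (PA S (AO deg A O) N hN).M, j.1 = a := M_surj ha he
        have hr := h.DX j
        have hdj : (PA S (AO deg A O) N hN).dm j + 1 = deg j.1 := by
          have h2 := S.two_le j.1
          have h3 : (PA S (AO deg A O) N hN).dm j = deg j.1 - 1 := rfl
          omega
        have hhom : T.D (T.gX j) - T.gW (f j.1) ∈ hom T.dt n := by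
          refine sub_mem ?_ ?_
          · have h1 := T.diff.map_hom _ _ (gen_mem_hom T.dt (Sum.inr (Sum.inr j)))
            change T.D (T.gX j) ∈ hom T.dt ((PA S (AO deg A O) N hN).dm j + 1) at h1
            rwa [hdj, hn] at h1
          · have h1 := gen_mem_hom T.dt (Sum.inl (f j.1))
            change T.gW (f j.1) ∈ hom T.dt (T.deg (f j.1)) at h1
            rwa [h.deg, hn] at h1
        have h0 : θ (T.D (T.gX j) - T.gW (f j.1)) = 0 := by
          refine SP_lift_zero θ ?_ (SP_pr hr hhom)
          rintro l ⟨⟨g1, g2, g3, -⟩, g4⟩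
          obtain ⟨i, hi⟩ := pa_cW_pos g1
          rcases g3 _ hi with ⟨b, hb, hb'⟩ | ⟨v, hv⟩
          · rw [hb'] at hi
            refine ⟨_, hi, ?_⟩
            have h1 := pa_degSum_lt (pa_pos S (AO deg A O) N hN T) hi g2
            rw [g4] at h1
            change T.deg (f b) < n at h1
            rw [h.deg] at h1
            exact ih (deg b) h1 b hb rfl
          · exact absurd hv Sum.inl_ne_inr
        rw [map_sub, hθ, zero_sub, neg_eq_zero] at h0
        exact h0
      · refine odd_pt θ ?_
        refine sgn_gen_odd (deg := T.dt) (i := Sum.inl (f a)) ?_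
        change Odd (T.deg (f a))
        rw [h.deg]
        exact ho
  exact key (deg a) a ha rfl

end AnWL
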