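import Pool.Agent.Helper84.G2.Fld

/-!
G2/Pack. Packages: for `m` closed, superfields `h^c`, `c : C →₀ ℕ`, `|c| ≤ d`, with `h^0 = m`, `D h^c = - ∑_{c_e > 0} q_e h^{c - e}`.
-/

set_option autoImplicit false

namespace AnWL
open Anick2
variable {P : Par} {C : Type} [Fintype C]

/-- The weight of a multi-index. -/
def wt (dc : C → ℕ) (c : C →₀ ℕ) : ℤ := ∑ e, (c e : ℤ) * (dc e : ℤ)

theorem wt_zero (dc : C → ℕ) : wt dc 0 = 0 := by
  unfold wt
  exact Finset.sum_eq_zero fun e _ => by simp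

theorem wt_add (dc : C → ℕ) (b c : C →₀ ℕ) : wt dc (b + c) = wt dc b + wt dc c := by
  unfold wt
  rw [← Finset.sum_add_distrib]
  exact Finset.sum_congr rfl fun e _ => by rw [Finsupp.add_apply]; push_cast; ring

theorem wt_single (dc : C → ℕ) (e : C) : wt dc (Finsupp.single e 1) = dc e := by
  classical
  unfold wt
  rw [Finset.sum_eq_single e]
  · simp
  · intro e' _ he
    rw [Finsupp.single_eq_of_ne he]
    simp
  · intro h
    exact absurd (Finset.mem_univ e) h

omit [Fintype C] in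
theorem sub_single_add {c : C →₀ ℕ} {e : C} (h : c e ≠ 0) :
    c - Finsupp.single e 1 + Finsupp.single e 1 = c := by
  classical
  ext x
  rw [Finsupp.add_apply, Finsupp.tsub_apply]
  by_cases hx : x = e
  · subst hx
    rw [Finsupp.single_eq_same]
    omega
  · rw [Finsupp.single_eq_of_ne hx]
    omega

theorem wt_sub (dc : C → ℕ) {c : C →₀ ℕ} {e : C} (h : c e ≠ 0) :
    wt dc (c - Finsupp.single e 1) = wt dc c - dc e := by
  have h1 := wt_add dc (c - Finsupp.single e 1) (Finsupp.single e 1)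
  rw [sub_single_add h, wt_single] at h1
  omega

omit [Fintype C] in
theorem deg_sub {c : C →₀ ℕ} {e : C} (h : c e ≠ 0) :
    (c - Finsupp.single e 1).degree + 1 = c.degree := by
  have h1 : (c - Finsupp.single e 1 + Finsupp.single e 1).degree = _ :=
    map_add Finsupp.degree _ _
  rw [sub_single_add h, Finsupp.degree_single] at h1
  exact h1.symm

theorem wt_even {dc : C → ℕ} (hdc : ∀ e, Even (dc e)) (c : C →₀ ℕ) : Even (wt dc c) := by
  unfold wt
  refine Finset.even_sum _ fun e _ => ?_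
  exact ((Int.even_coe_nat (dc e)).2 (hdc e)).mul_left _

/-- A package. -/
structure TS.Pk (T : TS P) (q : C → Lam T.dt) (dc : C → ℕ) (n₀ d : ℕ) (g : ℤ)
    (hh : (C →₀ ℕ) → Lam T.dt) : Prop where
  hz : ∀ c, hh c ∈ T.hz (g + wt dc c)
  sp : ∀ c, hh c ∈ T.sp 1 n₀
  D0 : T.D (hh 0) = 0
  D : ∀ c, c ≠ 0 → c.degree ≤ d →
    T.D (hh c) = -∑ e, if c e = 0 then 0 else q e * hh (c - Finsupp.single e 1)

theorem Pk_Φ {T T' : TS P} (h : T.Hom T') {q : C → Lam T.dt} {dc : C → ℕ} {n₀ d : ℕ} {g : ℤ}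
    {hh : (C →₀ ℕ) → Lam T.dt} (hp : T.Pk q dc n₀ d g hh) :
    T'.Pk (fun e => h.Φ (q e)) dc n₀ d g (fun c => h.Φ (hh c)) where
  hz := fun c => hz_Φ h (hp.hz c)
  sp := fun c => sp_Φ h (hp.sp c)
  D0 := by rw [Φ_D, hp.D0, map_zero]
  D := by
    intro c h1 h2
    rw [Φ_D, hp.D c h1 h2, map_neg, map_sum]
    congr 1
    refine Finset.sum_congr rfl fun e _ => ?_
    split_ifs
    · rw [map_zero]
    · rw [map_mul]

omit [Fintype C] in
private theorem pk_iff (c : C →₀ ℕ) (e e' : C) :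
    (c e ≠ 0 ∧ (c - Finsupp.single e 1 : C →₀ ℕ) e' ≠ 0) ↔
      (c e' ≠ 0 ∧ (c - Finsupp.single e' 1 : C →₀ ℕ) e ≠ 0) := by
  classical
  rw [Finsupp.tsub_apply, Finsupp.tsub_apply]
  by_cases h : e = e'
  · subst h
    rfl
  · rw [Finsupp.single_eq_of_ne (Ne.symm h), Finsupp.single_eq_of_ne h]
    simp only [Nat.sub_zero]
    tauto

private theorem pk_anti {A : Type} [Ring A] [Algebra ℚ A] (q : C → A)
    (hq : ∀ e e', q e * q e' = -(q e' * q e)) (f : (C →₀ ℕ) → A) (c : C →₀ ℕ) :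
    (∑ e, if c e = 0 then 0 else
      q e * ∑ e', if (c - Finsupp.single e 1 : C →₀ ℕ) e' = 0 then 0 else
        q e' * f (c - Finsupp.single e 1 - Finsupp.single e' 1)) = 0 := by
  classical
  have h1 : (∑ e, if c e = 0 then 0 else
      q e * ∑ e', if (c - Finsupp.single e 1 : C →₀ ℕ) e' = 0 then 0 else
        q e' * f (c - Finsupp.single e 1 - Finsupp.single e' 1)) =
      ∑ e, ∑ e', if (c e ≠ 0 ∧ (c - Finsupp.single e 1 : C →₀ ℕ) e' ≠ 0) then
        q e * q e' * f (c - Finsupp.single e 1 - Finsupp.single e' 1) else 0 := by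
    refine Finset.sum_congr rfl fun e _ => ?_
    by_cases he : c e = 0
    · rw [if_pos he]
      refine (Finset.sum_eq_zero fun e' _ => ?_).symm
      rw [if_neg]
      rintro ⟨h, -⟩
      exact h he
    · rw [if_neg he, Finset.mul_sum]
      refine Finset.sum_congr rfl fun e' _ => ?_
      by_cases he' : (c - Finsupp.single e 1 : C →₀ ℕ) e' = 0
      · rw [if_pos he', mul_zero, if_neg]
        rintro ⟨-, h⟩
        exact h he'
      · rw [if_neg he', if_pos ⟨he, he'⟩, mul_assoc]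
  rw [h1]
  set X := ∑ e, ∑ e', if (c e ≠ 0 ∧ (c - Finsupp.single e 1 : C →₀ ℕ) e' ≠ 0) then
        q e * q e' * f (c - Finsupp.single e 1 - Finsupp.single e' 1) else 0 with hX
  have h2 : X = -X := by
    rw [hX]
    nth_rw 1 [Finset.sum_comm]
    rw [← Finset.sum_neg_distrib]
    refine Finset.sum_congr rfl fun e _ => ?_
    rw [← Finset.sum_neg_distrib]
    refine Finset.sum_congr rfl fun e' _ => ?_
    by_cases h3 : c e ≠ 0 ∧ (c - Finsupp.single e 1 : C →₀ ℕ) e' ≠ 0
    · rw [if_pos h3, if_pos ((pk_iff c e e').1 h3), hq e' e, tsub_right_comm, neg_mul]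
    · rw [if_neg h3, if_neg (fun h4 => h3 ((pk_iff c e e').2 h4)), neg_zero]
  have h3 : (2 : ℚ) • X = 0 := by
    rw [two_smul]
    nth_rw 1 [h2]
    rw [neg_add_cancel]
  rcases smul_eq_zero.1 h3 with h4 | h4
  · norm_num at h4
  · exact h4

theorem Pk_closed {T : TS P} {q : C → Lam T.dt} {dc : C → ℕ} {n₀ d : ℕ} {g : ℤ}
    {hh : (C →₀ ℕ) → Lam T.dt} (hp : T.Pk q dc n₀ d g hh) (hdc : ∀ e, Even (dc e))
    (hq : ∀ e, q e ∈ T.hz (dc e + 1)) (hqD : ∀ e, T.D (q e) = 0) (c : C →₀ ℕ)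
    (hc : c.degree ≤ d + 1) :
    T.D (-∑ e, if c e = 0 then 0 else q e * hh (c - Finsupp.single e 1)) = 0 := by
  have hodd : ∀ e, sgn T.dt (q e) = -q e := fun e =>
    hz_sgn_odd T (((Int.even_coe_nat _).2 (hdc e)).add_one) (hq e)
  have hanti : ∀ e e', q e * q e' = -(q e' * q e) := fun e e' =>
    odd_anti (hodd e) (hodd e')
  have h1 : ∀ e, T.D (if c e = 0 then 0 else q e * hh (c - Finsupp.single e 1)) =
      if c e = 0 then 0 else
        q e * ∑ e', if (c - Finsupp.single e 1 : C →₀ ℕ) e' = 0 then 0 else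
          q e' * hh (c - Finsupp.single e 1 - Finsupp.single e' 1) := by
    intro e
    by_cases he : c e = 0
    · rw [if_pos he, if_pos he, map_zero]
    · rw [if_neg he, if_neg he, T.leib, hqD, zero_mul, zero_add, hodd]
      by_cases h0 : c - Finsupp.single e 1 = 0
      · rw [h0, hp.D0, mul_zero]
        rw [Finset.sum_eq_zero, mul_zero]
        intro e' _
        exact if_pos rfl
      · rw [hp.D _ h0 (by have := deg_sub he; omega), neg_mul_neg]
  rw [map_neg, map_sum, Finset.sum_congr rfl (fun e _ => h1 e), pk_anti q hanti hh c, neg_zero]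

theorem exists_packs (T : TS P) (n₀ : ℕ) (hn₀ : 2 ≤ n₀) (dc : C → ℕ) (hdc : ∀ e, Even (dc e))
    (q : C → Lam T.dt) (hq : ∀ e, q e ∈ T.hz (dc e + 1))
    (hqI : ∀ e, q e ∈ SP T.dt (fun l => 1 ≤ cW l)) (hqD : ∀ e, T.D (q e) = 0)
    {σ : Type} [Finite σ] (g : σ → ℤ) (m : σ → Lam T.dt) (hm : ∀ s, m s ∈ T.hz (g s))
    (hmI : ∀ s, m s ∈ T.sp 1 n₀) (hmD : ∀ s, T.D (m s) = 0) (d : ℕ) :
    ∃ (T' : TS P) (h : T.Hom T') (hh : σ → (C →₀ ℕ) → Lam T'.dt),
      (∀ s, T'.Pk (fun e => h.Φ (q e)) dc n₀ d (g s) (hh s)) ∧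
      (∀ s, hh s 0 = h.Φ (m s)) ∧
      ∀ i, i ∈ Set.range h.f ∨ (n₀ ≤ T'.deg i ∧ ∃ s c, c ≠ 0 ∧ c.degree ≤ d ∧
        T'.Gov (g s + wt dc c) (hh s c) i) := by
  classical
  induction d with
  | zero =>
    refine ⟨T, TS.Hom.id T, fun s c => if c = 0 then m s else 0, fun s => ?_, fun s => ?_,
      fun i => Or.inl ⟨i, rfl⟩⟩
    · refine ⟨fun c => ?_, fun c => ?_, ?_, fun c h1 h2 => ?_⟩ <;> beta_reduce
      · by_cases hc : c = 0
        · rw [if_pos hc, hc, wt_zero, add_zero]
          exact hm s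
        · rw [if_neg hc]
          exact zero_mem _
      · by_cases hc : c = 0
        · rw [if_pos hc]
          exact hmI s
        · rw [if_neg hc]
          exact zero_mem _
      · rw [if_pos rfl]
        exact hmD s
      · exfalso
        apply h1
        rw [← Finsupp.degree_eq_zero_iff]
        omega
    · beta_reduce
      rw [if_pos rfl, id_Φ]
  | succ d ih =>
    obtain ⟨T₁, h₁, hh, k1, k2, k3⟩ := ih
    have hq1 : ∀ e, h₁.Φ (q e) ∈ T₁.hz (dc e + 1) := fun e => hz_Φ h₁ (hq e)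
    have hqD1 : ∀ e, T₁.D (h₁.Φ (q e)) = 0 := fun e => by rw [Φ_D, hqD, map_zero]
    have hqs : ∀ e, h₁.Φ (q e) ∈ T₁.sp 1 2 := fun e => sp_Φ h₁ (sp_of_SP T (hqI e))
    have hfin : Finite {c : C →₀ ℕ // c.degree = d + 1} :=
      (Finsupp.finite_of_degree_eq (d + 1)).to_subtype
    obtain ⟨T₂, h₂, z, z1, z2, z3, z4⟩ := exists_fieldsE T₁ n₀ hn₀
      (σ := σ × {c : C →₀ ℕ // c.degree = d + 1})
      (fun x => g x.1 + wt dc x.2.1 + 1)
      (fun x => -∑ e, if x.2.1 e = 0 then 0 else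
        h₁.Φ (q e) * hh x.1 (x.2.1 - Finsupp.single e 1))
      (by
        intro x
        refine Submodule.neg_mem _ (Submodule.sum_mem _ fun e _ => ?_)
        by_cases he : x.2.1 e = 0
        · rw [if_pos he]
          exact zero_mem _
        · rw [if_neg he]
          have h3 := hz_mul T₁ (hq1 e) ((k1 x.1).hz (x.2.1 - Finsupp.single e 1))
          rw [wt_sub dc he] at h3
          have e1 : (dc e : ℤ) + 1 + (g x.1 + (wt dc x.2.1 - dc e)) =
            g x.1 + wt dc x.2.1 + 1 := by ring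
          rwa [e1] at h3)
      (by
        intro x
        refine Submodule.neg_mem _ (Submodule.sum_mem _ fun e _ => ?_)
        by_cases he : x.2.1 e = 0
        · rw [if_pos he]
          exact zero_mem _
        · rw [if_neg he]
          exact sp_mono T₁ (by omega) (by omega)
            (sp_mul T₁ (hqs e) ((k1 x.1).sp (x.2.1 - Finsupp.single e 1))))
      (fun x => Pk_closed (k1 x.1) hdc hq1 hqD1 x.2.1 (by rw [x.2.2]))
    refine ⟨T₂, h₁.comp h₂, fun s c => if h : c.degree = d + 1 then z (s, ⟨c, h⟩) else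
      h₂.Φ (hh s c), ?_, ?_, ?_⟩
    · intro s
      refine ⟨fun c => ?_, fun c => ?_, ?_, fun c h1 h2 => ?_⟩ <;> beta_reduce
      · by_cases hc : c.degree = d + 1
        · rw [dif_pos hc]
          have h3 := z1 (s, ⟨c, hc⟩)
          have e1 : g s + wt dc c + 1 - 1 = g s + wt dc c := by ring
          exact e1 ▸ h3
        · rw [dif_neg hc]
          exact hz_Φ h₂ ((k1 s).hz c)
      · by_cases hc : c.degree = d + 1
        · rw [dif_pos hc]
          exact z2 (s, ⟨c, hc⟩)
        · rw [dif_neg hc]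
          exact sp_Φ h₂ ((k1 s).sp c)
      · have h0 : ¬ (0 : C →₀ ℕ).degree = d + 1 := by
          rw [map_zero]
          omega
        rw [dif_neg h0, Φ_D, (k1 s).D0, map_zero]
      · have h5 : ∀ e, c e ≠ 0 → ¬ (c - Finsupp.single e 1 : C →₀ ℕ).degree = d + 1 := by
          intro e he
          have := deg_sub he
          omega
        have h6 : (∑ e, if c e = 0 then 0 else (h₁.comp h₂).Φ (q e) *
            (if h : (c - Finsupp.single e 1 : C →₀ ℕ).degree = d + 1 then
              z (s, ⟨c - Finsupp.single e 1, h⟩) else h₂.Φ (hh s (c - Finsupp.single e 1)))) =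
            h₂.Φ (∑ e, if c e = 0 then 0 else h₁.Φ (q e) * hh s (c - Finsupp.single e 1)) := by
          rw [map_sum]
          refine Finset.sum_congr rfl fun e _ => ?_
          by_cases he : c e = 0
          · rw [if_pos he, if_pos he, map_zero]
          · rw [if_neg he, if_neg he, dif_neg (h5 e he), map_mul, comp_Φ]
        rw [h6]
        by_cases hc : c.degree = d + 1
        · rw [dif_pos hc, z3 (s, ⟨c, hc⟩), map_neg]
        · rw [dif_neg hc, Φ_D, (k1 s).D c h1 (by omega), map_neg]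
    · intro s
      have h0 : ¬ (0 : C →₀ ℕ).degree = d + 1 := by
        rw [map_zero]
        omega
      beta_reduce
      rw [dif_neg h0, k2, comp_Φ]
    · intro i
      rcases z4 i with ⟨i₁, rfl⟩ | ⟨h3, ⟨s, c, hc⟩, h4⟩
      · rcases k3 i₁ with ⟨i₀, rfl⟩ | ⟨h3, s, c, h5, h6, h7⟩
        · exact Or.inl ⟨i₀, rfl⟩
        · refine Or.inr ⟨?_, s, c, h5, by omega, ?_⟩
          · rw [h₂.deg]
            exact h3
          · have hc : ¬ c.degree = d + 1 := by omega
            beta_reduce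
            rw [dif_neg hc]
            exact Gov_Φ h₂ h7
      · refine Or.inr ⟨h3, s, c, ?_, by omega, ?_⟩
        · intro h0
          rw [h0, map_zero] at hc
          omega
        · beta_reduce
          rw [dif_pos hc]
          have e1 : g s + wt dc c + 1 - 1 = g s + wt dc c := by ring
          exact e1 ▸ h4

end AnWL
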