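import Pool.Agent.Helper84.G2.Bs

/-!
G2/Qc. The closed odd elements `q_c`, `c ∈ A \ O` odd, linear in the odd coordinates.

1. `Z`: for a word `l = a₁ :: l'` with even letters in `A` (length `≥ 2`) put `ã_i = T.D (gX j_i)` (`j_i.1 = a_i`, `M_surj`) and `Z_l = gX j₁ * ã_{a₂} ⋯ ã_{a_k}`. Then
   `D Z_l = ã_{a₁} ⋯ ã_{a_k}` (the `ã` are closed and even), `Z_l ∈ hom`, `p i (p j Z_l) = 0` (`ã` is free of `X` by `T.Dt`), `Z_l` is in
   `SP (1 ≤ cW ∧ 2 ≤ length ∧ ∃ a ∈ A, inl (f a) ∈ l)`, and `mon (f l) - ã_{a₁} ⋯ ã_{a_k}` is in `SP c`,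
   `c l := 2 ≤ cW l ∧ (∀ x ∈ l, Ok x) ∧ ∃ x ∈ l, E x`, `Ok x := (∃ a ∈ A, x = inl (f a)) ∨ ∃ v, x = inr (inl v)`, `E x := (∃ o ∈ O, x = inl (f o)) ∨ ∃ v, x = inr (inl v)`
   (`IsBaseM.DX`: `ã_a - gW (f a)` has words with `1 ≤ cW`, a letter `inr (inl v)`; induction on `l'`).
2. By linearity (span induction on `dA_SP`; or `Submodule.mem_span` induction with the statement `∃ Z, ...`) `S.d (gen c) = P + R` and there is `Z ∈ hom (deg c)` with
   `T.D (gW (f c)) - T.D Z ∈ SP c`, `p i (p j Z) = 0`, `Z ∈ SP (1 ≤ cW ∧ 2 ≤ length ∧ ∃ a ∈ A, inl (f a) ∈ l)` (`T.D (gW (f c)) = iL (mapL f (S.d (gen c)))`, see `hdf` in `C09.lean`;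
   for the homogeneity use `SP_pr` for `S.d (gen c) ∈ hom (deg c + 1)`: only words of degree `deg c + 1`).
3. `koszul_words` (`Kw.lean`) for `κ = U`, `α u = inl (f u.1)`, `β u = inr (inl u)`, `w = 1` on `inl`, `0` on `inr`, `Ok`, `E` as above: `k` with
   `D k = T.D (gW (f c)) - T.D Z`, words with `inr (inl v)`, no `X`, at least one letter `inl (f a)`. `q = gW (f c) - Z - k`.
-/

set_option autoImplicit false

namespace AnWL
open Anick2

attribute [local irreducible] instRingLam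

/-- The admissible letters. -/
private def qcOk {ι ι' U M : Type} (A : Set ι) (f : ι → ι') (x : ι' ⊕ (U ⊕ M)) : Prop :=
  (∃ a ∈ A, x = Sum.inl (f a)) ∨ ∃ v, x = Sum.inr (Sum.inl v)

private theorem qc_cW_append {ι κ : Type} (l l' : List (ι ⊕ κ)) : cW (l ++ l') = cW l + cW l' := by
  simp [cW]

private theorem qc_cW_inl {ι κ : Type} (i : ι) (l : List (ι ⊕ κ)) :
    cW (Sum.inl i :: l) = cW l + 1 := by simp [cW]

private theorem qc_cW_inr {ι κ : Type} (i : κ) (l : List (ι ⊕ κ)) :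
    cW (Sum.inr i :: l) = cW l := by simp [cW]

private theorem qc_cW_nil {ι κ : Type} : cW ([] : List (ι ⊕ κ)) = 0 := by simp [cW]

private theorem qc_cW_map {ι κ : Type} (l : List ι) :
    cW (l.map (Sum.inl : ι → ι ⊕ κ)) = l.length := by
  induction l with
  | nil => simp [cW]
  | cons i l ih => rw [List.map_cons, qc_cW_inl, ih, List.length_cons]

private theorem qc_cW_le {ι κ : Type} (l : List (ι ⊕ κ)) : cW l ≤ l.length :=
  List.length_filter_le _ _

/-- An admissible word with a letter of `W` has a letter `inl (f a)`, `a ∈ A`. -/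
private theorem qc_letter {ι ι' U M : Type} {A : Set ι} {f : ι → ι'} {l : List (ι' ⊕ (U ⊕ M))}
    (h : 1 ≤ cW l) (hok : ∀ x ∈ l, qcOk A f x) : ∃ a ∈ A, Sum.inl (f a) ∈ l := by
  unfold cW at h
  obtain ⟨x, hx⟩ := List.exists_mem_of_length_pos (show 0 < _ from h)
  obtain ⟨h1, h2⟩ := List.mem_filter.1 hx
  rcases hok x h1 with ⟨a, ha, rfl⟩ | ⟨v, rfl⟩
  · exact ⟨a, ha, h1⟩
  · simp at h2

private theorem qc_w {ι κ : Type} (l : List (ι ⊕ κ)) :
    (l.map (Sum.elim (fun _ : ι => 1) (fun _ : κ => 0))).sum = cW l := by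
  induction l with
  | nil => simp [cW]
  | cons x l ih =>
    rcases x with i | t
    · rw [List.map_cons, List.sum_cons, ih, qc_cW_inl, Sum.elim_inl]
      omega
    · rw [List.map_cons, List.sum_cons, ih, qc_cW_inr, Sum.elim_inr]
      omega

section
variable {ι : Type} [hfin : Finite ι] {deg : ι → ℕ} {S : MinimalSullivan deg} {A O : Set ι}
  {n₀ N : ℕ} {hN : 1 ≤ N} {T : TS (PA S (AO deg A O) N hN)} {f : ι → T.ι}

private theorem qc_pos (x : T.ι ⊕ ((PA S (AO deg A O) N hN).U ⊕ (PA S (AO deg A O) N hN).M)) :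
    1 ≤ T.dt x := by
  rcases x with i | u | j
  · have h1 := T.S.two_le i
    change 1 ≤ T.deg i
    omega
  · have h1 := (PA S (AO deg A O) N hN).du_pos u
    change 1 ≤ (PA S (AO deg A O) N hN).du u
    omega
  · obtain ⟨k, hk⟩ := (PA S (AO deg A O) N hN).dm_odd j
    change 1 ≤ (PA S (AO deg A O) N hN).dm j
    omega

/-- `ã`. -/
private theorem qc_a (hS : S.PureMod A O) (h : IsBaseM S A O n₀ N hN T f) (a : ι) (ha : a ∈ A)
    (he : Even (deg a)) : ∃ j : (PA S (AO deg A O) N hN).M, j.1 = a ∧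
      T.gX j ∈ hom T.dt (deg a - 1) ∧ T.D (T.gX j) ∈ hom T.dt (deg a) ∧
      T.gW (f a) - T.D (T.gX j) ∈ SP T.dt (fun l => 1 ≤ cW l ∧ (∀ x ∈ l, qcOk A f x) ∧
        ∃ v, Sum.inr (Sum.inl v) ∈ l) := by
  obtain ⟨j, rfl⟩ := M_surj (S := S) (O := O) (N := N) (hN := hN) ha he
  have h2 := S.two_le j.1
  have h1 : T.gX j ∈ hom T.dt (deg j.1 - 1) := gen_mem_hom T.dt (Sum.inr (Sum.inr j))
  have h3 := T.diff.map_hom _ _ h1
  rw [show deg j.1 - 1 + 1 = deg j.1 by omega] at h3
  refine ⟨j, rfl, h1, h3, ?_⟩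
  rw [← neg_sub]
  refine neg_mem (SP_imp ?_ (h.DX j))
  rintro l ⟨g1, g2, g3, g4⟩
  exact ⟨g1, g3, g4⟩

/-- The product of the `ã`. -/
private theorem qc_prod (hS : S.PureMod A O) (h : IsBaseM S A O n₀ N hN T f) (l : List ι)
    (hl : ∀ i ∈ l, i ∈ A) (he : ∀ i ∈ l, Even (deg i)) :
    ∃ R : Lam T.dt, T.D R = 0 ∧ R ∈ hom T.dt (degSum deg l) ∧ (∀ j, T.p j R = 0) ∧
      R ∈ SP T.dt (fun w => l.length ≤ cW w ∧ ∀ x ∈ w, qcOk A f x) ∧
      mon T.dt ((l.map f).map Sum.inl) - R ∈ SP T.dt (fun w => l.length ≤ cW w ∧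
        (∀ x ∈ w, qcOk A f x) ∧ ∃ v, Sum.inr (Sum.inl v) ∈ w) := by
  induction l with
  | nil =>
    refine ⟨1, d_one T.diff, ?_, ?_, ?_, ?_⟩
    · have := mon_mem_hom (deg := T.dt) []
      rwa [mon_nil, degSum_nil] at this
    · intro j
      exact pdv_zero_of_SP (T.odd j) (by
        have : (1 : Lam T.dt) = mon T.dt [] := (mon_nil T.dt).symm
        rw [this]
        exact SP_mon (by simp))
    · have : (1 : Lam T.dt) = mon T.dt [] := (mon_nil T.dt).symm
      rw [this]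
      exact SP_mon ⟨by simp [cW], by simp⟩
    · rw [List.map_nil, List.map_nil, mon_nil, sub_self]
      exact zero_mem _
  | cons a l ih =>
    obtain ⟨R, h1, h2, h3, h4, h5⟩ := ih (fun i hi => hl i (List.mem_cons_of_mem _ hi))
      (fun i hi => he i (List.mem_cons_of_mem _ hi))
    have haA : a ∈ A := hl a List.mem_cons_self
    obtain ⟨j, -, -, g2, g3⟩ := qc_a hS h a haA (he a List.mem_cons_self)
    have hgW : T.gW (f a) ∈ SP T.dt (fun w => 1 ≤ cW w ∧ ∀ x ∈ w, qcOk A f x) := by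
      refine SP_gen ⟨?_, ?_⟩
      · rw [qc_cW_inl, qc_cW_nil]
      · intro x hx
        rw [List.mem_singleton.1 hx]
        exact Or.inl ⟨a, haA, rfl⟩
    have ha' : T.D (T.gX j) ∈ SP T.dt (fun w => 1 ≤ cW w ∧ ∀ x ∈ w, qcOk A f x) := by
      have e : T.D (T.gX j) = T.gW (f a) - (T.gW (f a) - T.D (T.gX j)) := by abel
      rw [e]
      exact sub_mem hgW (SP_imp (fun w hw => ⟨hw.1, hw.2.1⟩) g3)
    refine ⟨T.D (T.gX j) * R, ?_, ?_, ?_, ?_, ?_⟩
    · rw [T.leib, T.diff.d_d, zero_mul, h1, mul_zero, add_zero]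
    · rw [degSum_cons]
      exact mul_mem_hom T.dt g2 h2
    · intro i
      have e1 : T.p i (T.D (T.gX j)) = 0 := by
        rw [T.p_D]
        by_cases hij : j = i
        · subst hij
          have : T.p j (T.gX j) = 1 := pdv_gen (T.odd j)
          rw [this, d_one T.diff, neg_zero]
        · have : T.p i (T.gX j) = 0 := pdv_gen_ne (T.odd i) (by
            intro hh
            exact hij (Sum.inr_injective (Sum.inr_injective hh)))
          rw [this, map_zero, neg_zero]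
      have e2 : T.p i (T.D (T.gX j) * R) = T.p i (T.D (T.gX j)) * R +
          sgn T.dt (T.D (T.gX j)) * T.p i R := pdv_mul (T.odd i) _ _
      rw [e2, e1, h3, zero_mul, mul_zero, add_zero]
    · refine SP_mul ?_ ha' h4
      rintro w w' ⟨k1, k2⟩ ⟨k3, k4⟩
      refine ⟨?_, ?_⟩
      · rw [qc_cW_append, List.length_cons]
        omega
      · intro x hx
        rcases List.mem_append.1 hx with hx | hx
        · exact k2 x hx
        · exact k4 x hx
    · have e : mon T.dt (((a :: l).map f).map Sum.inl) - T.D (T.gX j) * R =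
          T.gW (f a) * (mon T.dt ((l.map f).map Sum.inl) - R) +
            (T.gW (f a) - T.D (T.gX j)) * R := by
        rw [List.map_cons, List.map_cons, mon_cons, mul_sub, sub_mul]
        abel
      rw [e]
      refine add_mem ?_ ?_
      · refine SP_mul ?_ hgW h5
        rintro w w' ⟨k1, k2⟩ ⟨k3, k4, v, k5⟩
        refine ⟨?_, ?_, v, List.mem_append_right _ k5⟩
        · rw [qc_cW_append, List.length_cons]
          omega
        · intro x hx
          rcases List.mem_append.1 hx with hx | hx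
          · exact k2 x hx
          · exact k4 x hx
      · refine SP_mul ?_ g3 h4
        rintro w w' ⟨k1, k2, v, k5⟩ ⟨k3, k4⟩
        refine ⟨?_, ?_, v, List.mem_append_left _ k5⟩
        · rw [qc_cW_append, List.length_cons]
          omega
        · intro x hx
          rcases List.mem_append.1 hx with hx | hx
          · exact k2 x hx
          · exact k4 x hx

/-- The marked letters. -/
private def qcE {ι ι' U M : Type} (O : Set ι) (f : ι → ι') (x : ι' ⊕ (U ⊕ M)) : Prop :=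
  (∃ o ∈ O, x = Sum.inl (f o)) ∨ ∃ v, x = Sum.inr (Sum.inl v)

/-- The element `Z`. -/
private theorem qc_Z (hS : S.PureMod A O) (h : IsBaseM S A O n₀ N hN T f) (n : ℕ) (a : Lam deg)
    (ha : a ∈ SP deg (fun l => (((∀ i ∈ l, i ∈ A) ∧
      ((∃ i ∈ l, i ∈ O) ∨ ∀ i ∈ l, Even (deg i))) ∧ 2 ≤ l.length) ∧ degSum deg l = n + 1)) :
    ∃ Z ∈ hom T.dt n, (∀ i j, T.p i (T.p j Z) = 0) ∧
      Z ∈ SP T.dt (fun l => 1 ≤ cW l ∧ 2 ≤ l.length ∧ ∃ a ∈ A, Sum.inl (f a) ∈ l) ∧
      iL T.deg (PA S (AO deg A O) N hN).dq (mapL f h.deg a) - T.D Z ∈ SP T.dt (fun l => 2 ≤ cW l ∧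
        (∀ x ∈ l, qcOk A f x) ∧ ∃ x ∈ l, qcE O f x) := by
  unfold SP at ha
  induction ha using Submodule.span_induction with
  | mem x hx =>
    obtain ⟨l, ⟨⟨⟨hlA, hl⟩, hlen⟩, hdeg⟩, rfl⟩ := hx
    have e0 : iL T.deg (PA S (AO deg A O) N hN).dq (mapL f h.deg (mon deg l)) =
        mon T.dt ((l.map f).map Sum.inl) := by
      rw [mapL_mon]
      exact mapL_mon (deg := T.dt) (deg' := T.deg) (f := Sum.inl) (fun _ => rfl) _
    rcases hl with ⟨o, hol, hoO⟩ | he
    · refine ⟨0, zero_mem _, ?_, zero_mem _, ?_⟩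
      · intro i j
        rw [map_zero, map_zero]
      · rw [map_zero, sub_zero, e0]
        refine SP_mon ⟨?_, ?_, ?_⟩
        · rw [qc_cW_map, List.length_map]
          exact hlen
        · intro x hx
          obtain ⟨y, hy, rfl⟩ := List.mem_map.1 hx
          obtain ⟨z, hz, rfl⟩ := List.mem_map.1 hy
          exact Or.inl ⟨z, hlA z hz, rfl⟩
        · exact ⟨Sum.inl (f o), List.mem_map.2 ⟨f o, List.mem_map.2 ⟨o, hol, rfl⟩, rfl⟩,
            Or.inl ⟨o, hoO, rfl⟩⟩
    · rcases l with _ | ⟨b, l⟩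
      · simp at hlen
      obtain ⟨R, h1, h2, h3, h4, h5⟩ := qc_prod hS h l (fun i hi => hlA i (List.mem_cons_of_mem _ hi))
        (fun i hi => he i (List.mem_cons_of_mem _ hi))
      have hbA : b ∈ A := hlA b List.mem_cons_self
      obtain ⟨j, -, g1, g2, g3⟩ := qc_a hS h b hbA (he b List.mem_cons_self)
      have hl1 : 1 ≤ l.length := by
        rw [List.length_cons] at hlen
        omega
      have hb2 := S.two_le b
      refine ⟨T.gX j * R, ?_, ?_, ?_, ?_⟩
      · have := mul_mem_hom T.dt g1 h2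
        rw [degSum_cons] at hdeg
        rwa [show deg b - 1 + degSum deg l = n by omega] at this
      · intro i i'
        have e2 : T.p i' (T.gX j * R) = T.p i' (T.gX j) * R +
          sgn T.dt (T.gX j) * T.p i' R := pdv_mul (T.odd i') _ _
        rw [e2, h3, mul_zero, add_zero]
        by_cases hij : j = i'
        · subst hij
          have : T.p j (T.gX j) = 1 := pdv_gen (T.odd j)
          rw [this, one_mul, h3]
        · have : T.p i' (T.gX j) = 0 := pdv_gen_ne (T.odd i') (by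
            intro hh
            exact hij (Sum.inr_injective (Sum.inr_injective hh)))
          rw [this, zero_mul, map_zero]
      · refine SP_mul (p := fun w => w = [Sum.inr (Sum.inr j)]) ?_ (SP_gen rfl) h4
        rintro w w' rfl ⟨k3, k4⟩
        have k5 := qc_cW_le w'
        obtain ⟨a, ha, ha'⟩ := qc_letter (show 1 ≤ cW w' by omega) k4
        refine ⟨?_, ?_, a, ha, List.mem_append_right _ ha'⟩
        · rw [qc_cW_append]
          omega
        · rw [List.length_append, List.length_singleton]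
          omega
      · have e3 : T.D (T.gX j * R) = T.D (T.gX j) * R := by
          rw [T.leib, h1, mul_zero, add_zero]
        rw [e0, e3]
        have e : mon T.dt (((b :: l).map f).map Sum.inl) - T.D (T.gX j) * R =
          T.gW (f b) * (mon T.dt ((l.map f).map Sum.inl) - R) +
            (T.gW (f b) - T.D (T.gX j)) * R := by
          rw [List.map_cons, List.map_cons, mon_cons, mul_sub, sub_mul]
          abel
        rw [e]
        refine add_mem ?_ ?_
        · refine SP_mul (p := fun w => w = [Sum.inl (f b)]) ?_ (SP_gen rfl) h5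
          rintro w w' rfl ⟨k3, k4, v, k5⟩
          refine ⟨?_, ?_, _, List.mem_append_right _ k5, Or.inr ⟨v, rfl⟩⟩
          · rw [qc_cW_append, qc_cW_inl, qc_cW_nil]
            omega
          · intro x hx
            rcases List.mem_append.1 hx with hx | hx
            · rw [List.mem_singleton.1 hx]
              exact Or.inl ⟨b, hbA, rfl⟩
            · exact k4 x hx
        · refine SP_mul ?_ g3 h4
          rintro w w' ⟨k1, k2, v, k5⟩ ⟨k3, k4⟩
          refine ⟨?_, ?_, _, List.mem_append_left _ k5, Or.inr ⟨v, rfl⟩⟩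
          · rw [qc_cW_append]
            omega
          · intro x hx
            rcases List.mem_append.1 hx with hx | hx
            · exact k2 x hx
            · exact k4 x hx
  | zero =>
    refine ⟨0, zero_mem _, ?_, zero_mem _, ?_⟩
    · intro i j
      rw [map_zero, map_zero]
    · rw [map_zero, map_zero, map_zero, sub_zero]
      exact zero_mem _
  | add x y _ _ hx hy =>
    obtain ⟨Z, h1, h2, h3, h4⟩ := hx
    obtain ⟨Z', h1', h2', h3', h4'⟩ := hy
    refine ⟨Z + Z', add_mem h1 h1', ?_, add_mem h3 h3', ?_⟩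
    · intro i j
      rw [map_add, map_add, h2, h2', add_zero]
    · have := add_mem h4 h4'
      rw [map_add, map_add, map_add]
      have e : ∀ u v s t : Lam T.dt, u + v - (s + t) = (u - s) + (v - t) := by
        intro u v s t
        abel
      rw [e]
      exact this
  | smul r x _ hx =>
    obtain ⟨Z, h1, h2, h3, h4⟩ := hx
    refine ⟨r • Z, Submodule.smul_mem _ _ h1, ?_, Submodule.smul_mem _ _ h3, ?_⟩
    · intro i j
      rw [map_smul, map_smul, h2, smul_zero]
    · rw [map_smul, map_smul, map_smul, ← smul_sub]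
      exact Submodule.smul_mem _ _ h4

end

theorem exists_q {ι : Type} [Finite ι] {deg : ι → ℕ} (S : MinimalSullivan deg)
    (A O : Set ι) (hS : S.PureMod A O) (n₀ N : ℕ) (hN : 1 ≤ N)
    (T : TS (PA S (AO deg A O) N hN)) (f : ι → T.ι) (h : IsBaseM S A O n₀ N hN T f)
    (c : ι) (hcA : c ∈ A) (hc : Odd (deg c)) :
    ∃ q ∈ hom T.dt (deg c), T.D q = 0 ∧ (∀ i j, T.p i (T.p j q) = 0) ∧
      q - T.gW (f c) ∈ SP T.dt (fun l => 1 ≤ cW l ∧ 2 ≤ l.length ∧
        ∃ a ∈ A, Sum.inl (f a) ∈ l) := by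
  classical
  have hfX : Finite (T.ι ⊕ ((PA S (AO deg A O) N hN).U ⊕ (PA S (AO deg A O) N hN).M)) := T.finT
  have hDg : ∀ a, T.D (T.gW (f a)) =
      iL T.deg (PA S (AO deg A O) N hN).dq (mapL f h.deg (S.d (gen deg a))) := by
    intro a
    rw [← h.d, mapL_gen, ← T.ext]
    congr 1
    exact (mapL_gen _ (f a)).symm
  have hdc : S.d (gen deg c) ∈ SP deg (fun l => (((∀ i ∈ l, i ∈ A) ∧
      ((∃ i ∈ l, i ∈ O) ∨ ∀ i ∈ l, Even (deg i))) ∧ 2 ≤ l.length) ∧
      degSum deg l = deg c + 1) := by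
    refine SP_pr (SP_imp ?_ (dA_SP hS hcA)) (S.isDifferential.map_hom _ _ (gen_mem_hom deg c))
    rintro l ⟨⟨g1, g2⟩, g3⟩
    exact ⟨⟨g1, g2.imp id (fun g => g.2)⟩, g3⟩
  obtain ⟨Z, hZ1, hZ2, hZ3, hZ4⟩ := qc_Z hS h (deg c) _ hdc
  rw [← hDg] at hZ4
  have hdf : ∀ {p : List ι → Prop} {q : List (T.ι ⊕ ((PA S (AO deg A O) N hN).U ⊕
      (PA S (AO deg A O) N hN).M)) → Prop} (a : ι),
      (∀ l, p l → q ((l.map f).map Sum.inl)) → S.d (gen deg a) ∈ SP deg p →
        T.D (T.gW (f a)) ∈ SP T.dt q := by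
    intro p q a hpq ha
    rw [hDg]
    exact SP_mapL (δ' := T.dt) Sum.inl (fun _ => rfl) (p := fun l => ∃ l', p l' ∧ l = l'.map f)
      (by rintro l ⟨l', hl', rfl⟩; exact hpq l' hl')
      (SP_mapL f h.deg (fun l hl => ⟨l, hl, rfl⟩) ha)
  have hgW : T.gW (f c) ∈ hom T.dt (deg c) := by
    have := gen_mem_hom T.dt (Sum.inl (f c))
    change T.gW (f c) ∈ hom T.dt (T.deg (f c)) at this
    rwa [h.deg] at this
  have hpn : T.D (T.gW (f c)) - T.D Z ∈ hom T.dt (deg c + 1) :=
    sub_mem (T.diff.map_hom _ _ hgW) (T.diff.map_hom _ _ hZ1)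
  have hDp : T.D (T.D (T.gW (f c)) - T.D Z) = 0 := by
    rw [map_sub, T.diff.d_d, T.diff.d_d, sub_zero]
  have hmapOk : ∀ l : List ι, (∀ i ∈ l, i ∈ A) → ∀ x ∈ (l.map f).map
      (Sum.inl : T.ι → T.ι ⊕ ((PA S (AO deg A O) N hN).U ⊕ (PA S (AO deg A O) N hN).M)),
      qcOk A f x := by
    intro l hl x hx
    obtain ⟨y, hy, rfl⟩ := List.mem_map.1 hx
    obtain ⟨z, hz, rfl⟩ := List.mem_map.1 hy
    exact Or.inl ⟨z, hl z hz, rfl⟩
  obtain ⟨k, hk1, hk2, hk3⟩ := koszul_words (δ := T.dt) qc_pos T.D T.diff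
    (κ := (PA S (AO deg A O) N hN).U)
    (fun u => Sum.inl (f u.1)) (fun u => Sum.inr (Sum.inl u))
    (fun u v huv => Subtype.ext (h.inj (Sum.inl_injective huv)))
    (fun u => by
      change (deg u.1 - 1) + 1 = T.deg (f u.1)
      have := S.two_le u.1
      rw [h.deg]
      omega)
    (Sum.elim (fun _ => 1) (fun _ => 0))
    (by rintro (x | x) <;> simp) (fun _ => rfl) (fun _ => rfl) (qcOk A f) (qcE O f)
    (by
      rintro x (⟨o, ho, rfl⟩ | ⟨v, rfl⟩)
      · exact Or.inl ⟨o, hS.sub ho, rfl⟩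
      · exact Or.inr ⟨v, rfl⟩)
    (fun u => Or.inl ⟨u.1, U_mem hS u, rfl⟩)
    (fun u => Or.inr ⟨u, rfl⟩)
    (by
      rintro x (⟨o, ho, rfl⟩ | ⟨v, rfl⟩)
      · obtain ⟨u, rfl⟩ := U_surj (S := S) (A := A) (N := N) (hN := hN) hS ho
        exact Or.inl ⟨u, rfl⟩
      · exact Or.inr ⟨v, rfl⟩)
    (fun u v huv => Sum.inl_ne_inr huv)
    (by
      rintro x hx hxβ
      rcases hx with ⟨a, ha, rfl⟩ | ⟨v, rfl⟩
      · by_cases haO : a ∈ O
        · refine hdf a ?_ (dO_SP hS haO)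
          rintro l ⟨g1, g2⟩
          refine ⟨by rw [List.length_map, List.length_map]; exact g2, ?_,
            hmapOk l (fun i hi => hS.sub (g1 i hi)), fun _ => ?_⟩
          · rw [qc_w, qc_cW_map, List.length_map, Sum.elim_inl]
            omega
          · obtain ⟨y, hy⟩ := List.exists_mem_of_length_pos (show 0 < l.length by omega)
            exact ⟨Sum.inl (f y), List.mem_map.2 ⟨f y, List.mem_map.2 ⟨y, hy, rfl⟩, rfl⟩,
              Or.inl ⟨y, g1 y hy, rfl⟩⟩
        · refine hdf a ?_ (dA_SP hS ha)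
          rintro l ⟨⟨g1, -⟩, g2⟩
          refine ⟨by rw [List.length_map, List.length_map]; exact g2, ?_,
            hmapOk l g1, ?_⟩
          · rw [qc_w, qc_cW_map, List.length_map, Sum.elim_inl]
            omega
          · rintro (⟨o, ho, hoe⟩ | ⟨v, hv⟩)
            · have : a = o := h.inj (Sum.inl_injective hoe)
              rw [this] at haO
              exact absurd ho haO
            · exact absurd hv Sum.inl_ne_inr
      · exact absurd rfl (hxβ v))
    (by
      intro u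
      refine SP_imp ?_ (h.DU u)
      rintro l ⟨g1, g2, g3⟩
      refine ⟨g2, by rw [qc_w]; exact g1, ?_, ?_⟩
      · intro x hx
        rcases g3 x hx with ⟨o, ho, rfl⟩ | ⟨v, rfl⟩
        · exact Or.inl ⟨o, hS.sub ho, rfl⟩
        · exact Or.inr ⟨v, rfl⟩
      · obtain ⟨y, hy⟩ := List.exists_mem_of_length_pos (show 0 < l.length by omega)
        exact ⟨y, hy, g3 y hy⟩)
    (n := deg c) (p := T.D (T.gW (f c)) - T.D Z)
    (SP_imp (fun l hl => by rw [qc_w]; exact hl) hZ4) hpn hDp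
  have hkX : ∀ j, T.p j k = 0 := by
    intro j
    refine pdv_zero_of_SP (T.odd j) (SP_imp ?_ hk3)
    rintro l ⟨-, -, g3, -⟩ hj
    rcases g3 _ hj with ⟨a, -, ha⟩ | ⟨v, hv⟩
    · exact Sum.inl_ne_inr ha.symm
    · exact Sum.inl_ne_inr (Sum.inr_injective hv).symm
  have hgX : ∀ j, T.p j (T.gW (f c)) = 0 := fun j => pdv_gen_ne (T.odd j) Sum.inl_ne_inr
  refine ⟨T.gW (f c) - Z - k, sub_mem (sub_mem hgW hZ1) hk1, ?_, ?_, ?_⟩
  · rw [map_sub, map_sub, hk2, sub_self]
  · intro i j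
    have e1 : T.p j (T.gW (f c) - Z - k) = -T.p j Z := by
      rw [map_sub, map_sub, hkX, hgX, zero_sub, sub_zero]
    rw [e1, map_neg, hZ2, neg_zero]
  · have e : T.gW (f c) - Z - k - T.gW (f c) = -Z - k := by abel
    rw [e]
    refine sub_mem (neg_mem hZ3) (SP_imp ?_ hk3)
    rintro l ⟨g1, g2, g3, -⟩
    rw [qc_w] at g1
    exact ⟨g1, g2, qc_letter g1 g3⟩

end AnWL
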