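import Pool.Agent.Helper84.G2.Ba
import Pool.Agent.Helper84.G2.Qc
import Pool.Agent.Helper84.G2.Ft
import Pool.Agent.Helper84.G2.Pa
import Pool.Agent.Helper84.G2.Main
import Pool.Agent.Helper48.WL.C12b

/-!
G2/St. One step: an extension which kills all the even generators belonging to one pair `(A, O)` with `PureMod A O`.
-/

set_option autoImplicit false

namespace AnWL
open Anick2

private theorem st_iL_gen {ι κ : Type} {deg : ι → ℕ} {deg' : κ → ℕ} (i : ι) :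
    iL deg deg' (gen deg i) = gen (Sum.elim deg deg') (Sum.inl i) := by
  unfold iL
  exact mapL_gen (deg := Sum.elim deg deg') (fun _ => rfl) i

theorem stepM (H7 : ∀ P : Par, OneCol P) {ι : Type} [Finite ι] {deg : ι → ℕ}
    (S : MinimalSullivan deg) (n₀ : ℕ) (hn₀ : 2 ≤ n₀) (A O : Set ι) (hS : S.PureMod A O) :
    ∃ (ι' : Type) (_ : Finite ι') (deg' : ι' → ℕ) (S' : MinimalSullivan deg') (f : ι → ι')
      (hdeg : ∀ i, deg' (f i) = deg i), Function.Injective f ∧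
      (∀ a, S'.d (mapL f hdeg a) = mapL f hdeg (S.d a)) ∧
      (∀ i, i ∉ Set.range f → n₀ ≤ deg' i ∧ Killed S' i) ∧
      ∀ t, Even (deg t) → (t ∈ A ∨ S.d (gen deg t) ∈ idealSpan (gen deg '' A)) →
        Killed S' (f t) := by
  classical
  have hN : 1 ≤ n₀ + 2 := by omega
  obtain ⟨T₀, f, hB⟩ := exists_baseM S A O hS n₀ hn₀ (n₀ + 2) hN le_rfl
  letI : Fintype (CO deg A O) := Fintype.ofFinite _
  have hcod : ∀ c : CO deg A O, Odd (deg c.1) := fun c => c.2.2.2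
  have hc3 : ∀ c : CO deg A O, 3 ≤ deg c.1 := by
    intro c
    have h1 := S.two_le c.1
    obtain ⟨k, hk⟩ := hcod c
    omega
  choose q hq hqD hqp hqc using fun c : CO deg A O =>
    exists_q S A O hS n₀ (n₀ + 2) hN T₀ f hB c.1 c.2.1 (hcod c)
  have hqI : ∀ c, q c ∈ SP T₀.dt (fun l => 1 ≤ cW l) := by
    intro c
    have h1 : q c = (q c - T₀.gW (f c.1)) + T₀.gW (f c.1) := (sub_add_cancel _ _).symm
    rw [h1]
    exact add_mem (SP_imp (fun l hl => hl.1) (hqc c)) (SP_gen (le_of_eq rfl))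
  have hF : ∀ t, ∃ F : (CO deg A O →₀ ℕ) → Lam T₀.dt,
      (Even (deg t) ∧ t ∉ A ∧ S.d (gen deg t) ∈ idealSpan (gen deg '' A)) →
      (T₀.Cf q (fun c => deg c.1 - 1) (deg t) F ∧ (∀ b, F b ∈ SP T₀.dt (fun l => 1 ≤ cW l)) ∧
        T₀.gW (f t) - F 0 ∈ SP T₀.dt (fun l => 1 ≤ cW l ∧ ∃ s, Sum.inr s ∈ l)) := by
    intro t
    by_cases h : Even (deg t) ∧ t ∉ A ∧ S.d (gen deg t) ∈ idealSpan (gen deg '' A)
    · obtain ⟨F, h1, h2, h3⟩ := exists_FM S A O hS n₀ (n₀ + 2) hN T₀ f hB q hq hqD hqc t h.2.2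
      exact ⟨F, fun _ => ⟨h1, h2, h3⟩⟩
    · exact ⟨fun _ => 0, fun h' => absurd h' h⟩
  choose F hF using hF
  have hfin : {t : ι | Even (deg t) ∧ t ∉ A ∧
      S.d (gen deg t) ∈ idealSpan (gen deg '' A)}.Finite := Set.toFinite _
  have hE : ∀ t, t ∈ hfin.toFinset ↔ (Even (deg t) ∧ t ∉ A ∧
      S.d (gen deg t) ∈ idealSpan (gen deg '' A)) := fun t => hfin.mem_toFinset
  obtain ⟨P', T, e, hnew, hkill⟩ := polarise H7 T₀ n₀ hn₀ (fun c : CO deg A O => deg c.1 - 1)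
    (fun c => by
      obtain ⟨k, hk⟩ := hcod c
      exact ⟨k, by omega⟩)
    (fun c => by have := hc3 c; omega) q
    (fun c => by
      have h1 := hz_of_hom T₀ (hq c)
      have h2 : ((deg c.1 : ℕ) : ℤ) = ((deg c.1 - 1 : ℕ) : ℤ) + 1 := by
        have := hc3 c
        omega
      rwa [h2] at h1)
    hqI hqD hqp hfin.toFinset F (fun t => (deg t : ℤ))
    (fun t ht => (Int.even_coe_nat _).2 ((hE t).1 ht).1)
    (fun t ht => (hF t ((hE t).1 ht)).1) (fun t ht => (hF t ((hE t).1 ht)).2.1)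
  have hdeg : ∀ i, T.deg ((e.f ∘ f) i) = deg i := fun i => (e.deg _).trans (hB.deg i)
  have hcomp : ∀ a, mapL (deg' := deg) (deg := T.deg) (e.f ∘ f) hdeg a =
      mapL e.f e.deg (mapL f hB.deg a) := by
    have : mapL (deg' := deg) (deg := T.deg) (e.f ∘ f) hdeg =
        (mapL e.f e.deg).comp (mapL f hB.deg) := by
      refine Lam.algHom_ext _ fun i => ?_
      rw [AlgHom.comp_apply, mapL_gen, mapL_gen, mapL_gen]
      rfl
    exact fun a => congrArg (fun g : Lam deg →ₐ[ℚ] Lam T.deg => g a) this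
  refine ⟨T.ι, T.fin, T.deg, T.S, e.f ∘ f, hdeg, e.inj.comp hB.inj, fun a => ?_, fun i hi => ?_,
    fun t hev ht => ?_⟩
  · rw [hcomp, hcomp, E_d, hB.d]
  · by_cases hr : i ∈ Set.range e.f
    · obtain ⟨i₀, rfl⟩ := hr
      have hr₀ : i₀ ∉ Set.range f := by
        rintro ⟨a, rfl⟩
        exact hi ⟨a, rfl⟩
      refine ⟨?_, killed_odd T.S ?_⟩
      · rw [e.deg]
        exact (hB.new i₀ hr₀).1
      · rw [e.deg]
        exact (hB.new i₀ hr₀).2
    · exact ⟨(hnew i hr).1, killed_of_nl T (hnew i hr).2⟩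
  · refine killed_of_nl T ?_
    change T.gW (e.f (f t)) ∈ T.nl
    by_cases ha : t ∈ A
    · rw [← E_gW e]
      exact E_nl e (point_AM S A O hS n₀ (n₀ + 2) hN T₀ f hB t ha)
    · have ht' := ht.resolve_left ha
      intro K c1 c2 c3 θ hθ
      have hp : ∀ b, (θ.comp (iL T.deg P'.dq)) (T.S.d b) = 0 := by
        intro b
        rw [AlgHom.comp_apply, ← T.ext]
        exact hθ _
      obtain ⟨θ₀, h1, h2, h3, h4⟩ := exists_zero_point T (θ.comp (iL T.deg P'.dq)) hp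
      have k1 : θ₀ (e.Φ (F t 0)) = 0 := hkill t ((hE t).2 ⟨hev, ha, ht'⟩) K θ₀ h1
      have k2 : (θ₀.comp e.Φ) (T₀.gW (f t) - F t 0) = 0 := by
        refine SP_lift_zero (θ₀.comp e.Φ) (fun l hl => ?_) (hF t ⟨hev, ha, ht'⟩).2.2
        obtain ⟨-, s, hs⟩ := hl
        refine ⟨Sum.inr s, hs, ?_⟩
        rw [AlgHom.comp_apply]
        rcases s with u | j
        · have e1 : e.Φ (gen T₀.dt (Sum.inr (Sum.inl u))) = T.gU (e.fu u) := E_gU e u
          rw [e1]
          exact h3 _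
        · have e1 : e.Φ (gen T₀.dt (Sum.inr (Sum.inr j))) = T.gX (e.fm j) := E_gX e j
          rw [e1]
          exact h4 _
      have k3 : θ₀ (T.gW (e.f (f t))) = 0 := by
        rw [map_sub, AlgHom.comp_apply, AlgHom.comp_apply, k1, sub_zero, E_gW] at k2
        exact k2
      have k4 := h2 (gen T.deg (e.f (f t)))
      rw [AlgHom.comp_apply, st_iL_gen] at k4
      rw [← k4]
      exact k3

end AnWL
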