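import Pool.Agent.Helper84.G2.Fld
import Pool.Agent.Helper48.WL.C08c

/-!
G2/Yt. Powers of closed even elements without letters `X` are boundaries after an extension by odd generators.

`exists_pows`: like `exists_Y` in `C08c.lean` (superfields over `L = ∅`, `exists_superfield2` or `exists_superfield`; all their letters are odd, as `Λ(u)` is even), for `a_s ^ (n₀ + 2)`.
`exists_lin`: the closed elements `z` without `X` (`∀ j, T.p j z = 0`), `sgn z = z`, form a commutative ring, the boundaries of elements without `X` form an ideal in it; the radical is an ideal: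
if a power of each `a_c` is a boundary, then a power of each `∑ λ_c a_c` is (`Commute.add_pow`, or the quotient by the ideal and `Commute.isNilpotent_sum`).
-/

set_option autoImplicit false

namespace AnWL
open Anick2
variable {P : Par}

private theorem yt_one (T : TS P) (j : P.M) : T.p j 1 = 0 := by
  have h : (1 : Lam T.dt) ∈ SP T.dt (fun l => Sum.inr (Sum.inr j) ∉ l) :=
    Submodule.subset_span ⟨[], by simp, rfl⟩
  exact pdv_zero_of_SP (T.odd j) h

private theorem yt_p_mul (T : TS P) (j : P.M) {a b : Lam T.dt} (h : T.p j a = 0)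
    (h' : T.p j b = 0) : T.p j (a * b) = 0 := by
  have h1 : T.p j (a * b) = T.p j a * b + sgn T.dt a * T.p j b := pdv_mul (T.odd j) a b
  rw [h1, h, h', zero_mul, mul_zero, add_zero]

private theorem yt_p_pow (T : TS P) (j : P.M) {a : Lam T.dt} (h : T.p j a = 0) (n : ℕ) :
    T.p j (a ^ n) = 0 := by
  induction n with
  | zero => rw [pow_zero]; exact yt_one T j
  | succ n ih => rw [pow_succ]; exact yt_p_mul T j ih h

private theorem yt_D_pow (T : TS P) {a : Lam T.dt} (h : T.D a = 0) (n : ℕ) :
    T.D (a ^ n) = 0 := by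
  induction n with
  | zero => rw [pow_zero]; exact d_one T.diff
  | succ n ih => rw [pow_succ, T.leib, ih, h, zero_mul, mul_zero, add_zero]

private theorem yt_even {Q : ℕ} (B : Bas P ∅ Q) (b : B.B) : Even (B.e b) := by
  by_contra hne
  have h0 : B.ω b = 0 := by
    refine homS_induction (C := fun a => a = 0) P.dq (S := tL P ∅) (n := B.e b) ?_ rfl ?_ ?_
      (B.mem b)
    · intro l hl hn
      exfalso
      apply hne
      rw [← hn]
      clear hn
      induction l with
      | nil => exact ⟨0, rfl⟩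
      | cons t l ih =>
        rw [degSum_cons]
        refine Even.add ?_ (ih fun i hi => hl i (List.mem_cons_of_mem _ hi))
        rcases t with u | j
        · exact P.du_even u
        · exact absurd (hl (Sum.inr j) List.mem_cons_self j rfl) (Finset.notMem_empty j)
    · intro x y hx hy
      rw [hx, hy, add_zero]
    · intro r x hx
      rw [hx, smul_zero]
  exact B.ind.ne_zero b h0

theorem exists_pows (T : TS P) (n₀ : ℕ) (hn₀ : 2 ≤ n₀) {σ : Type} [Finite σ] (g : σ → ℤ)
    (hg : ∀ s, Even (g s)) (a : σ → Lam T.dt) (ha : ∀ s, a s ∈ T.hz (g s))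
    (hI : ∀ s, a s ∈ SP T.dt (fun l => 1 ≤ cW l)) (hD : ∀ s, T.D (a s) = 0)
    (hp : ∀ s j, T.p j (a s) = 0) :
    ∃ (T' : TS P) (h : T.Hom T') (y : σ → Lam T'.dt),
      (∀ i, i ∉ Set.range h.f → n₀ ≤ T'.deg i ∧ Odd (T'.deg i)) ∧
      (∀ s j, T'.p j (y s) = 0) ∧ ∀ s, T'.D (y s) = h.Φ (a s) ^ (n₀ + 2) := by
  classical
  have := Fintype.ofFinite σ
  have key : ∀ J : Finset σ, ∃ (T' : TS P) (h : T.Hom T') (Y : σ → Lam T'.dt),
      (∀ i, i ∉ Set.range h.f → n₀ ≤ T'.deg i ∧ Odd (T'.deg i)) ∧
      (∀ s ∈ J, ∀ j, T'.p j (Y s) = 0) ∧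
      ∀ s ∈ J, T'.D (Y s) = h.Φ (a s) ^ (n₀ + 2) := by
    intro J
    induction J using Finset.induction_on with
    | empty =>
      refine ⟨T, TS.Hom.id T, fun _ => 0, ?_, ?_, ?_⟩
      · intro i hi
        exact absurd ⟨i, rfl⟩ hi
      · intro j hj
        exact absurd hj (Finset.notMem_empty j)
      · intro j hj
        exact absurd hj (Finset.notMem_empty j)
    | insert s J hsJ ih =>
      obtain ⟨T₁, h₁, Y₁, hnew, hYf, hYD⟩ := ih
      by_cases hw0 : h₁.Φ (a s) ^ (n₀ + 2) = 0
      · refine ⟨T₁, h₁, fun j => if j = s then 0 else Y₁ j, hnew, ?_, ?_⟩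
        · intro j hj i
          by_cases hja : j = s
          · simp only [if_pos hja]
            exact map_zero _
          · simp only [if_neg hja]
            exact hYf j ((Finset.mem_insert.1 hj).resolve_left hja) i
        · intro j hj
          by_cases hja : j = s
          · simp only [if_pos hja]
            rw [map_zero, hja, hw0]
          · simp only [if_neg hja]
            exact hYD j ((Finset.mem_insert.1 hj).resolve_left hja)
      · have hD1 : T₁.D (h₁.Φ (a s)) = 0 := by rw [Φ_D, hD, map_zero]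
        have hp1 : ∀ j, T₁.p j (h₁.Φ (a s)) = 0 := by
          intro j
          rw [Φ_p, hp s j, map_zero]
        obtain ⟨n, hn, hhom⟩ := ((hz_iff T₁).1 (hz_pow T₁ (hz_Φ h₁ (ha s)) (n₀ + 2))).resolve_left
          hw0
        have hne : Even n := by
          have h5 : Even (((n₀ + 2 : ℕ) : ℤ) * g s) := (hg s).mul_left _
          rw [← hn] at h5
          exact (Int.even_coe_nat n).1 h5
        obtain ⟨T₂, h₂, Q, B, ζ, hζ, hζn, hζe, hζD⟩ :=
          exists_superfield T₁ ∅ n₀ hn₀ n (h₁.Φ (a s) ^ (n₀ + 2)) hw0 hhom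
            (sp_pow T₁ (Φ_SP h₁ (hI s)) (n₀ + 2))
            (yt_D_pow T₁ hD1 (n₀ + 2)) (fun j _ => yt_p_pow T₁ j (hp1 j) (n₀ + 2))
        refine ⟨T₂, h₁.comp h₂, fun j => if j = s then T₂.fld B ζ else h₂.Φ (Y₁ j), ?_, ?_, ?_⟩
        · intro i hi
          rcases hζ i with ⟨i₁, hi₁⟩ | ⟨b, hb⟩
          · have h3 : i₁ ∉ Set.range h₁.f := by
              rintro ⟨i₀, hi₀⟩
              exact hi ⟨i₀, by rw [← hi₁, ← hi₀]; rfl⟩
            have h4 := hnew i₁ h3
            rw [← hi₁, h₂.deg]
            exact h4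
          · rw [hb]
            refine ⟨hζn b, ?_⟩
            have h5 : Even n := hne
            rw [← hζe b] at h5
            have h6 := yt_even B b
            rcases Nat.even_or_odd (T₂.deg (ζ b)) with h7 | h7
            · exfalso
              have h8 : Odd (T₂.deg (ζ b) + B.e b + 1) := (h7.add h6).add_one
              exact (Nat.not_even_iff_odd.2 h8) h5
            · exact h7
        · intro j hj i
          by_cases hja : j = s
          · simp only [if_pos hja]
            exact fld_p T₂ B ζ i (Finset.notMem_empty i)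
          · simp only [if_neg hja]
            rw [Φ_p, hYf j ((Finset.mem_insert.1 hj).resolve_left hja) i, map_zero]
        · intro j hj
          by_cases hja : j = s
          · simp only [if_pos hja]
            rw [hζD, hja, map_pow, comp_Φ]
          · simp only [if_neg hja]
            rw [Φ_D, hYD j ((Finset.mem_insert.1 hj).resolve_left hja), map_pow, comp_Φ]
  obtain ⟨T', h, Y, h1, h3, h4⟩ := key Finset.univ
  exact ⟨T', h, Y, h1, fun j => h3 j (Finset.mem_univ j), fun j => h4 j (Finset.mem_univ j)⟩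

section

attribute [local irreducible] instRingLam

/-- Closed even elements without letters `X`. -/
private def Gd (T : TS P) (z : Lam T.dt) : Prop :=
  sgn T.dt z = z ∧ T.D z = 0 ∧ ∀ j, T.p j z = 0

/-- Boundaries of elements without letters `X`. -/
private def Bd (T : TS P) (z : Lam T.dt) : Prop := ∃ y, T.D y = z ∧ ∀ j, T.p j y = 0

private theorem yt_gone (T : TS P) : Gd T 1 := ⟨map_one _, d_one T.diff, yt_one T⟩

private theorem yt_gmul (T : TS P) {a b : Lam T.dt} (ha : Gd T a) (hb : Gd T b) :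
    Gd T (a * b) := by
  refine ⟨?_, ?_, fun j => yt_p_mul T j (ha.2.2 j) (hb.2.2 j)⟩
  · rw [map_mul, ha.1, hb.1]
  · rw [T.leib, ha.2.1, hb.2.1, zero_mul, mul_zero, add_zero]

private theorem yt_gadd (T : TS P) {a b : Lam T.dt} (ha : Gd T a) (hb : Gd T b) :
    Gd T (a + b) := by
  refine ⟨?_, ?_, fun j => ?_⟩
  · rw [map_add, ha.1, hb.1]
  · rw [map_add, ha.2.1, hb.2.1, add_zero]
  · rw [map_add, ha.2.2 j, hb.2.2 j, add_zero]

private theorem yt_gzero (T : TS P) : Gd T 0 := ⟨map_zero _, map_zero _, fun _ => map_zero _⟩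

private theorem yt_gpow (T : TS P) {a : Lam T.dt} (ha : Gd T a) (n : ℕ) : Gd T (a ^ n) := by
  induction n with
  | zero => rw [pow_zero]; exact yt_gone T
  | succ n ih => rw [pow_succ]; exact yt_gmul T ih ha

private theorem yt_gsum (T : TS P) {σ : Type} (J : Finset σ) (f : σ → Lam T.dt)
    (hf : ∀ s, Gd T (f s)) : Gd T (∑ s ∈ J, f s) := by
  classical
  induction J using Finset.induction_on with
  | empty => rw [Finset.sum_empty]; exact yt_gzero T
  | insert s J hs ih => rw [Finset.sum_insert hs]; exact yt_gadd T (hf s) ih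

private theorem yt_bzero (T : TS P) : Bd T 0 := ⟨0, map_zero _, fun _ => map_zero _⟩

private theorem yt_badd (T : TS P) {a b : Lam T.dt} (ha : Bd T a) (hb : Bd T b) :
    Bd T (a + b) := by
  obtain ⟨y, hy, hyp⟩ := ha
  obtain ⟨z, hz, hzp⟩ := hb
  exact ⟨y + z, by rw [map_add, hy, hz], fun j => by rw [map_add, hyp j, hzp j, add_zero]⟩

private theorem yt_bsum (T : TS P) {σ : Type} (J : Finset σ) (f : σ → Lam T.dt)
    (hf : ∀ s ∈ J, Bd T (f s)) : Bd T (∑ s ∈ J, f s) := by
  classical
  induction J using Finset.induction_on with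
  | empty => rw [Finset.sum_empty]; exact yt_bzero T
  | insert s J hs ih =>
    rw [Finset.sum_insert hs]
    exact yt_badd T (hf s (Finset.mem_insert_self s J))
      (ih fun t ht => hf t (Finset.mem_insert_of_mem ht))

private theorem yt_bmul (T : TS P) {a b : Lam T.dt} (ha : Bd T a) (hb : Gd T b) :
    Bd T (a * b) := by
  obtain ⟨y, hy, hyp⟩ := ha
  refine ⟨y * b, ?_, fun j => yt_p_mul T j (hyp j) (hb.2.2 j)⟩
  rw [T.leib, hy, hb.2.1, mul_zero, add_zero]

private theorem yt_comm (T : TS P) {a : Lam T.dt} (ha : Gd T a) (b : Lam T.dt) :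
    a * b = b * a := even_comm ha.1 b

private theorem yt_bmul' (T : TS P) {a b : Lam T.dt} (ha : Gd T a) (hb : Bd T b) :
    Bd T (a * b) := by
  rw [yt_comm T ha b]
  exact yt_bmul T hb ha

private theorem yt_cast (T : TS P) {a : Lam T.dt} (n : ℕ) (ha : Bd T a) :
    Bd T (a * (n : Lam T.dt)) := by
  rw [← Nat.cast_comm, ← nsmul_eq_mul]
  induction n with
  | zero => rw [zero_nsmul]; exact yt_bzero T
  | succ n ih => rw [succ_nsmul]; exact yt_badd T ih ha

end

/-- Sums of nilpotent elements modulo boundaries, with a bound. -/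
theorem pow_sum_bd (T : TS P) {σ : Type} [Finite σ] (a l : σ → Lam T.dt)
    (ha : ∀ s, sgn T.dt (a s) = a s) (hD : ∀ s, T.D (a s) = 0) (hp : ∀ s j, T.p j (a s) = 0)
    (hl : ∀ s, sgn T.dt (l s) = l s) (hlD : ∀ s, T.D (l s) = 0) (hlp : ∀ s j, T.p j (l s) = 0)
    (J : Finset σ) (m : ℕ) (hy : ∀ s, ∃ y, T.D y = a s ^ m ∧ ∀ j, T.p j y = 0) :
    ∃ N₀, ∀ N, N₀ ≤ N → ∃ y, T.D y = (∑ s ∈ J, l s * a s) ^ N ∧ ∀ j, T.p j y = 0 := by
  classical
  have ga : ∀ s, Gd T (a s) := fun s => ⟨ha s, hD s, hp s⟩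
  have gl : ∀ s, Gd T (l s) := fun s => ⟨hl s, hlD s, hlp s⟩
  have gx : ∀ s, Gd T (l s * a s) := fun s => yt_gmul T (gl s) (ga s)
  have hx : ∀ s k, m ≤ k → Bd T ((l s * a s) ^ k) := by
    intro s k hk
    have h1 : (l s * a s) ^ k = l s ^ k * a s ^ k :=
      (show Commute (l s) (a s) from yt_comm T (gl s) (a s)).mul_pow k
    rw [h1]
    refine yt_bmul' T (yt_gpow T (gl s) k) ?_
    obtain ⟨i, rfl⟩ := Nat.exists_eq_add_of_le hk
    rw [pow_add]
    exact yt_bmul T (hy s) (yt_gpow T (ga s) i)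
  induction J using Finset.induction_on with
  | empty =>
    refine ⟨1, fun N hN => ⟨0, ?_, fun _ => map_zero _⟩⟩
    rw [map_zero, Finset.sum_empty, zero_pow (by omega)]
  | insert s J hs ih =>
    obtain ⟨N₁, hN₁⟩ := ih
    refine ⟨m + N₁, fun N hN => ?_⟩
    have h2 : Commute (l s * a s) (∑ t ∈ J, l t * a t) := yt_comm T (gx s) _
    rw [Finset.sum_insert hs, h2.add_pow]
    show Bd T _
    refine yt_bsum T _ _ fun k hk => ?_
    refine yt_cast T _ ?_
    have hkN : k ≤ N := Nat.lt_succ_iff.1 (Finset.mem_range.1 hk)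
    by_cases hkm : m ≤ k
    · exact yt_bmul T (hx s k hkm) (yt_gpow T (yt_gsum T J _ gx) _)
    · exact yt_bmul' T (yt_gpow T (gx s) k) (hN₁ (N - k) (by omega))

end AnWL
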