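import Pool.Agent.Helper84.G2.Pt
import Pool.Agent.Helper84.G2.Yt
import Pool.Agent.Helper84.G2.Add

/-!
G2/Sys. The total system with the parameters `λ_c` and the frame coordinates `θ_i`, `D θ_i = ∑ λ_c ∂_i q_c`.
-/

set_option autoImplicit false

namespace AnWL
open Anick2
variable {P : Par} {C : Type} [Fintype C]

attribute [local irreducible] instRingLam

private theorem gU_sgn (T : TS P) (u : P.U) : sgn T.dt (T.gU u) = T.gU u :=
  sgn_gen_even (P.du_even u)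

private theorem gU_p (T : TS P) (j : P.M) (u : P.U) : T.p j (T.gU u) = 0 :=
  pdv_gen_ne (T.odd j) (by simp)

private theorem gU_hz (T : TS P) (u : P.U) : T.gU u ∈ T.hz (P.du u) :=
  hz_of_hom T (gen_mem_hom T.dt (Sum.inr (Sum.inl u)))

private theorem gX_hz (T : TS P) (j : P.M) : T.gX j ∈ T.hz (P.dm j) :=
  hz_of_hom T (gen_mem_hom T.dt (Sum.inr (Sum.inr j)))

private theorem p_gX (T : TS P) (j k : P.M) (h : k ≠ j) : T.p j (T.gX k) = 0 :=
  pdv_gen_ne (T.odd j) (fun h' => h (Sum.inr_injective (Sum.inr_injective h')))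

private theorem p_even_mul (T : TS P) (j : P.M) {a : Lam T.dt} (hs : sgn T.dt a = a)
    (hp : T.p j a = 0) (x : Lam T.dt) : T.p j (a * x) = a * T.p j x := by
  have e3 : T.p j (a * x) = T.p j a * x + sgn T.dt a * T.p j x := pdv_mul (T.odd j) _ _
  rw [e3, hp, hs, zero_mul, zero_add]

private theorem D_closed_pow (T : TS P) {a : Lam T.dt} (h : T.D a = 0) (n : ℕ) :
    T.D (a ^ n) = 0 := by
  induction n with
  | zero => rw [pow_zero, d_one T.diff]
  | succ n ih => rw [pow_succ, T.leib, ih, h, zero_mul, mul_zero, add_zero]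

private theorem p_one (T : TS P) (j : P.M) : T.p j 1 = 0 := by
  have e3 : T.p j ((1 : Lam T.dt) * 1) = T.p j 1 * 1 + sgn T.dt 1 * T.p j 1 :=
    pdv_mul (T.odd j) _ _
  have h1 : sgn T.dt (1 : Lam T.dt) = 1 := map_one (sgn T.dt)
  rw [h1, mul_one, mul_one, one_mul] at e3
  exact add_eq_left.1 e3.symm

private theorem p_pow0 (T : TS P) (j : P.M) {a : Lam T.dt} (h : T.p j a = 0) (n : ℕ) :
    T.p j (a ^ n) = 0 := by
  induction n with
  | zero => rw [pow_zero, p_one]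
  | succ n ih =>
    have e3 : T.p j (a ^ n * a) = T.p j (a ^ n) * a + sgn T.dt (a ^ n) * T.p j a :=
      pdv_mul (T.odd j) _ _
    rw [pow_succ, e3, ih, h, zero_mul, mul_zero, add_zero]

theorem exists_sys (T : TS P) (n₀ : ℕ) (hn₀ : 2 ≤ n₀) (dc : C → ℕ) (hdc : ∀ e, Even (dc e))
    (q : C → Lam T.dt) (hq : ∀ e, q e ∈ T.hz (dc e + 1))
    (hqI : ∀ e, q e ∈ SP T.dt (fun l => 1 ≤ cW l)) (hqD : ∀ e, T.D (q e) = 0)
    (hqp : ∀ e i j, T.p i (T.p j (q e)) = 0) :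
    ∃ (P' : Par) (T' : TS P') (e : Emb T T') (ρ : P'.U → P.U ⊕ C) (κ : C → P'.U) (D₀ : ℕ)
      (dl : C → ℕ) (ϑ : P'.M → Lam T'.dt),
      Function.Injective e.fu ∧ (∀ u, ρ (e.fu u) = Sum.inl u) ∧ (∀ c, ρ (κ c) = Sum.inr c) ∧
      (∀ i, i ∉ Set.range e.f → n₀ ≤ T'.deg i ∧ Odd (T'.deg i)) ∧
      Even D₀ ∧ 2 ≤ D₀ ∧ (∀ c, dl c + dc c = D₀) ∧
      (∀ c, T'.gU (κ c) ∈ T'.hz (dl c)) ∧ (∀ c, T'.D (T'.gU (κ c)) = 0) ∧
      (∀ i, ϑ i = 0 ∨ ∃ j, ϑ i = T'.gX j) ∧ (∀ i, ϑ i ∈ T'.hz (D₀ - P'.dm i)) ∧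
      (∀ k i, T'.p (e.fm k) (ϑ i) = 0) ∧
      ∀ i, T'.D (ϑ i) = T'.p i (∑ c, T'.gU (κ c) * e.Φ (q c)) := by
  classical
  have hfM := P.finM
  letI : Fintype P.M := Fintype.ofFinite P.M
  obtain ⟨T₂, h₂, y, y1, y2, y3⟩ := exists_pows T n₀ hn₀ (σ := C × P.M)
    (fun x => (dc x.1 : ℤ) + 1 - P.dm x.2)
    (fun x => by
      have h1 : Even (dc x.1 : ℤ) := (Int.even_coe_nat _).2 (hdc x.1)
      have h2 : Odd (P.dm x.2 : ℤ) := (Int.odd_coe_nat _).2 (P.dm_odd x.2)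
      exact (h1.add_one).sub_odd h2)
    (fun x => T.p x.2 (q x.1)) (fun x => hz_p T x.2 (hq x.1)) (fun x => T.p_SP x.2 (hqI x.1))
    (fun x => by
      have h1 := T.p_D x.2 (q x.1)
      rw [hqD, map_zero] at h1
      exact neg_eq_zero.1 h1.symm)
    (fun x j => hqp x.1 j x.2)
  obtain ⟨D₀, hD₀⟩ : ∃ D₀ : ℕ, D₀ = 2 * (∑ c, dc c + ∑ i, P.dm i + 1) := ⟨_, rfl⟩
  have hD₀e : Even D₀ := by rw [hD₀]; exact even_two_mul _
  have hc : ∀ c, dc c + 2 ≤ D₀ := by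
    intro c
    have h1 : dc c ≤ ∑ c, dc c := Finset.single_le_sum (fun _ _ => Nat.zero_le _)
      (Finset.mem_univ c)
    omega
  have hm : ∀ i, P.dm i + 2 ≤ D₀ := by
    intro i
    have h1 : P.dm i ≤ ∑ i, P.dm i := Finset.single_le_sum (fun _ _ => Nat.zero_le _)
      (Finset.mem_univ i)
    omega
  obtain ⟨T₃, e₃, f1, f2, f3, f4⟩ := exists_addU T₂ C inferInstance (fun c => D₀ - dc c)
    (fun c => (Nat.even_sub (by have := hc c; omega)).2 ⟨fun _ => hdc c, fun _ => hD₀e⟩)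
    (fun c => by have := hc c; omega)
  have hu3 : Function.Injective e₃.fu := by
    rw [f1]
    exact Sum.inl_injective
  have hp3 : ∀ (j : P.M) (a : Lam T₂.dt), T₃.p j (e₃.Φ a) = e₃.Φ (T₂.p j a) := by
    intro j a
    have h1 := E_p e₃ hu3 j a
    have h2 : e₃.fm j = j := congrFun f2 j
    rwa [h2] at h1
  have hbd : ∀ i : P.M, ∃ N₀, ∀ N, N₀ ≤ N → ∃ y, T₃.D y =
      (∑ c ∈ (Finset.univ : Finset C), T₃.gU (Sum.inr c) * e₃.Φ (h₂.Φ (T.p i (q c)))) ^ N ∧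
        ∀ j, T₃.p j y = 0 := by
    intro i
    refine pow_sum_bd T₃ (fun c => e₃.Φ (h₂.Φ (T.p i (q c)))) (fun c => T₃.gU (Sum.inr c))
      (fun c => ?_) (fun c => ?_) (fun c j => ?_) (fun c => gU_sgn T₃ _) (fun c => f4 c)
      (fun c j => gU_p T₃ j _) Finset.univ (n₀ + 2) (fun c => ?_)
    · have h1 : T.p i (q c) ∈ T.hz ((dc c : ℤ) + 1 - P.dm i) := hz_p T i (hq c)
      have h2 : Even (dc c : ℤ) := (Int.even_coe_nat _).2 (hdc c)
      have h3 : Odd (P.dm i : ℤ) := (Int.odd_coe_nat _).2 (P.dm_odd i)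
      exact hz_sgn_even T₃ ((h2.add_one).sub_odd h3) (E_hz e₃ (hz_Φ h₂ h1))
    · rw [E_D, Φ_D]
      have h1 := T.p_D i (q c)
      rw [hqD, map_zero] at h1
      rw [neg_eq_zero.1 h1.symm, map_zero, map_zero]
    · have h1 := hp3 j (h₂.Φ (T.p i (q c)))
      rw [Φ_p, hqp, map_zero, map_zero] at h1
      exact h1
    · refine ⟨e₃.Φ (y (c, i)), ?_, fun j => ?_⟩
      · rw [E_D, y3, map_pow]
      · have h1 := hp3 j (y (c, i))
        rw [y2, map_zero] at h1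
        exact h1
  choose N₀ hN₀ using hbd
  obtain ⟨N', hN'⟩ : ∃ N' : ℕ, N' = P.N + ∑ i, N₀ i := ⟨_, rfl⟩
  have hN1 : 1 ≤ N' := by
    have := P.N_pos
    omega
  have hNi : ∀ i, N₀ i ≤ N' := by
    intro i
    have h1 : N₀ i ≤ ∑ i, N₀ i := Finset.single_le_sum (fun _ _ => Nat.zero_le _)
      (Finset.mem_univ i)
    omega
  obtain ⟨T₄, e₄, g1, g2, g3, g4⟩ := exists_addX T₃ P.M hfM (fun i => D₀ - P.dm i)
    (fun i => Nat.Even.sub_odd (by have := hm i; omega) hD₀e (P.dm_odd i))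
    (fun i => ∑ c ∈ (Finset.univ : Finset C),
      T₃.gU (Sum.inr c) * e₃.Φ (h₂.Φ (T.p i (q c))))
    (by
      intro i
      refine Submodule.sum_mem _ fun c _ => ?_
      have h1 : T.p i (q c) ∈ T.hz ((dc c : ℤ) + 1 - P.dm i) := hz_p T i (hq c)
      have h2 := hz_mul T₃ (gU_hz T₃ (Sum.inr c)) (E_hz e₃ (hz_Φ h₂ h1))
      rcases (hz_iff T₃).1 h2 with h3 | ⟨n, hn, h3⟩
      · rw [h3]
        exact zero_mem _
      · have h4 : n = D₀ - P.dm i + 1 := by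
          have h5 := hc c
          have h6 := hm i
          have h7 : ((D₀ - dc c : ℕ) : ℤ) = (D₀ : ℤ) - dc c := by
            rw [Nat.cast_sub (by omega)]
          change (n : ℤ) = ((D₀ - dc c : ℕ) : ℤ) + ((dc c : ℤ) + 1 - P.dm i) at hn
          omega
        rw [← h4]
        exact h3)
    (by
      intro i
      refine Submodule.sum_mem _ fun c _ => ?_
      have h1 := SP_mul_left (k := 0) (m := 1) (SP_zero_top _ (T₃.gU (Sum.inr c)))
        (E_SP e₃ (Φ_SP h₂ (T.p_SP i (hqI c))))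
      simpa only [Nat.zero_add] using h1)
    (by
      intro i
      rw [map_sum]
      refine Finset.sum_eq_zero fun c _ => ?_
      have h1 := T.p_D i (q c)
      rw [hqD, map_zero] at h1
      rw [T₃.leib, f4, zero_mul, zero_add, E_D, Φ_D, neg_eq_zero.1 h1.symm, map_zero, map_zero,
        mul_zero])
    (by
      intro i j
      rw [map_sum]
      refine Finset.sum_eq_zero fun c _ => ?_
      rw [p_even_mul T₃ j (gU_sgn T₃ _) (gU_p T₃ j _)]
      have h1 := hp3 j (h₂.Φ (T.p i (q c)))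
      rw [Φ_p, hqp, map_zero, map_zero] at h1
      rw [h1, mul_zero])
    N' hN1
    (by
      intro j
      refine ⟨T₃.Y j * T₃.D (T₃.gX j) ^ (∑ i, N₀ i), ?_, fun k => ?_⟩
      · have h1 : T₃.D (T₃.Y j) = T₃.D (T₃.gX j) ^ P.N := T₃.D_Y j
        rw [T₃.leib, h1, D_closed_pow T₃ (T₃.diff.d_d _), mul_zero, add_zero, ← pow_add, hN']
      · have h1 : T₃.p k (T₃.D (T₃.gX j)) = 0 := by
          rw [T₃.p_D]
          by_cases hkj : j = k
          · subst hkj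
            have h2 : T₃.p j (T₃.gX j) = 1 := pdv_gen (T₃.odd j)
            rw [h2, d_one T₃.diff, neg_zero]
          · rw [p_gX T₃ k j hkj, map_zero, neg_zero]
        have e3 : T₃.p k (T₃.Y j * T₃.D (T₃.gX j) ^ (∑ i, N₀ i)) =
          T₃.p k (T₃.Y j) * T₃.D (T₃.gX j) ^ (∑ i, N₀ i) +
            sgn T₃.dt (T₃.Y j) * T₃.p k (T₃.D (T₃.gX j) ^ (∑ i, N₀ i)) :=
          pdv_mul (T₃.odd k) _ _
        rw [e3, T₃.p_Y, p_pow0 T₃ k h1, zero_mul, mul_zero, add_zero])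
    (fun i => hN₀ i N' (hNi i))
  have hE : ∀ a, (((Emb.ofHom h₂).comp e₃).comp e₄).Φ a = e₄.Φ (e₃.Φ (h₂.Φ a)) := by
    intro a
    rw [Emb_comp_Φ, Emb_comp_Φ, ofHom_Φ]
  have hfu : ∀ u, (((Emb.ofHom h₂).comp e₃).comp e₄).fu u = Sum.inl u := by
    intro u
    change e₄.fu (e₃.fu u) = Sum.inl u
    rw [f1, g1]
    rfl
  have hfm : ∀ j, (((Emb.ofHom h₂).comp e₃).comp e₄).fm j = Sum.inl j := by
    intro j
    change e₄.fm (e₃.fm j) = Sum.inl j
    rw [f2, g2]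
    rfl
  have hui : Function.Injective (((Emb.ofHom h₂).comp e₃).comp e₄).fu := by
    intro u u' huu
    rw [hfu, hfu] at huu
    exact Sum.inl_injective huu
  refine ⟨_, T₄, ((Emb.ofHom h₂).comp e₃).comp e₄, fun x => x, fun c => Sum.inr c, D₀,
    fun c => D₀ - dc c, Sum.elim (fun i => T₄.gX (Sum.inr i)) (fun _ => 0), hui, hfu,
    fun c => rfl, ?_, hD₀e, ?_, ?_, ?_, ?_, ?_, ?_, ?_, ?_⟩
  · intro i hi
    obtain ⟨i₃, rfl⟩ := g3.2 i
    obtain ⟨i₂, rfl⟩ := f3.2 i₃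
    have h1 : i₂ ∉ Set.range h₂.f := by
      rintro ⟨i₁, rfl⟩
      exact hi ⟨i₁, rfl⟩
    rw [e₄.deg, e₃.deg]
    exact y1 i₂ h1
  · rw [hD₀]
    omega
  · intro c
    have := hc c
    change D₀ - dc c + dc c = D₀
    omega
  · intro c
    exact gU_hz T₄ (Sum.inr c)
  · intro c
    have h1 : e₄.Φ (T₃.gU (Sum.inr c)) = T₄.gU (Sum.inr c) := by
      rw [E_gU, g1]
      rfl
    have h2 := E_D e₄ (T₃.gU (Sum.inr c))
    rw [h1, f4, map_zero] at h2
    exact h2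
  · rintro (i | i)
    · exact Or.inr ⟨_, rfl⟩
    · exact Or.inl rfl
  · rintro (i | i)
    · have h1 := gX_hz T₄ (Sum.inr i)
      have h2 := hm i
      have h3 : ((D₀ - P.dm i : ℕ) : ℤ) = (D₀ : ℤ) - P.dm i := by
        rw [Nat.cast_sub (by omega)]
      change T₄.gX (Sum.inr i) ∈ T₄.hz ((D₀ : ℤ) - P.dm i)
      rw [← h3]
      exact h1
    · exact Submodule.zero_mem _
  · rintro k (i | i)
    · rw [hfm]
      exact p_gX T₄ _ _ (by simp)
    · exact map_zero _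
  · rintro (i | i)
    · change T₄.D (T₄.gX (Sum.inr i)) = _
      rw [g4, map_sum, map_sum]
      refine Finset.sum_congr rfl fun c _ => ?_
      have h1 : e₄.Φ (T₃.gU (Sum.inr c)) = T₄.gU (Sum.inr c) := by
        rw [E_gU, g1]
        rfl
      have h5 := E_p (((Emb.ofHom h₂).comp e₃).comp e₄) hui i (q c)
      rw [hfm, hE (T.p i (q c))] at h5
      rw [map_mul, h1, p_even_mul T₄ _ (gU_sgn T₄ _) (gU_p T₄ _ _)]
      exact congrArg (fun x => T₄.gU (Sum.inr c) * x) h5.symm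
    · change T₄.D 0 = _
      rw [map_zero, map_sum]
      symm
      refine Finset.sum_eq_zero fun c _ => ?_
      rw [p_even_mul T₄ _ (gU_sgn T₄ _) (gU_p T₄ _ _),
        E_p_ne (((Emb.ofHom h₂).comp e₃).comp e₄) (Sum.inr i) (fun j => by rw [hfm]; simp),
        mul_zero]

end AnWL
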